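import Pool.Agent.Zk24.SL.Univ0
import Pool.Agent.Zk24.SL.RajI

/-!
The universal subspace and laws of sums, for all multiplicatively independent integers.
-/

set_option autoImplicit false

open MeasureTheory Filter Topology Set Metric
open scoped ENNReal NNReal

namespace Pool.Agent.Zk24.SL

open Pool.Agent.Zk32 (cir coe_cir cir_meas sum_gen coef_gen Thick Solid fat_dirac)

universe u v

/-- Lebesgue measure is thick -/
lemma thick_vol {p q : ℕ} (hp : 2 ≤ p) (hq : 2 ≤ q)
    (hirr : Irrational (Real.log p / Real.log q)) :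
    ∃ ω : Measure TC, IsProbabilityMeasure ω ∧ Thick p q ω := by
  have hraj : Pool.Agent.Zk32.Raj (volume : Measure UnitAddCircle) := by
    unfold Pool.Agent.Zk32.Raj
    refine tendsto_const_nhds.congr' ?_
    have h1 : ∀ᶠ n : ℤ in cofinite, n ≠ 0 := by
      rw [eventually_cofinite]
      simp
    filter_upwards [h1] with n hn
    have h2 : ∀ x : UnitAddCircle, (fourier n (x + ((1 / 2 / (n : ℝ) : ℝ) : UnitAddCircle)) : ℂ) =
        -fourier n x := fun x => fourier_add_half_inv_index hn one_pos x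
    exact (integral_eq_zero_of_add_right_eq_neg h2).symm
  refine ⟨volume, inferInstance, fun B hB hB0 => ⟨bx, box_folner, volume, inferInstance, ?_, ?_⟩⟩
  · exact RajI.raj_lim hp hq hirr box_folner hraj hB hB0
  · exact Pool.Agent.Zk32.vol_not_sing

/-- **The universal subspace and the laws of sums.** -/
theorem univ_law0 {p q : ℕ} (hp : 2 ≤ p) (hq : 2 ≤ q)
    (hirr : Irrational (Real.log p / Real.log q))
    {Ω : Type u} [MeasurableSpace Ω] {P : Measure Ω} [IsProbabilityMeasure P]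
    {φ : Ω → ℝ} (hφ : Measurable φ)
    {Ω' : Type v} [MeasurableSpace Ω'] {Q : Measure Ω'} [IsProbabilityMeasure Q] {r : ℕ}
    {y : Fin r → Ω' → TC} (hy : ∀ j, Measurable (y j))
    {w : Ω' → TC} (hw : Measurable w) (c : Fin r → ℤ)
    (halt : (∃ θ : ℝ, Irrational θ ∧ ∀ L : Submodule ℚ ℝ, MeasurableSet (L : Set ℝ) →
      (1 : ℝ) ∈ L → θ ∉ L → ∀ t : ℝ, P {ω | φ ω + t ∈ L} = 0) ∨
      ((∀ L : Submodule ℚ ℝ, MeasurableSet (L : Set ℝ) → (1 : ℝ) ∈ L →
        ∀ t : ℝ, t ∉ L → P {ω | φ ω + t ∈ L} = 0) ∧ Thick p q (Q.map w) ∧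
        ∀ j, MeasurePreserving (fun x : TC => p • x) (Q.map (y j)) (Q.map (y j)) ∧
          MeasurePreserving (fun x : TC => q • x) (Q.map (y j)) (Q.map (y j)) ∧
          Inj p (Q.map (y j)))) :
    ∃ L : Submodule ℚ ℝ, MeasurableSet (L : Set ℝ) ∧ dimH (L : Set ℝ) = 0 ∧ (1 : ℝ) ∈ L ∧
      (∀ ω : Measure TC, IsProbabilityMeasure ω → Solid p q ω → ω (cir L) = 0) ∧
      (P.prod Q) {z : Ω × Ω' | ((φ z.1 : ℝ) : TC) + ∑ j, c j • y j z.2 + w z.2 ∈ cir L} = 0 ∧
      ∀ ν : Measure TC, IsProbabilityMeasure ν → MeasurePreserving (fun x : TC => p • x) ν ν →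
        MeasurePreserving (fun x : TC => q • x) ν ν → Inj p ν →
        ∀ᵐ x ∂ν, ∀ X : ℝ, (X : TC) = x → X ∈ L := by
  rcases halt with ⟨θ, hθ, hφL⟩ | ⟨hφL, hth, hyS⟩
  · obtain ⟨ω₀, hω₀, hth₀⟩ := thick_vol hp hq hirr
    obtain ⟨L, hL, hLd, hL1, hLs, hLK, -, hLν⟩ := exists_all0 hp hq hirr (countable_singleton θ)
      (ω := fun _ => ω₀) (fun _ => hω₀) (fun _ => hth₀)
    refine ⟨L, hL, hLd, hL1, hLs, ?_, hLν⟩
    have hiL : θ ∉ L := by
      intro hc
      obtain ⟨a, ha⟩ := hLK _ hc rfl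
      exact hθ ⟨a, ha.symm⟩
    have hw' : Measurable fun o : Ω' => ∑ j, c j • y j o + w o := by
      have h3 : Measurable fun o : Ω' => ∑ j, c j • y j o :=
        Finset.measurable_sum _ fun j _ => (continuous_zsmul (c j)).measurable.comp (hy j)
      exact h3.add hw
    refine measure_mono_null (fun z hz => ?_) (coef_gen hφ hL hL1 (hφL L hL hL1 hiL) (Q := Q) hw')
    show ((φ z.1 : ℝ) : TC) + (∑ j, c j • y j z.2 + w z.2) ∈ cir L
    rw [← add_assoc]
    exact hz
  · have hprob : IsProbabilityMeasure (Q.map w) := Measure.isProbabilityMeasure_map hw.aemeasurable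
    obtain ⟨L, hL, hLd, hL1, hLs, -, hLω, hLν⟩ := exists_all0 hp hq hirr (K := ∅) countable_empty
      (ω := fun _ => Q.map w) (fun _ => hprob) (fun _ => hth)
    have hAm := cir_meas hL1 hL
    refine ⟨L, hL, hLd, hL1, hLs, ?_, hLν⟩
    have h1 := sum_gen hφ hL hL1 (hφL L hL hL1) (Q := Q) hy (fun j => ?_) hw MeasurableSet.univ ?_ c
    · refine measure_mono_null (fun z hz => ?_) h1
      exact ⟨mem_univ _, hz⟩
    · have hyp : IsProbabilityMeasure (Q.map (y j)) :=
        Measure.isProbabilityMeasure_map (hy j).aemeasurable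
      have h3 : ∀ᵐ x ∂(Q.map (y j)), x ∈ cir L := by
        filter_upwards [hLν _ hyp (hyS j).1 (hyS j).2.1 (hyS j).2.2] with x hx
        exact ⟨rep x, coe_rep x, hx (rep x) (coe_rep x)⟩
      exact ae_of_ae_map (hy j).aemeasurable h3
    · have h2 := hLω 0
      rw [Measure.map_apply hw hAm] at h2
      refine measure_mono_null (fun o ho => ?_) h2
      exact ho.2

end Pool.Agent.Zk24.SL
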