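import Pool.Agent.Zk24.SL.Gen

/-!
Singularity of the measures of an admissible family to laws of sums.
-/

set_option autoImplicit false

open MeasureTheory Filter Topology Set
open scoped ENNReal

namespace Pool.Agent.Zk24.SL

open Pool.Agent.Zk32 (Fat fat_dirac cir coe_cir cir_meas sum_gen coef_gen Thick)

universe u v

/-- singularity to laws of sums -/
theorem sing_law {p q : ℕ} (hp : 2 ≤ p) (hq : 2 ≤ q)
    {N : Set (Measure TC)} (hN : N.Countable)
    (h : ∀ ν ∈ N, IsProbabilityMeasure ν ∧ MeasurePreserving (fun x : TC => p • x) ν ν ∧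
      MeasurePreserving (fun x : TC => q • x) ν ν)
    (hor : (Nat.Coprime p q ∧ ∀ ν ∈ N, ν ⟂ₘ (volume : Measure TC)) ∨
      (Irrational (Real.log p / Real.log q) ∧ InjCar p N))
    {Ω : Type u} [MeasurableSpace Ω] {P : Measure Ω} [IsProbabilityMeasure P]
    {φ : Ω → ℝ} (hφ : Measurable φ)
    {Ω' : Type v} [MeasurableSpace Ω'] {Q : Measure Ω'} [IsProbabilityMeasure Q] {r : ℕ}
    {y : Fin r → Ω' → TC} (hy : ∀ j, Measurable (y j))
    {w : Ω' → TC} (hw : Measurable w) (c : Fin r → ℤ)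
    (halt : (∃ θ : ℝ, Irrational θ ∧ ∀ L : Submodule ℚ ℝ, MeasurableSet (L : Set ℝ) →
      (1 : ℝ) ∈ L → θ ∉ L → ∀ t : ℝ, P {ω | φ ω + t ∈ L} = 0) ∨
      ((∀ L : Submodule ℚ ℝ, MeasurableSet (L : Set ℝ) → (1 : ℝ) ∈ L →
        ∀ t : ℝ, t ∉ L → P {ω | φ ω + t ∈ L} = 0) ∧ Thick p q (Q.map w) ∧
        ∀ j, Q.map (y j) ∈ N))
    {ν : Measure TC} (hν : ν ∈ N) :
    ν ⟂ₘ (P.prod Q).map (fun z : Ω × Ω' =>
      ((φ z.1 : ℝ) : TC) + ∑ j, c j • y j z.2 + w z.2) := by
  have hirr : Irrational (Real.log p / Real.log q) := by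
    rcases hor with ⟨hpq, -⟩ | ⟨hirr, -⟩
    · exact Pool.Agent.Zk24.SC.irr_of_coprime hp hq hpq
    · exact hirr
  have h2 : Measurable fun z : Ω × Ω' => ∑ j, c j • y j z.2 :=
    Finset.measurable_sum _ fun j _ =>
      ((continuous_zsmul (c j)).measurable.comp ((hy j).comp measurable_snd))
  have hmeas : Measurable fun z : Ω × Ω' =>
      ((φ z.1 : ℝ) : TC) + ∑ j, c j • y j z.2 + w z.2 := by
    have h1 : Measurable fun z : Ω × Ω' => ((φ z.1 : ℝ) : TC) :=
      AddCircle.measurable_mk'.comp (hφ.comp measurable_fst)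
    exact (h1.add h2).add (hw.comp measurable_snd)
  suffices hs : ∃ L : Submodule ℚ ℝ, MeasurableSet (L : Set ℝ) ∧ (1 : ℝ) ∈ L ∧
      (∀ᵐ x ∂ν, ∀ X : ℝ, (X : TC) = x → X ∈ L) ∧
      (P.prod Q) {z : Ω × Ω' | ((φ z.1 : ℝ) : TC) +
        ∑ j, c j • y j z.2 + w z.2 ∈ cir L} = 0 by
    obtain ⟨L, hL, hL1, hLν, h0⟩ := hs
    have hAm := cir_meas hL1 hL
    refine ⟨(cir L)ᶜ, hAm.compl, ?_, ?_⟩
    · have h1 : ∀ᵐ x ∂ν, x ∈ cir L := by
        filter_upwards [hLν] with x hx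
        exact ⟨rep x, coe_rep x, hx (rep x) (coe_rep x)⟩
      exact mem_ae_iff.1 h1
    · rw [compl_compl, Measure.map_apply hmeas hAm]
      exact h0
  rcases halt with ⟨θ, hθ, hφL⟩ | ⟨hφL, hth, hyN⟩
  · obtain ⟨L, hLc, hL1, hLN, -, hLK⟩ := exists_linGK hp hq
      (K := {θ}) (countable_singleton _) hN h hor
      (ω := fun _ => Measure.dirac ((√2 : ℝ) : TC)) (fun _ => inferInstance)
      (fun _ => fat_dirac hp hq hirr (by
        intro hfin
        obtain ⟨a, ha⟩ := rat_of_torsion hfin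
        exact irrational_sqrt_two ⟨a, ha.symm⟩))
    have hL := meas_of_closed hLc
    refine ⟨L, hL, hL1, hLN ν hν, ?_⟩
    have hiL : θ ∉ L := by
      intro hc
      obtain ⟨a, ha⟩ := hLK _ hc rfl
      exact hθ ⟨a, ha.symm⟩
    have hw' : Measurable fun o : Ω' => ∑ j, c j • y j o + w o := by
      have h3 : Measurable fun o : Ω' => ∑ j, c j • y j o :=
        Finset.measurable_sum _ fun j _ => (continuous_zsmul (c j)).measurable.comp (hy j)
      exact h3.add hw
    refine measure_mono_null (fun z hz => ?_) (coef_gen hφ hL hL1 (hφL L hL hL1 hiL) (Q := Q) hw')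
    show ((φ z.1 : ℝ) : TC) + (∑ j, c j • y j z.2 + w z.2) ∈ cir L
    rw [← add_assoc]
    exact hz
  · have hprob : IsProbabilityMeasure (Q.map w) := Measure.isProbabilityMeasure_map hw.aemeasurable
    obtain ⟨L, hLc, hL1, hLN, hLω, -⟩ := exists_linGK hp hq
      (K := ∅) countable_empty hN h hor
      (ω := fun _ => Q.map w) (fun _ => hprob) (fun _ => hth.fat hp)
    have hL := meas_of_closed hLc
    have hAm := cir_meas hL1 hL
    refine ⟨L, hL, hL1, hLN ν hν, ?_⟩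
    have h1 := sum_gen hφ hL hL1 (hφL L hL hL1) (Q := Q) hy (fun j => ?_) hw MeasurableSet.univ ?_ c
    · refine measure_mono_null (fun z hz => ?_) h1
      exact ⟨mem_univ _, hz⟩
    · have h3 : ∀ᵐ x ∂(Q.map (y j)), x ∈ cir L := by
        filter_upwards [hLN _ (hyN j)] with x hx
        exact ⟨rep x, coe_rep x, hx (rep x) (coe_rep x)⟩
      exact ae_of_ae_map (hy j).aemeasurable h3
    · have h2 := hLω 0
      rw [Measure.map_apply hw hAm] at h2
      refine measure_mono_null (fun o ho => ?_) h2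
      exact ho.2

end Pool.Agent.Zk24.SL
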