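import Pool.Agent.Zk24.SL.SumS
import Pool.Agent.Zk32.Tu5

/-!
The points with only singular limits form a group.
-/

set_option autoImplicit false

open MeasureTheory Filter Topology Set
open scoped ENNReal

namespace Pool.Agent.Zk24.SL

open Pool.Agent.Zk32 (Folner ave aveX aveX_cont Det lim_exists lim_inv)

variable {p q : ℕ} {F : ℕ → Finset (ℕ × ℕ)}

lemma ave_const (hF : Folner F) (c : ℝ) (k : ℕ) (x : TC) :
    ave p q (F k) (fun _ => c) x = c := by
  have h : ((F k).card : ℝ) ≠ 0 := by exact_mod_cast (hF.1 k).card_pos.ne'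
  unfold ave
  rw [Finset.sum_const, nsmul_eq_mul, inv_mul_cancel_left₀ h]

/-- limits of a point, in the form needed for invariance -/
lemma lim_inv' (hF : Folner F) {𝒰 : Ultrafilter ℕ} (h𝒰 : (𝒰 : Filter ℕ) ≤ atTop) {x : TC}
    {κ : Measure TC} [IsProbabilityMeasure κ]
    (h : ∀ g : C(TC, ℝ), Tendsto (fun k => ave p q (F k) g x) (𝒰 : Filter ℕ) (𝓝 (∫ y, g y ∂κ))) :
    MeasurePreserving (fun y : TC => p • y) κ κ ∧ MeasurePreserving (fun y : TC => q • y) κ κ := by
  refine lim_inv hF h𝒰 (σ := Measure.dirac x) (σ' := κ) fun g => ?_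
  refine (h g).congr fun k => ?_
  exact (integral_dirac' _ _ (aveX_cont (p := p) (q := q) (F := F k) g).stronglyMeasurable).symm

lemma det_zero (hF : Folner F) : (0 : TC) ∈ Det p q F := by
  intro 𝒰 h𝒰 κ hκ h
  have h1 : κ = Measure.dirac (0 : TC) := by
    refine ext_of_forall_integral_eq_of_IsFiniteMeasure fun f => ?_
    have h2 := h f.toContinuousMap
    have h3 : ∀ k, ave p q (F k) f.toContinuousMap (0 : TC) = f 0 := by
      intro k
      have h4 := ave_const (p := p) (q := q) hF (f 0) k (0 : TC)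
      unfold ave at h4 ⊢
      simp only [smul_zero] at h4 ⊢
      exact h4
    simp only [h3] at h2
    rw [integral_dirac]
    exact (tendsto_nhds_unique tendsto_const_nhds h2).symm
  rw [h1]
  refine ⟨{0}ᶜ, (measurableSet_singleton _).compl, ?_, ?_⟩
  · rw [Measure.dirac_apply' _ (measurableSet_singleton _).compl]
    simp
  · rw [compl_compl]
    refine measure_mono_null (singleton_subset_iff.2 ?_) Pool.Agent.Zk32.vol_tor
    exact ⟨1, one_pos, smul_zero _⟩

lemma det_neg {x : TC} (hx : x ∈ Det p q F) : -x ∈ Det p q F := by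
  intro 𝒰 h𝒰 κ hκ h
  have hm : Measurable fun y : TC => -y := measurable_neg
  have hp : IsProbabilityMeasure (κ.map fun y => -y) := Measure.isProbabilityMeasure_map hm.aemeasurable
  have h1 := hx 𝒰 h𝒰 (κ.map fun y => -y) hp (fun g => by
    rw [integral_map hm.aemeasurable g.continuous.aestronglyMeasurable]
    refine (h (g.comp ⟨fun y => -y, continuous_neg⟩)).congr fun k => ?_
    unfold ave
    congr 1
    refine Finset.sum_congr rfl fun n _ => ?_
    show g (-((p ^ n.1 * q ^ n.2) • -x)) = _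
    rw [smul_neg, neg_neg])
  obtain ⟨s, hs, hs1, hs2⟩ := h1
  refine ⟨(fun y : TC => -y) ⁻¹' s, hm hs, ?_, ?_⟩
  · rwa [Measure.map_apply hm hs] at hs1
  · rw [← preimage_compl]
    have hv := (Measure.measurePreserving_neg (volume : Measure TC))
    rw [show (fun y : TC => -y) = Neg.neg from rfl, hv.measure_preimage hs.compl.nullMeasurableSet]
    exact hs2

lemma det_add (hp : 2 ≤ p) (hq : 2 ≤ q) (hpq : Nat.Coprime p q) (hF : Folner F) {x y : TC}
    (hx : x ∈ Det p q F) (hy : y ∈ Det p q F) : x + y ∈ Det p q F := by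
  intro 𝒰 h𝒰 κ hκ h
  obtain ⟨Λ, hΛ, hlim⟩ := lim_exists (p := p) (q := q) (X := TC × TC) hF 𝒰 (Measure.dirac (x, y))
  have hlim' : ∀ G : C(TC × TC, ℝ), Tendsto (fun k => aveX p q (F k) G (x, y)) (𝒰 : Filter ℕ)
      (𝓝 (∫ z, G z ∂Λ)) := fun G => (hlim G).congr fun k =>
    integral_dirac' _ _ (aveX_cont (p := p) (q := q) (F := F k) G).stronglyMeasurable
  have key : ∀ (π : C(TC × TC, TC)) (w : TC),
      (∀ n : ℕ, π (n • (x, y)) = n • w) → ∀ g : C(TC, ℝ),
      Tendsto (fun k => ave p q (F k) g w) (𝒰 : Filter ℕ) (𝓝 (∫ z, g z ∂(Λ.map π))) := by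
    intro π w hπ g
    rw [integral_map π.continuous.measurable.aemeasurable g.continuous.aestronglyMeasurable]
    refine (hlim' (g.comp π)).congr fun k => ?_
    unfold aveX ave
    congr 1
    refine Finset.sum_congr rfl fun n _ => ?_
    show g (π ((p ^ n.1 * q ^ n.2) • (x, y))) = _
    rw [hπ]
  have k1 := key ⟨Prod.fst, continuous_fst⟩ x (fun n => rfl)
  have k2 := key ⟨Prod.snd, continuous_snd⟩ y (fun n => rfl)
  have k3 := key ⟨fun z => z.1 + z.2, continuous_fst.add continuous_snd⟩ (x + y)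
    (fun n => (smul_add n x y).symm)
  have m1 : Measurable (Prod.fst : TC × TC → TC) := measurable_fst
  have m2 : Measurable (Prod.snd : TC × TC → TC) := measurable_snd
  have m3 : Measurable fun z : TC × TC => z.1 + z.2 := m1.add m2
  have p1 : IsProbabilityMeasure (Λ.map (Prod.fst : TC × TC → TC)) :=
    Measure.isProbabilityMeasure_map m1.aemeasurable
  have p2 : IsProbabilityMeasure (Λ.map (Prod.snd : TC × TC → TC)) :=
    Measure.isProbabilityMeasure_map m2.aemeasurable
  have p3 : IsProbabilityMeasure (Λ.map fun z : TC × TC => z.1 + z.2) :=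
    Measure.isProbabilityMeasure_map m3.aemeasurable
  have i1 := lim_inv' hF h𝒰 (κ := Λ.map (Prod.fst : TC × TC → TC)) k1
  have i2 := lim_inv' hF h𝒰 (κ := Λ.map (Prod.snd : TC × TC → TC)) k2
  have e : κ = Λ.map fun z : TC × TC => z.1 + z.2 := by
    refine ext_of_forall_integral_eq_of_IsFiniteMeasure fun f => ?_
    exact tendsto_nhds_unique (h f.toContinuousMap) (k3 f.toContinuousMap)
  rw [e]
  exact sum_sing hp hq hpq i1.1 i1.2 (hx 𝒰 h𝒰 _ p1 k1) i2.1 i2.2 (hy 𝒰 h𝒰 _ p2 k2)
    Measure.AbsolutelyContinuous.rfl Measure.AbsolutelyContinuous.rfl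

/-- **The points with only singular limits form a group.** -/
theorem det_group (hp : 2 ≤ p) (hq : 2 ≤ q) (hpq : Nat.Coprime p q) (hF : Folner F) :
    ∃ H : AddSubgroup TC, (H : Set TC) = Det p q F :=
  ⟨{ carrier := Det p q F
     zero_mem' := det_zero hF
     add_mem' := fun hx hy => det_add hp hq hpq hF hx hy
     neg_mem' := fun hx => det_neg hx }, rfl⟩

end Pool.Agent.Zk24.SL
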