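import Pool.Agent.Zk24.SL.Vec

/-!
Sequences driven by rational homotheties and their images under affine functions which are not
rational.
-/

set_option autoImplicit false

open MeasureTheory Filter Topology Set
open scoped ENNReal

namespace Pool.Agent.Zk24.SL

universe u

/-- the property of the avoiding set -/
def Good {d : ℕ} (A : Set T) (l : (Fin d → ℝ) × ℝ) : Prop :=
  ∃ (a : Fin d → ℚ) (b : ℚ), (a, b) ≠ 0 ∧
    ∀ (x y : Fin d → ℝ) (R : ℚ) (v : Fin d → ℚ), R ≠ 0 → (∀ i, y i = R * x i + v i) →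
      ((∑ i, l.1 i * x i + l.2 : ℝ) : T) ∈ A → ((∑ i, l.1 i * y i + l.2 : ℝ) : T) ∈ A →
      ∑ i, (a i : ℝ) * y i + b = R * (∑ i, (a i : ℝ) * x i + b)

theorem good_set {p q : ℕ} (hp : 2 ≤ p) (hq : 2 ≤ q)
    (hirr : Irrational (Real.log p / Real.log q)) {ν : Measure T} [IsProbabilityMeasure ν]
    (hνp : MeasurePreserving (fun x : T => p • x) ν ν)
    (hνq : MeasurePreserving (fun x : T => q • x) ν ν)
    (hsing : ν ⟂ₘ (volume : Measure T)) {d : ℕ} {Φ : Set ((Fin d → ℝ) × ℝ)} (hΦ : Φ.Countable)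
    (hΦr : ∀ l ∈ Φ, ¬ ((∀ i, ∃ a : ℚ, l.1 i = a) ∧ ∃ b : ℚ, l.2 = b)) :
    ∃ A : Set T, MeasurableSet A ∧ ν A = 1 ∧ ∀ l ∈ Φ, Good A l := by
  set Θ : Set ℝ := {θ | Irrational θ} ∩
    ⋃ l ∈ Φ, range (fun w : (Fin d → ℚ) × ℚ => ∑ i, l.1 i * w.1 i + w.2 * l.2) with hΘ
  have hΘc : Θ.Countable := (hΦ.biUnion fun l _ => countable_range _).mono inter_subset_right
  obtain ⟨A, hA, hA1, hA2⟩ := avoid hp hq hirr hνp hνq hsing hΘc (fun θ h => h.1)
  refine ⟨A, hA, (prob_compl_eq_zero_iff hA).1 hA1, fun l hl => ?_⟩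
  obtain ⟨a, b, hab, hψ⟩ := exists_psi (hΦr l hl)
  refine ⟨a, b, hab, fun x y R v hR hy hx hy' => rel hA2 ?_ hψ hR hy hx hy'⟩
  intro v c hi
  exact ⟨hi, mem_biUnion hl ⟨(v, c), rfl⟩⟩

/-- `X` is driven by rational homotheties -/
def Driven {Ω : Type u} [MeasurableSpace Ω] {d : ℕ} (P : Measure Ω) (S : Ω → Ω)
    (X : Ω → Fin d → ℝ) : Prop :=
  Conservative S P ∧ Measurable X ∧
  (∃ (r : Ω → ℚ) (e : Ω → Fin d → ℚ), Measurable r ∧
    (∀ᵐ ω ∂P, r ω ≠ 0 ∧ ∀ i, X (S ω) i = r ω * X ω i + e ω i) ∧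
    ∀ᵐ ω ∂P, Tendsto (fun k : ℕ => |Real.log (∏ j ∈ Finset.range k, (r (S^[j] ω) : ℝ))|)
      atTop atTop) ∧
  ∀ (a : Fin d → ℚ) (b : ℚ), a ≠ 0 → P {ω | ∑ i, (a i : ℝ) * X ω i = b} = 0

theorem driven_null {Ω : Type u} [MeasurableSpace Ω] {d : ℕ} {P : Measure Ω} {S : Ω → Ω}
    {X : Ω → Fin d → ℝ} (h : Driven P S X) {A : Set T} (hA : MeasurableSet A)
    {l : (Fin d → ℝ) × ℝ} (hl : Good A l) :
    P {ω | ((∑ i, l.1 i * X ω i + l.2 : ℝ) : T) ∈ A} = 0 := by
  obtain ⟨hS, hX, ⟨r, e, hr, hre, hlog⟩, hat⟩ := h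
  obtain ⟨a, b, hab, hrel⟩ := hl
  have hXi : ∀ i, Measurable fun ω => X ω i := fun i => (measurable_pi_apply i).comp hX
  have hall : ∀ᵐ ω ∂P, ∀ k : ℕ, (∏ j ∈ Finset.range k, r (S^[j] ω)) ≠ 0 ∧
      ∃ v : Fin d → ℚ, ∀ i, X (S^[k] ω) i =
        ((∏ j ∈ Finset.range k, r (S^[j] ω) : ℚ) : ℝ) * X ω i + v i := by
    have h1 : ∀ᵐ ω ∂P, ∀ k : ℕ, r (S^[k] ω) ≠ 0 ∧
        ∀ i, X (S (S^[k] ω)) i = r (S^[k] ω) * X (S^[k] ω) i + e (S^[k] ω) i :=
      ae_all_iff.2 fun k => (hS.toQuasiMeasurePreserving.iterate k).ae hre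
    filter_upwards [h1] with ω hω k
    induction k with
    | zero => exact ⟨by simp, 0, by simp⟩
    | succ k ih =>
      obtain ⟨ih1, v, ih2⟩ := ih
      obtain ⟨g1, g2⟩ := hω k
      refine ⟨?_, fun i => r (S^[k] ω) * v i + e (S^[k] ω) i, fun i => ?_⟩
      · rw [Finset.prod_range_succ]
        exact mul_ne_zero ih1 g1
      · rw [Function.iterate_succ_apply', g2, ih2, Finset.prod_range_succ]
        push_cast
        ring
  refine cons_null hS (Y := fun ω => ∑ i, (a i : ℝ) * X ω i + b)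
    (R := fun k ω => ((∏ j ∈ Finset.range k, r (S^[j] ω) : ℚ) : ℝ)) ?_ ?_ ?_ ?_ ?_ ?_
  · exact (AddCircle.measurable_mk'.comp
      ((Finset.measurable_sum _ fun i _ => (hXi i).const_mul _).add_const _)) hA
  · exact (Finset.measurable_sum _ fun i _ => (hXi i).const_mul _).add_const _
  · by_cases ha : a = 0
    · have hb : b ≠ 0 := by
        intro hb
        exact hab (by rw [ha, hb]; rfl)
      refine Eventually.of_forall fun ω => ?_
      rw [ha]
      simpa using hb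
    · have h1 := hat a (-b) ha
      have h2 : ∀ᵐ ω ∂P, ω ∉ {ω | ∑ i, (a i : ℝ) * X ω i = ((-b : ℚ) : ℝ)} :=
        measure_eq_zero_iff_ae_notMem.1 h1
      filter_upwards [h2] with ω hω h0
      apply hω
      show ∑ i, (a i : ℝ) * X ω i = ((-b : ℚ) : ℝ)
      push_cast
      linarith
  · intro k
    have h1 : Measurable fun ω => ∏ j ∈ Finset.range k, r (S^[j] ω) :=
      Finset.measurable_prod _ fun j _ => hr.comp (hS.measurable.iterate j)
    exact (measurable_from_top (f := fun x : ℚ => (x : ℝ))).comp h1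
  · filter_upwards [hlog] with ω hω
    refine hω.congr fun k => ?_
    push_cast
    rfl
  · filter_upwards [hall] with ω hω k h1 h2
    obtain ⟨g1, v, g2⟩ := hω k
    exact hrel _ _ _ v g1 g2 h1 h2

theorem driven_ae {Ω : Type u} [MeasurableSpace Ω] {d : ℕ} {P : Measure Ω} {S : Ω → Ω}
    {X : Ω → Fin d → ℝ} (h : Driven P S X) {A : Set T} (hA : MeasurableSet A)
    {Φ : Set ((Fin d → ℝ) × ℝ)} (hΦ : Φ.Countable) (hl : ∀ l ∈ Φ, Good A l) :
    ∀ᵐ ω ∂P, ∀ l ∈ Φ, ((∑ i, l.1 i * X ω i + l.2 : ℝ) : T) ∉ A :=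
  (ae_ball_iff hΦ).2 fun l hl' => measure_eq_zero_iff_ae_notMem.1 (driven_null h hA (hl l hl'))

/-- a common denominator -/
lemma common_den {d : ℕ} (a : Fin d → ℚ) :
    ∃ (N : ℕ) (m : Fin d → ℤ), N ≠ 0 ∧ ∀ i, (N : ℚ) * a i = m i := by
  refine ⟨∏ j, (a j).den, fun i => (a i).num * ∏ j ∈ Finset.univ.erase i, ((a j).den : ℤ),
    Finset.prod_ne_zero_iff.2 fun j _ => (a j).den_ne_zero, fun i => ?_⟩
  rw [← Finset.mul_prod_erase Finset.univ (fun j => (a j).den) (Finset.mem_univ i)]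
  push_cast
  have h := Rat.mul_den_eq_num (a i)
  linear_combination (∏ j ∈ Finset.univ.erase i, ((a j).den : ℚ)) * h

/-- the torus -/
theorem torus_driven {d : ℕ} {n : ℤ} (hn : 2 ≤ |n|) {κ : Measure (Fin d → T)}
    (hκ : Conservative (fun x : Fin d → T => n • x) κ)
    (hat : ∀ m : Fin d → ℤ, m ≠ 0 → ∀ c : T, κ {x | ∑ i, m i • x i = c} = 0) :
    Driven κ (fun x : Fin d → T => n • x) (fun x i => rep (x i)) := by
  have hint : ∀ z : T, ∃ j : ℤ, rep (n • z) - n * rep z = j := by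
    intro z
    have h1 : ((rep (n • z) - n * rep z : ℝ) : T) = 0 := by
      rw [AddCircle.coe_sub, coe_rep, ← zsmul_eq_mul, AddCircle.coe_zsmul, coe_rep, sub_self]
    rw [AddCircle.coe_eq_zero_iff] at h1
    obtain ⟨j, hj⟩ := h1
    exact ⟨j, by rw [← hj, zsmul_eq_mul, mul_one]⟩
  choose J hJ using hint
  have hn0 : n ≠ 0 := by
    rintro rfl
    norm_num at hn
  refine ⟨hκ, ?_, ⟨fun _ => n, fun x i => J (x i), measurable_const, ?_, ?_⟩, ?_⟩
  · exact measurable_pi_lambda _ fun i => rep_meas.comp (measurable_pi_apply i)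
  · refine Eventually.of_forall fun x => ⟨(by exact_mod_cast hn0 : ((n : ℤ) : ℚ) ≠ 0), fun i => ?_⟩
    have := hJ (x i)
    simp only [Pi.smul_apply]
    push_cast
    linarith
  · refine Eventually.of_forall fun x => ?_
    have hlog : 0 < Real.log |(n : ℝ)| := by
      apply Real.log_pos
      have : (2 : ℝ) ≤ |(n : ℝ)| := by exact_mod_cast hn
      linarith
    have e : (fun k : ℕ => |Real.log (∏ j ∈ Finset.range k, (((n : ℤ) : ℚ) : ℝ))|) =
        fun k : ℕ => (k : ℝ) * Real.log |(n : ℝ)| := by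
      funext k
      rw [Finset.prod_const, Finset.card_range, Real.log_pow, abs_mul, Nat.abs_cast]
      push_cast
      rw [← Real.log_abs (n : ℝ), abs_of_pos hlog]
    rw [e]
    exact tendsto_natCast_atTop_atTop.atTop_mul_const hlog
  · intro a b ha
    obtain ⟨N, m, hN, hm⟩ := common_den a
    have hm0 : m ≠ 0 := by
      rintro rfl
      apply ha
      funext i
      have := hm i
      simp only [Pi.zero_apply, Int.cast_zero, mul_eq_zero] at this
      rcases this with h | h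
      · exact absurd (by exact_mod_cast h) hN
      · exact h
    refine measure_mono_null ?_ (hat m hm0 (((N : ℝ) * b : ℝ) : T))
    intro x hx
    have hx' : ∑ i, (a i : ℝ) * rep (x i) = b := hx
    show ∑ i, m i • x i = _
    rw [← hx', Finset.mul_sum]
    have h1 : ∀ i, m i • x i = (((m i : ℝ) * rep (x i) : ℝ) : T) := by
      intro i
      rw [← zsmul_eq_mul, AddCircle.coe_zsmul, coe_rep]
    simp_rw [h1]
    have h2 : ∀ i, (N : ℝ) * ((a i : ℝ) * rep (x i)) = (m i : ℝ) * rep (x i) := by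
      intro i
      have : (N : ℝ) * (a i : ℝ) = m i := by exact_mod_cast hm i
      rw [← mul_assoc, this]
    simp_rw [h2]
    exact (map_sum (QuotientAddGroup.mk' (AddSubgroup.zmultiples (1 : ℝ)))
      (fun i => (m i : ℝ) * rep (x i)) Finset.univ).symm

end Pool.Agent.Zk24.SL
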