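import Pool.Agent.Zk24.SL.Grp
import Pool.Agent.Zk24.SL.Fin
import Pool.Agent.Zk24.SC.AC
import Pool.Agent.Zk24.SC.Final

/-!
Rational linear subspaces of the real line which carry a singular jointly invariant measure.
-/

set_option autoImplicit false

open MeasureTheory Filter Topology Set
open scoped ENNReal

namespace Pool.Agent.Zk24.SL

/-- the real numbers with an integer multiple in the group `H`, modulo one -/
def lin (H : AddSubgroup TC) : Submodule ℚ ℝ where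
  carrier := {X | ∃ n : ℕ, 0 < n ∧ (((n : ℝ) * X : ℝ) : TC) ∈ H}
  zero_mem' := ⟨1, one_pos, by simp⟩
  add_mem' := by
    rintro X Y ⟨n, hn, hX⟩ ⟨m, hm, hY⟩
    refine ⟨n * m, Nat.mul_pos hn hm, ?_⟩
    have e : ((((n * m : ℕ) : ℝ) * (X + Y) : ℝ) : TC) =
        m • (((n : ℝ) * X : ℝ) : TC) + n • (((m : ℝ) * Y : ℝ) : TC) := by
      rw [← AddCircle.coe_nsmul, ← AddCircle.coe_nsmul, ← AddCircle.coe_add]
      congr 1
      rw [nsmul_eq_mul, nsmul_eq_mul]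
      push_cast
      ring
    rw [e]
    exact H.add_mem (H.nsmul_mem hX m) (H.nsmul_mem hY n)
  smul_mem' := by
    rintro a X ⟨n, hn, hX⟩
    refine ⟨n * a.den, Nat.mul_pos hn a.den_pos, ?_⟩
    have e : ((((n * a.den : ℕ) : ℝ) * (a • X) : ℝ) : TC) = a.num • (((n : ℝ) * X : ℝ) : TC) := by
      rw [← AddCircle.coe_zsmul]
      congr 1
      rw [zsmul_eq_mul, Rat.smul_def]
      have h : (a : ℝ) * (a.den : ℝ) = a.num := by exact_mod_cast Rat.mul_den_eq_num a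
      push_cast
      linear_combination ((n : ℝ) * X) * h
    rw [e]
    exact H.zsmul_mem hX a.num

lemma lin_closed {H : AddSubgroup TC}
    (hH : ∃ C : ℕ → Set TC, (∀ k, IsClosed (C k)) ∧ (H : Set TC) = ⋃ k, C k) :
    ∃ F : ℕ → Set ℝ, (∀ k, IsClosed (F k)) ∧ (lin H : Set ℝ) = ⋃ k, F k := by
  obtain ⟨C, hC, hHC⟩ := hH
  refine ⟨fun k => {X : ℝ | ((((Nat.unpair k).1 + 1 : ℕ) : ℝ) * X : ℝ) ∈
    ((fun Y : ℝ => (Y : TC)) ⁻¹' C (Nat.unpair k).2)}, fun k => ?_, ?_⟩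
  · have h1 : Continuous fun Y : ℝ => (Y : TC) := AddCircle.continuous_mk' 1
    exact (hC _).preimage (h1.comp (continuous_const_mul (((Nat.unpair k).1 + 1 : ℕ) : ℝ)))
  · ext X
    constructor
    · rintro ⟨n, hn, hX⟩
      have h1 : (((n : ℝ) * X : ℝ) : TC) ∈ (H : Set TC) := hX
      rw [hHC] at h1
      obtain ⟨k, hk⟩ := mem_iUnion.1 h1
      refine mem_iUnion.2 ⟨Nat.pair (n - 1) k, ?_⟩
      show ((((Nat.unpair (Nat.pair (n - 1) k)).1 + 1 : ℕ) : ℝ) * X : ℝ) ∈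
        ((fun Y : ℝ => (Y : TC)) ⁻¹' C (Nat.unpair (Nat.pair (n - 1) k)).2)
      rw [Nat.unpair_pair]
      have h2 : n - 1 + 1 = n := by omega
      simp only [h2]
      exact hk
    · intro hX
      obtain ⟨k, hk⟩ := mem_iUnion.1 hX
      refine ⟨(Nat.unpair k).1 + 1, Nat.succ_pos _, ?_⟩
      show _ ∈ (H : Set TC)
      rw [hHC]
      exact mem_iUnion.2 ⟨_, hk⟩

lemma lin_one (H : AddSubgroup TC) : (1 : ℝ) ∈ lin H :=
  ⟨1, one_pos, by
    have : (((1 : ℕ) : ℝ) * 1 : ℝ) = 1 := by norm_num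
    rw [this, AddCircle.coe_period]
    exact H.zero_mem⟩

/-- a mean of countably many measures -/
lemma exists_mean {p q : ℕ} {N : Set (Measure TC)} (hN : N.Countable) (hne : N.Nonempty)
    (h : ∀ ν ∈ N, IsProbabilityMeasure ν ∧ MeasurePreserving (fun x : TC => p • x) ν ν ∧
      MeasurePreserving (fun x : TC => q • x) ν ν ∧ ν ⟂ₘ (volume : Measure TC)) :
    ∃ μ : Measure TC, IsProbabilityMeasure μ ∧ MeasurePreserving (fun x : TC => p • x) μ μ ∧
      MeasurePreserving (fun x : TC => q • x) μ μ ∧ μ ⟂ₘ (volume : Measure TC) ∧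
      ∀ ν ∈ N, ν ≪ μ := by
  obtain ⟨f, hf⟩ := hN.exists_eq_range hne
  have hfN : ∀ i, f i ∈ N := fun i => hf ▸ mem_range_self i
  have hc : ∀ i : ℕ, ((2 : ℝ≥0∞)⁻¹ ^ (i + 1)) ≠ 0 := fun i => by simp
  have hmp : ∀ n : ℕ, (∀ i, MeasurePreserving (fun x : TC => n • x) (f i) (f i)) →
      MeasurePreserving (fun x : TC => n • x)
        (Measure.sum fun i : ℕ => ((2 : ℝ≥0∞)⁻¹ ^ (i + 1)) • f i)
        (Measure.sum fun i : ℕ => ((2 : ℝ≥0∞)⁻¹ ^ (i + 1)) • f i) := by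
    intro n hn
    have hm : Measurable fun x : TC => n • x := (continuous_nsmul n).measurable
    refine ⟨hm, ?_⟩
    ext A hA
    rw [Measure.map_apply hm hA, Measure.sum_apply _ (hm hA), Measure.sum_apply _ hA]
    refine tsum_congr fun i => ?_
    rw [Measure.smul_apply, Measure.smul_apply, (hn i).measure_preimage hA.nullMeasurableSet]
  refine ⟨Measure.sum fun i : ℕ => ((2 : ℝ≥0∞)⁻¹ ^ (i + 1)) • f i, ⟨?_⟩,
    hmp p fun i => (h _ (hfN i)).2.1, hmp q fun i => (h _ (hfN i)).2.2.1, ?_, ?_⟩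
  · rw [Measure.sum_apply _ MeasurableSet.univ]
    have h1 : ∀ i : ℕ, (((2 : ℝ≥0∞)⁻¹ ^ (i + 1)) • f i) univ = (2 : ℝ≥0∞)⁻¹ ^ (i + 1) := by
      intro i
      have := (h _ (hfN i)).1
      rw [Measure.smul_apply, measure_univ, smul_eq_mul, mul_one]
    simp_rw [h1]
    rw [ENNReal.tsum_geometric_add_one, ENNReal.one_sub_inv_two, inv_inv]
    exact ENNReal.inv_mul_cancel (by norm_num) (by norm_num)
  · rw [Measure.MutuallySingular.sum_left]
    exact fun i => ((h _ (hfN i)).2.2.2).smul _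
  · intro ν hν
    rw [hf] at hν
    obtain ⟨i, rfl⟩ := hν
    intro A hA
    have h1 : (((2 : ℝ≥0∞)⁻¹ ^ (i + 1)) • f i) A ≤
        (Measure.sum fun i : ℕ => ((2 : ℝ≥0∞)⁻¹ ^ (i + 1)) • f i) A :=
      Measure.le_sum (fun i : ℕ => ((2 : ℝ≥0∞)⁻¹ ^ (i + 1)) • f i) i A
    rw [hA, Measure.smul_apply, smul_eq_mul] at h1
    exact (mul_eq_zero.1 (le_antisymm h1 zero_le)).resolve_left (hc i)

/-- **Rational subspaces of full measure.** -/
theorem exists_lin {p q : ℕ} (hp : 2 ≤ p) (hq : 2 ≤ q) (hpq : Nat.Coprime p q)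
    {N : Set (Measure TC)} (hN : N.Countable)
    (h : ∀ ν ∈ N, IsProbabilityMeasure ν ∧ MeasurePreserving (fun x : TC => p • x) ν ν ∧
      MeasurePreserving (fun x : TC => q • x) ν ν ∧ ν ⟂ₘ (volume : Measure TC))
    {K : Subfield ℝ} (hK : (K : Set ℝ).Countable) :
    ∃ L : Submodule ℚ ℝ, (∃ F : ℕ → Set ℝ, (∀ k, IsClosed (F k)) ∧ (L : Set ℝ) = ⋃ k, F k) ∧
      (1 : ℝ) ∈ L ∧ (∀ ν ∈ N, ∀ᵐ x ∂ν, ∀ X : ℝ, (X : TC) = x → X ∈ L) ∧
      ∀ x ∈ L, x ∈ K → ∃ a : ℚ, x = a := by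
  rcases N.eq_empty_or_nonempty with rfl | hne
  · refine ⟨Submodule.span ℚ {(1 : ℝ)}, ?_, Submodule.mem_span_singleton_self _,
      fun ν hν => hν.elim, ?_⟩
    · have e : (Submodule.span ℚ {(1 : ℝ)} : Set ℝ) = range (fun a : ℚ => (a : ℝ)) := by
        ext x
        constructor
        · intro hx
          obtain ⟨a, ha⟩ := Submodule.mem_span_singleton.1 hx
          exact ⟨a, by rw [← ha, Rat.smul_def, mul_one]⟩
        · rintro ⟨a, rfl⟩
          exact Submodule.mem_span_singleton.2 ⟨a, by rw [Rat.smul_def, mul_one]⟩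
      obtain ⟨g, hg⟩ := exists_surjective_nat ℚ
      refine ⟨fun k => {((g k : ℚ) : ℝ)}, fun k => isClosed_singleton, ?_⟩
      rw [e]
      ext x
      simp only [mem_range, mem_iUnion, mem_singleton_iff]
      constructor
      · rintro ⟨a, rfl⟩
        obtain ⟨k, hk⟩ := hg a
        exact ⟨k, by rw [hk]⟩
      · rintro ⟨k, rfl⟩
        exact ⟨g k, rfl⟩
    · intro x hx _
      obtain ⟨a, ha⟩ := Submodule.mem_span_singleton.1 hx
      exact ⟨a, by rw [← ha, Rat.smul_def, mul_one]⟩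
  obtain ⟨μ, hμ, hμp, hμq, hμs, hac⟩ := exists_mean hN hne h
  set Θ : Set TC := (fun x : ℝ => (x : TC)) '' {x | x ∈ K ∧ Irrational x} with hΘ
  have hΘc : Θ.Countable := (hK.mono fun x hx => hx.1).image _
  have hΘi : ∀ θ ∈ Θ, ¬ IsOfFinAddOrder θ := by
    rintro _ ⟨x, ⟨-, hx⟩, rfl⟩ hfin
    obtain ⟨a, ha⟩ := rat_of_torsion hfin
    exact hx ⟨a, ha.symm⟩
  obtain ⟨H, hH, hH1, hH2⟩ := exists_group hp hq (Pool.Agent.Zk24.SC.irr_of_coprime hp hq hpq)
    hμp hμq (essInj hp hq hpq hμp hμq hμs) hΘc hΘi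
  refine ⟨lin H, lin_closed hH, lin_one H, ?_, ?_⟩
  · intro ν hν
    have h1 : ∀ᵐ x ∂ν, x ∈ H := by
      have h2 := hac ν hν hH1
      rw [← mem_ae_iff] at h2
      exact h2
    filter_upwards [h1] with x hx X hX
    refine ⟨1, one_pos, ?_⟩
    rw [Nat.cast_one, one_mul, hX]
    exact hx
  · rintro x ⟨n, hn, hx⟩ hxK
    by_contra hirr
    have hi : Irrational x := fun ⟨a, ha⟩ => hirr ⟨a, ha.symm⟩
    refine hH2 _ ⟨(n : ℝ) * x, ⟨K.mul_mem (natCast_mem K n) hxK, ?_⟩, rfl⟩ hx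
    exact_mod_cast hi.natCast_mul hn.ne'

lemma meas_of_closed {L : Set ℝ} (h : ∃ F : ℕ → Set ℝ, (∀ k, IsClosed (F k)) ∧ L = ⋃ k, F k) :
    MeasurableSet L := by
  obtain ⟨F, hF, rfl⟩ := h
  exact MeasurableSet.iUnion fun k => (hF k).measurableSet

/-- the relation between two points of an orbit of the rational homotheties, all translates -/
theorem rel_lin {d : ℕ} {K : Subfield ℝ} {L : Submodule ℚ ℝ}
    (hLK : ∀ x ∈ L, x ∈ K → ∃ a : ℚ, x = a) {τ : Fin d → ℝ} (hτK : ∀ i, τ i ∈ K)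
    (hτ : ¬ ∀ i, ∃ a : ℚ, τ i = a) :
    ∃ a : Fin d → ℚ, a ≠ 0 ∧ ∀ t : ℝ, ∃ β : ℚ, ∀ (x y : Fin d → ℝ) (R : ℚ) (v : Fin d → ℚ),
      R ≠ 0 → (∀ i, y i = R * x i + v i) → ∑ i, τ i * x i + t ∈ L → ∑ i, τ i * y i + t ∈ L →
      ∑ i, (a i : ℝ) * y i + β = R * (∑ i, (a i : ℝ) * x i + β) := by
  obtain ⟨a, b, hab, hψ⟩ := exists_psi (l := (τ, 0)) (by
    rintro ⟨h, -⟩
    exact hτ h)
  have hb : b = 0 := by
    have := hψ 0 1 0 (by simp)
    simpa using this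
  have ha : a ≠ 0 := by
    rintro rfl
    exact hab (by rw [hb]; rfl)
  have hψ' : ∀ v : Fin d → ℚ, ∑ i, τ i * v i ∈ L → ∑ i, (a i : ℝ) * v i = 0 := by
    intro v hv
    obtain ⟨w, hw⟩ := hLK _ hv (K.sum_mem fun i _ => K.mul_mem (hτK i) (SubfieldClass.ratCast_mem K (v i)))
    have := hψ v 0 w (by simpa using hw)
    rw [zero_mul, add_zero] at this
    exact_mod_cast this
  refine ⟨a, ha, fun t => ?_⟩
  -- the translation part of a return
  have key : ∀ (x y : Fin d → ℝ) (R : ℚ) (v : Fin d → ℚ), (∀ i, y i = R * x i + v i) →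
      ∑ i, τ i * x i + t ∈ L → ∑ i, τ i * y i + t ∈ L →
      ∑ i, τ i * v i + (1 - (R : ℝ)) * t ∈ L := by
    intro x y R v hy hx hy'
    have h1 : ∑ i, τ i * v i + (1 - (R : ℝ)) * t =
        (∑ i, τ i * y i + t) - R • (∑ i, τ i * x i + t) := by
      have h2 : ∑ i, τ i * y i = (R : ℝ) * ∑ i, τ i * x i + ∑ i, τ i * v i := by
        rw [Finset.mul_sum, ← Finset.sum_add_distrib]
        refine Finset.sum_congr rfl fun i _ => ?_
        rw [hy]
        ring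
      rw [h2, Rat.smul_def]
      ring
    rw [h1]
    exact L.sub_mem hy' (L.smul_mem R hx)
  have fin : ∀ (β : ℝ) (x y : Fin d → ℝ) (R : ℚ) (v : Fin d → ℚ), (∀ i, y i = R * x i + v i) →
      ∑ i, (a i : ℝ) * v i + (1 - (R : ℝ)) * β = 0 →
      ∑ i, (a i : ℝ) * y i + β = R * (∑ i, (a i : ℝ) * x i + β) := by
    intro β x y R v hy h
    have h2 : ∑ i, (a i : ℝ) * y i = (R : ℝ) * ∑ i, (a i : ℝ) * x i + ∑ i, (a i : ℝ) * v i := by
      rw [Finset.mul_sum, ← Finset.sum_add_distrib]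
      refine Finset.sum_congr rfl fun i _ => ?_
      rw [hy]
      ring
    rw [h2]
    linear_combination h
  by_cases hex : ∃ (R : ℚ) (v : Fin d → ℚ), R ≠ 1 ∧ ∑ i, τ i * v i + (1 - (R : ℝ)) * t ∈ L
  · obtain ⟨R₀, v₀, hR₀, h₀⟩ := hex
    have hR₀' : (1 - (R₀ : ℝ)) ≠ 0 := by
      intro h
      apply hR₀
      have : (R₀ : ℝ) = 1 := by linarith
      exact_mod_cast this
    refine ⟨-(∑ i, a i * v₀ i) / (1 - R₀), fun x y R v _ hy hx hy' => ?_⟩
    refine fin _ x y R v hy ?_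
    have h1 := key x y R v hy hx hy'
    have h2 : ∑ i, τ i * (((1 - R₀) * v i - (1 - R) * v₀ i : ℚ) : ℝ) ∈ L := by
      have h3 : ∑ i, τ i * (((1 - R₀) * v i - (1 - R) * v₀ i : ℚ) : ℝ) =
          (1 - R₀) • (∑ i, τ i * v i + (1 - (R : ℝ)) * t) -
            (1 - R) • (∑ i, τ i * v₀ i + (1 - (R₀ : ℝ)) * t) := by
        rw [Rat.smul_def, Rat.smul_def]
        have h4 : ∑ i, τ i * (((1 - R₀) * v i - (1 - R) * v₀ i : ℚ) : ℝ) =
            (1 - (R₀ : ℝ)) * ∑ i, τ i * v i - (1 - (R : ℝ)) * ∑ i, τ i * v₀ i := by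
          rw [Finset.mul_sum, Finset.mul_sum, ← Finset.sum_sub_distrib]
          refine Finset.sum_congr rfl fun i _ => ?_
          push_cast
          ring
        rw [h4]
        push_cast
        ring
      rw [h3]
      exact L.sub_mem (L.smul_mem _ h1) (L.smul_mem _ h₀)
    have h5 := hψ' (fun i => (1 - R₀) * v i - (1 - R) * v₀ i) h2
    have h6 : ∑ i, (a i : ℝ) * (((1 - R₀) * v i - (1 - R) * v₀ i : ℚ) : ℝ) =
        (1 - (R₀ : ℝ)) * ∑ i, (a i : ℝ) * v i - (1 - (R : ℝ)) * ∑ i, (a i : ℝ) * v₀ i := by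
      rw [Finset.mul_sum, Finset.mul_sum, ← Finset.sum_sub_distrib]
      refine Finset.sum_congr rfl fun i _ => ?_
      push_cast
      ring
    rw [h6] at h5
    push_cast
    field_simp
    linarith
  · push Not at hex
    refine ⟨0, fun x y R v _ hy hx hy' => ?_⟩
    refine fin _ x y R v hy ?_
    rw [Rat.cast_zero]
    have h1 := key x y R v hy hx hy'
    have hR1 : R = 1 := by
      by_contra h
      exact hex R v h h1
    subst hR1
    rw [mul_zero, add_zero]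
    refine hψ' v ?_
    simpa using h1

end Pool.Agent.Zk24.SL
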