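import Pool.Agent.Zk24.SL.LinB

/-!
The torus, and the rigidity statement.
-/

set_option autoImplicit false

open MeasureTheory Filter Topology Set
open scoped ENNReal

namespace Pool.Agent.Zk24.SL

universe u

/-- the torus -/
theorem torus_driven' {d : ℕ} {n : ℤ} (hn : 2 ≤ |n|) {κ : Measure (Fin d → T)}
    (hκ : Conservative (fun x : Fin d → T => n • x) κ)
    (hat : ∀ m : Fin d → ℤ, m ≠ 0 → ∀ c : T, IsOfFinAddOrder c → κ {x | ∑ i, m i • x i = c} = 0) :
    Driven κ (fun x : Fin d → T => n • x) (fun x i => rep (x i)) := by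
  have hint : ∀ z : T, ∃ j : ℤ, rep (n • z) - n * rep z = j := by
    intro z
    have h1 : ((rep (n • z) - n * rep z : ℝ) : T) = 0 := by
      rw [AddCircle.coe_sub, coe_rep, ← zsmul_eq_mul, AddCircle.coe_zsmul, coe_rep, sub_self]
    rw [AddCircle.coe_eq_zero_iff] at h1
    obtain ⟨j, hj⟩ := h1
    exact ⟨j, by rw [← hj, zsmul_eq_mul, mul_one]⟩
  choose J hJ using hint
  have hn0 : n ≠ 0 := by
    rintro rfl
    norm_num at hn
  refine ⟨hκ, ?_, ⟨fun _ => n, fun x i => J (x i), measurable_const, ?_, ?_⟩, ?_⟩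
  · exact measurable_pi_lambda _ fun i => rep_meas.comp (measurable_pi_apply i)
  · refine Eventually.of_forall fun x => ⟨(by exact_mod_cast hn0 : ((n : ℤ) : ℚ) ≠ 0), fun i => ?_⟩
    have := hJ (x i)
    simp only [Pi.smul_apply]
    push_cast
    linarith
  · refine Eventually.of_forall fun x => ?_
    have hlog : 0 < Real.log |(n : ℝ)| := by
      apply Real.log_pos
      have : (2 : ℝ) ≤ |(n : ℝ)| := by exact_mod_cast hn
      linarith
    have e : (fun k : ℕ => |Real.log (∏ j ∈ Finset.range k, (((n : ℤ) : ℚ) : ℝ))|) =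
        fun k : ℕ => (k : ℝ) * Real.log |(n : ℝ)| := by
      funext k
      rw [Finset.prod_const, Finset.card_range, Real.log_pow, abs_mul, Nat.abs_cast]
      push_cast
      rw [← Real.log_abs (n : ℝ), abs_of_pos hlog]
    rw [e]
    exact tendsto_natCast_atTop_atTop.atTop_mul_const hlog
  · intro a b ha
    obtain ⟨N, m, hN, hm⟩ := common_den a
    have hm0 : m ≠ 0 := by
      rintro rfl
      apply ha
      funext i
      have := hm i
      simp only [Pi.zero_apply, Int.cast_zero, mul_eq_zero] at this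
      rcases this with h | h
      · exact absurd (by exact_mod_cast h) hN
      · exact h
    have hfin : IsOfFinAddOrder ((((N : ℝ) * b : ℝ)) : T) := by
      refine isOfFinAddOrder_iff_nsmul_eq_zero.2 ⟨b.den, b.den_pos, ?_⟩
      rw [← AddCircle.coe_nsmul, AddCircle.coe_eq_zero_iff]
      refine ⟨N * b.num, ?_⟩
      rw [zsmul_eq_mul, nsmul_eq_mul, mul_one]
      have h : (b : ℝ) * (b.den : ℝ) = b.num := by exact_mod_cast Rat.mul_den_eq_num b
      push_cast
      linear_combination (-(N : ℝ)) * h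
    refine measure_mono_null ?_ (hat m hm0 (((N : ℝ) * b : ℝ) : T) hfin)
    intro x hx
    have hx' : ∑ i, (a i : ℝ) * rep (x i) = b := hx
    show ∑ i, m i • x i = _
    rw [← hx', Finset.mul_sum]
    have h1 : ∀ i, m i • x i = (((m i : ℝ) * rep (x i) : ℝ) : T) := by
      intro i
      rw [← zsmul_eq_mul, AddCircle.coe_zsmul, coe_rep]
    simp_rw [h1]
    have h2 : ∀ i, (N : ℝ) * ((a i : ℝ) * rep (x i)) = (m i : ℝ) * rep (x i) := by
      intro i
      have : (N : ℝ) * (a i : ℝ) = m i := by exact_mod_cast hm i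
      rw [← mul_assoc, this]
    simp_rw [h2]
    exact (map_sum (QuotientAddGroup.mk' (AddSubgroup.zmultiples (1 : ℝ)))
      (fun i => (m i : ℝ) * rep (x i)) Finset.univ).symm

/-- all lifts -/
theorem torus_null {d : ℕ} {n : ℤ} (hn : 2 ≤ |n|) {κ : Measure (Fin d → T)}
    (hκ : Conservative (fun x : Fin d → T => n • x) κ)
    (hat : ∀ m : Fin d → ℤ, m ≠ 0 → ∀ c : T, IsOfFinAddOrder c → κ {x | ∑ i, m i • x i = c} = 0)
    {K : Subfield ℝ} {L : Submodule ℚ ℝ}
    (hL : MeasurableSet (L : Set ℝ)) (hL1 : (1 : ℝ) ∈ L) (hLK : ∀ x ∈ L, x ∈ K → ∃ a : ℚ, x = a)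
    {τ : Fin d → ℝ} (hτK : ∀ i, τ i ∈ K) (t : ℝ)
    (h : (¬ ∀ i, ∃ a : ℚ, τ i = a) ∨ (t ∈ K ∧ ¬ ∃ b : ℚ, t = b)) :
    ∀ᵐ x ∂κ, ∀ X : Fin d → ℝ, (∀ i, ((X i : ℝ) : T) = x i) → ∑ i, τ i * X i + t ∉ L := by
  have hD := torus_driven' hn hκ hat
  have key : ∀ j : Fin d → ℤ, ∀ᵐ x ∂κ, ∑ i, τ i * rep (x i) + (t + ∑ i, τ i * j i) ∉ L := by
    intro j
    refine measure_eq_zero_iff_ae_notMem.1 ?_
    by_cases hτ : ∀ i, ∃ a : ℚ, τ i = a
    · have h2 := h.resolve_left (fun h => h hτ)
      refine driven_rat hD hL hL1 hLK hτ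
        (K.add_mem h2.1 (K.sum_mem fun i _ => K.mul_mem (hτK i) (intCast_mem K (j i)))) ?_
      rintro ⟨b, hb⟩
      choose c hc using hτ
      refine h2.2 ⟨b - ∑ i, c i * j i, ?_⟩
      push_cast
      rw [← hb]
      simp_rw [hc]
      ring
    · exact driven_irr hD hL hLK hτK hτ _
  filter_upwards [ae_all_iff.2 key] with x hx X hX hmem
  have hj : ∀ i, ∃ j : ℤ, X i = rep (x i) + j := by
    intro i
    have h1 : ((X i - rep (x i) : ℝ) : T) = 0 := by
      rw [AddCircle.coe_sub, coe_rep, hX, sub_self]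
    rw [AddCircle.coe_eq_zero_iff] at h1
    obtain ⟨j, hj⟩ := h1
    refine ⟨j, ?_⟩
    rw [zsmul_eq_mul, mul_one] at hj
    linarith
  choose j hj using hj
  apply hx j
  have e : ∑ i, τ i * rep (x i) + (t + ∑ i, τ i * j i) = ∑ i, τ i * X i + t := by
    have h2 : ∑ i, τ i * X i = ∑ i, τ i * rep (x i) + ∑ i, τ i * j i := by
      rw [← Finset.sum_add_distrib]
      refine Finset.sum_congr rfl fun i _ => ?_
      rw [hj i]
      ring
    rw [h2]
    ring
  rw [e]
  exact hmem

/-- from singularity of singular invariant measures to rigidity, any measure -/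
theorem rigid_any {p q : ℕ} (hp : 2 ≤ p) (hq : 2 ≤ q) {η : Measure TC}
    (h : ∀ ν : Measure TC, IsProbabilityMeasure ν →
      MeasurePreserving (fun x : TC => p • x) ν ν → MeasurePreserving (fun x : TC => q • x) ν ν →
      ν ⟂ₘ (volume : Measure TC) → ν ⟂ₘ η)
    {μ : Measure TC} [IsProbabilityMeasure μ]
    (hμp : MeasurePreserving (fun x : TC => p • x) μ μ)
    (hμq : MeasurePreserving (fun x : TC => q • x) μ μ) (hac : μ ≪ η) :
    μ = (volume : Measure TC) := by
  have h1 := Pool.Agent.H847R3.XpXq.sing_inv (by omega : p ≠ 0) hμp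
  have h2 := Pool.Agent.H847R3.XpXq.sing_inv (by omega : q ≠ 0) hμq
  set σ : Measure TC := μ.singularPart volume with hσ
  have hσf : IsFiniteMeasure σ := inferInstance
  have hσle : σ ≤ μ := Measure.singularPart_le _ _
  have hσs : σ ⟂ₘ (volume : Measure TC) := Measure.mutuallySingular_singularPart _ _
  have hσ0 : σ = 0 := by
    by_contra hne
    have hu : σ univ ≠ 0 := by rwa [Ne, Measure.measure_univ_eq_zero]
    have hui : (σ univ)⁻¹ ≠ 0 := ENNReal.inv_ne_zero.2 (measure_ne_top _ _)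
    have hui' : (σ univ)⁻¹ ≠ ∞ := ENNReal.inv_ne_top.2 hu
    have hprob : IsProbabilityMeasure ((σ univ)⁻¹ • σ) :=
      ⟨by rw [Measure.smul_apply, smul_eq_mul]; exact ENNReal.inv_mul_cancel hu (measure_ne_top _ _)⟩
    have h3 := h _ hprob (h1.smul_measure _) (h2.smul_measure _) (hσs.smul _)
    have h4 : σ ⟂ₘ η := by
      obtain ⟨s, hs, hs1, hs2⟩ := h3
      refine ⟨s, hs, ?_, hs2⟩
      rw [Measure.smul_apply, smul_eq_mul] at hs1
      exact (mul_eq_zero.1 hs1).resolve_left hui
    have h5 : σ ≪ η := (Measure.absolutelyContinuous_of_le hσle).trans hac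
    have h6 : σ ⟂ₘ σ := h4.mono_ac Measure.AbsolutelyContinuous.rfl h5
    exact hne (Measure.MutuallySingular.self_iff σ |>.1 h6)
  have hacv : μ ≪ (volume : Measure TC) := by
    have h7 : σ + (volume : Measure TC).withDensity (μ.rnDeriv volume) = μ :=
      Measure.singularPart_add_rnDeriv μ volume
    rw [hσ0, zero_add] at h7
    rw [← h7]
    exact withDensity_absolutelyContinuous _ _
  have herg : Ergodic (fun y : TC => p • y) := AddCircle.ergodic_nsmul (by omega)
  obtain ⟨e, he⟩ := herg.eq_smul_of_absolutelyContinuous hμp hacv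
  have h8 : μ univ = 1 := measure_univ
  rw [he, Measure.smul_apply, smul_eq_mul] at h8
  have h9 : (volume : Measure TC) univ = 1 := by simp
  rw [h9, mul_one] at h8
  rw [he, h8, one_smul]

/-- laws which do not charge the translates of the subspaces dominate no invariant measure but
Lebesgue measure -/
theorem rigid_lin {p q : ℕ} (hp : 2 ≤ p) (hq : 2 ≤ q) (hpq : Nat.Coprime p q)
    {K : Subfield ℝ} (hK : (K : Set ℝ).Countable) {Ω : Type u} [MeasurableSpace Ω] {P : Measure Ω}
    [SFinite P] {W : Ω → ℝ} (hW : Measurable W)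
    (hnull : ∀ L : Submodule ℚ ℝ, MeasurableSet (L : Set ℝ) → (1 : ℝ) ∈ L →
      (∀ x ∈ L, x ∈ K → ∃ a : ℚ, x = a) → ∀ t : ℝ, P {ω | W ω + t ∈ L} = 0)
    {η : Measure TC} [IsProbabilityMeasure η] {μ : Measure TC} [IsProbabilityMeasure μ]
    (hμp : MeasurePreserving (fun x : TC => p • x) μ μ)
    (hμq : MeasurePreserving (fun x : TC => q • x) μ μ)
    (hac : μ ≪ (P.prod η).map fun z : Ω × TC => ((W z.1 : ℝ) : TC) + z.2) :
    μ = (volume : Measure TC) := by
  refine rigid_any hp hq (fun ν hν hνp hνq hsing => ?_) hμp hμq hac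
  obtain ⟨L, hLc, hL1, hLν, hLK⟩ := exists_lin hp hq hpq (N := {ν}) (countable_singleton _)
    (fun σ hσ => by
      rw [mem_singleton_iff] at hσ
      subst hσ
      exact ⟨hν, hνp, hνq, hsing⟩) hK
  have hL := meas_of_closed hLc
  replace hLν := hLν ν rfl
  set A : Set TC := {x | rep x ∈ L} with hA
  have hAm : MeasurableSet A := rep_meas hL
  have hint : ∀ j : ℤ, (j : ℝ) ∈ L := by
    intro j
    have := L.smul_mem (j : ℚ) hL1
    rw [Rat.smul_def, mul_one] at this
    exact_mod_cast this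
  have hcoe : ∀ X : ℝ, (X : TC) ∈ A ↔ X ∈ L := by
    intro X
    have h1 : ((X - rep (X : TC) : ℝ) : TC) = 0 := by
      rw [AddCircle.coe_sub, coe_rep, sub_self]
    rw [AddCircle.coe_eq_zero_iff] at h1
    obtain ⟨j, hj⟩ := h1
    rw [zsmul_eq_mul, mul_one] at hj
    constructor
    · intro h
      have h2 : rep (X : TC) ∈ L := h
      have : X = rep (X : TC) + j := by linarith
      rw [this]
      exact L.add_mem h2 (hint j)
    · intro h
      show rep (X : TC) ∈ L
      have : rep (X : TC) = X - j := by linarith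
      rw [this]
      exact L.sub_mem h (hint j)
  have hmeas : Measurable fun z : Ω × TC => ((W z.1 : ℝ) : TC) + z.2 :=
    (AddCircle.measurable_mk'.comp (hW.comp measurable_fst)).add measurable_snd
  refine ⟨Aᶜ, hAm.compl, ?_, ?_⟩
  · have h1 : ∀ᵐ x ∂ν, x ∈ A := by
      filter_upwards [hLν] with x hx
      exact hx (rep x) (coe_rep x)
    exact mem_ae_iff.1 h1
  · rw [compl_compl, Measure.map_apply hmeas hAm]
    rw [Measure.prod_apply_symm (hmeas hAm)]
    refine (lintegral_congr fun y => ?_).trans lintegral_zero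
    refine measure_mono_null ?_ (hnull L hL hL1 hLK (rep y))
    intro ω hω
    have h1 : ((W ω : ℝ) : TC) + y ∈ A := hω
    rw [← coe_rep y, ← AddCircle.coe_add] at h1
    exact (hcoe _).1 h1

end Pool.Agent.Zk24.SL
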