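import Pool.Agent.Zk24.SL.UnivD
import Pool.Agent.Zk32.Tv6

/-!
One rational subspace of dimension zero which carries all the singular invariant measures.
-/

set_option autoImplicit false

open MeasureTheory Filter Topology Set Metric
open scoped ENNReal NNReal

namespace Pool.Agent.Zk24.SL

open Pool.Agent.Zk32 (cir coe_cir cir_meas sum_gen coef_gen Thick)

universe u v

/-- **The universal subspace.** -/
theorem exists_all {p q : ℕ} (hp : 2 ≤ p) (hq : 2 ≤ q) (hpq : Nat.Coprime p q) {K : Set ℝ}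
    (hK : K.Countable) {ω : ℕ → Measure TC} (hω : ∀ l, IsProbabilityMeasure (ω l))
    (hth : ∀ l, Thick p q (ω l)) :
    ∃ L : Submodule ℚ ℝ, MeasurableSet (L : Set ℝ) ∧ dimH (L : Set ℝ) = 0 ∧ (1 : ℝ) ∈ L ∧
      (∀ x ∈ L, x ∈ K → ∃ a : ℚ, x = a) ∧ (∀ l, ω l (cir L) = 0) ∧
      ∀ ν : Measure TC, IsProbabilityMeasure ν → MeasurePreserving (fun x : TC => p • x) ν ν →
        MeasurePreserving (fun x : TC => q • x) ν ν → ν ⟂ₘ (volume : Measure TC) →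
        ∀ᵐ x ∂ν, ∀ X : ℝ, (X : TC) = x → X ∈ L := by
  obtain ⟨L₁, hL₁m, hL₁1, hL₁K, hL₁⟩ := exists_univ hp hq hpq hK
  have hbot : ((⊥ : Subfield ℝ) : Set ℝ).Countable := by
    refine (countable_range (fun a : ℚ => (a : ℝ))).mono ?_
    intro x hx
    have h1 : (⊥ : Subfield ℝ) ≤ (algebraMap ℚ ℝ).fieldRange := bot_le
    obtain ⟨a, ha⟩ := h1 hx
    exact ⟨a, by rw [← ha]; rfl⟩
  obtain ⟨L₂, hL₂m, hL₂1, -, hL₂ω, hL₂⟩ := Pool.Agent.Zk32.exists_univT hp hq hpq hbot hω hth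
  obtain ⟨L, hLL, hLm, hLd, hL1, hLν⟩ := univ_dim hp hq hpq (L₁ := L₁ ⊓ L₂)
    (by rw [Submodule.coe_inf]; exact hL₁m.inter hL₂m) ⟨hL₁1, hL₂1⟩ (by
      intro ν hν hνp hνq hs
      filter_upwards [hL₁ ν hν hνp hνq hs, hL₂ ν hν hνp hνq hs] with x h1 h2 X hX
      exact ⟨h1 X hX, h2 X hX⟩)
  refine ⟨L, hLm, hLd, hL1, fun x hx hxK => hL₁K x (hLL hx).1 hxK, fun l => ?_, hLν⟩
  refine measure_mono_null ?_ (hL₂ω l)
  rintro w ⟨T, hT, hTL⟩
  exact ⟨T, hT, (hLL hTL).2⟩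

/-- **The universal subspace and the laws of sums.** -/
theorem univ_law {p q : ℕ} (hp : 2 ≤ p) (hq : 2 ≤ q) (hpq : Nat.Coprime p q)
    {Ω : Type u} [MeasurableSpace Ω] {P : Measure Ω} [IsProbabilityMeasure P]
    {φ : Ω → ℝ} (hφ : Measurable φ)
    {Ω' : Type v} [MeasurableSpace Ω'] {Q : Measure Ω'} [IsProbabilityMeasure Q] {r : ℕ}
    {y : Fin r → Ω' → TC} (hy : ∀ j, Measurable (y j))
    {w : Ω' → TC} (hw : Measurable w) (c : Fin r → ℤ)
    (halt : (∃ θ : ℝ, Irrational θ ∧ ∀ L : Submodule ℚ ℝ, MeasurableSet (L : Set ℝ) →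
      (1 : ℝ) ∈ L → θ ∉ L → ∀ t : ℝ, P {ω | φ ω + t ∈ L} = 0) ∨
      ((∀ L : Submodule ℚ ℝ, MeasurableSet (L : Set ℝ) → (1 : ℝ) ∈ L →
        ∀ t : ℝ, t ∉ L → P {ω | φ ω + t ∈ L} = 0) ∧ Thick p q (Q.map w) ∧
        ∀ j, MeasurePreserving (fun x : TC => p • x) (Q.map (y j)) (Q.map (y j)) ∧
          MeasurePreserving (fun x : TC => q • x) (Q.map (y j)) (Q.map (y j)) ∧
          Q.map (y j) ⟂ₘ (volume : Measure TC))) :
    ∃ L : Submodule ℚ ℝ, MeasurableSet (L : Set ℝ) ∧ dimH (L : Set ℝ) = 0 ∧ (1 : ℝ) ∈ L ∧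
      (P.prod Q) {z : Ω × Ω' | ((φ z.1 : ℝ) : TC) + ∑ j, c j • y j z.2 + w z.2 ∈ cir L} = 0 ∧
      ∀ ν : Measure TC, IsProbabilityMeasure ν → MeasurePreserving (fun x : TC => p • x) ν ν →
        MeasurePreserving (fun x : TC => q • x) ν ν → ν ⟂ₘ (volume : Measure TC) →
        ∀ᵐ x ∂ν, ∀ X : ℝ, (X : TC) = x → X ∈ L := by
  rcases halt with ⟨θ, hθ, hφL⟩ | ⟨hφL, hth, hyS⟩
  · obtain ⟨L₁, hL₁m, hL₁1, hL₁K, hL₁⟩ := exists_univ hp hq hpq (countable_singleton θ)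
    obtain ⟨L, hLL, hL, hLd, hL1, hLν⟩ := univ_dim hp hq hpq hL₁m hL₁1 hL₁
    refine ⟨L, hL, hLd, hL1, ?_, hLν⟩
    have hiL : θ ∉ L := by
      intro hc
      obtain ⟨a, ha⟩ := hL₁K _ (hLL hc) rfl
      exact hθ ⟨a, ha.symm⟩
    have hw' : Measurable fun o : Ω' => ∑ j, c j • y j o + w o := by
      have h3 : Measurable fun o : Ω' => ∑ j, c j • y j o :=
        Finset.measurable_sum _ fun j _ => (continuous_zsmul (c j)).measurable.comp (hy j)
      exact h3.add hw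
    refine measure_mono_null (fun z hz => ?_) (coef_gen hφ hL hL1 (hφL L hL hL1 hiL) (Q := Q) hw')
    show ((φ z.1 : ℝ) : TC) + (∑ j, c j • y j z.2 + w z.2) ∈ cir L
    rw [← add_assoc]
    exact hz
  · have hprob : IsProbabilityMeasure (Q.map w) := Measure.isProbabilityMeasure_map hw.aemeasurable
    obtain ⟨L, hL, hLd, hL1, -, hLω, hLν⟩ := exists_all hp hq hpq (K := ∅) countable_empty
      (ω := fun _ => Q.map w) (fun _ => hprob) (fun _ => hth)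
    have hAm := cir_meas hL1 hL
    refine ⟨L, hL, hLd, hL1, ?_, hLν⟩
    have h1 := sum_gen hφ hL hL1 (hφL L hL hL1) (Q := Q) hy (fun j => ?_) hw MeasurableSet.univ ?_ c
    · refine measure_mono_null (fun z hz => ?_) h1
      exact ⟨mem_univ _, hz⟩
    · have hyp : IsProbabilityMeasure (Q.map (y j)) :=
        Measure.isProbabilityMeasure_map (hy j).aemeasurable
      have h3 : ∀ᵐ x ∂(Q.map (y j)), x ∈ cir L := by
        filter_upwards [hLν _ hyp (hyS j).1 (hyS j).2.1 (hyS j).2.2] with x hx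
        exact ⟨rep x, coe_rep x, hx (rep x) (coe_rep x)⟩
      exact ae_of_ae_map (hy j).aemeasurable h3
    · have h2 := hLω 0
      rw [Measure.map_apply hw hAm] at h2
      refine measure_mono_null (fun o ho => ?_) h2
      exact ho.2

end Pool.Agent.Zk24.SL
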