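import Mathlib
import Pool.Agent.H847R3.XpXqF

/-!
Sets of full measure for a jointly invariant measure which avoid affine relations with integer
coefficients and irrational constants; a recurrence lemma.
-/

set_option autoImplicit false

open MeasureTheory Filter Topology Set
open scoped ENNReal

namespace Pool.Agent.Zk24.SL

abbrev T := UnitAddCircle

/-- the representative in `[0,1)` -/
noncomputable def rep (x : T) : ℝ := (AddCircle.measurableEquivIco 1 0 x : ℝ)

lemma rep_meas : Measurable rep :=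
  measurable_subtype_coe.comp (AddCircle.measurableEquivIco 1 0).measurable

lemma coe_rep (x : T) : ((rep x : ℝ) : T) = x := (AddCircle.equivIco 1 0).left_inv x

/-- a solution of `b y = z` -/
noncomputable def sec (b : ℤ) (z : T) : T := ((rep z / b : ℝ) : T)

lemma sec_meas (b : ℤ) : Measurable (sec b) :=
  AddCircle.measurable_mk'.comp (rep_meas.div_const _)

lemma sec_spec {b : ℤ} (hb : b ≠ 0) (z : T) : b • sec b z = z := by
  unfold sec
  have hb' : (b : ℝ) ≠ 0 := by exact_mod_cast hb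
  rw [← AddCircle.coe_zsmul, zsmul_eq_mul, mul_div_cancel₀ _ hb', coe_rep]

lemma rat_of_torsion {v : ℝ} (h : IsOfFinAddOrder (v : T)) : ∃ a : ℚ, v = a := by
  obtain ⟨n, hn, h1⟩ := isOfFinAddOrder_iff_nsmul_eq_zero.1 h
  rw [← AddCircle.coe_nsmul, AddCircle.coe_eq_zero_iff] at h1
  obtain ⟨k, hk⟩ := h1
  refine ⟨(k : ℚ) / n, ?_⟩
  have hn' : (n : ℝ) ≠ 0 := by exact_mod_cast hn.ne'
  rw [zsmul_eq_mul, mul_one, nsmul_eq_mul] at hk
  push_cast
  rw [hk, mul_div_cancel_left₀ _ hn']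

/-- a set of full measure which avoids countably many irrational relations -/
theorem avoid {p q : ℕ} (hp : 2 ≤ p) (hq : 2 ≤ q)
    (hirr : Irrational (Real.log p / Real.log q)) {ν : Measure T} [IsProbabilityMeasure ν]
    (hνp : MeasurePreserving (fun x : T => p • x) ν ν)
    (hνq : MeasurePreserving (fun x : T => q • x) ν ν)
    (hsing : ν ⟂ₘ (volume : Measure T)) {Θ : Set ℝ} (hΘ : Θ.Countable)
    (hΘi : ∀ θ ∈ Θ, Irrational θ) :
    ∃ A : Set T, MeasurableSet A ∧ ν Aᶜ = 0 ∧ ∀ a b : ℤ, a ≠ 0 → b ≠ 0 → ∀ θ ∈ Θ,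
      ∀ x ∈ A, ∀ y ∈ A, b • y ≠ a • x + (θ : T) := by
  have hcount : Countable Θ := hΘ.to_subtype
  set f : (ℤ × ℤ × Θ × ℤ) → T → T := fun i x =>
    sec i.2.1 (i.1 • x + ((i.2.2.1 : ℝ) : T)) + (((i.2.2.2 : ℝ) / i.2.1 : ℝ) : T) with hf
  have hfm : ∀ i, Measurable (f i) := fun i =>
    ((sec_meas _).comp ((measurable_const_smul i.1).add_const _)).add_const _
  have hex : ∀ i : ℤ × ℤ × Θ × ℤ, ∃ A : Set T, MeasurableSet A ∧ ν Aᶜ = 0 ∧
      (i.1 ≠ 0 → i.2.1 ≠ 0 → ∀ x ∈ A, f i x ∉ A) := by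
    intro i
    by_cases h1 : i.1 = 0
    · exact ⟨univ, MeasurableSet.univ, by simp, fun h => absurd h1 h⟩
    by_cases h2 : i.2.1 = 0
    · exact ⟨univ, MeasurableSet.univ, by simp, fun _ h => absurd h2 h⟩
    have hrel : ∀ x, i.2.1 • f i x - i.1 • x = ((i.2.2.1 : ℝ) : T) := by
      intro x
      rw [hf]
      simp only [smul_add]
      rw [sec_spec h2, ← AddCircle.coe_zsmul, zsmul_eq_mul,
        mul_div_cancel₀ _ (by exact_mod_cast h2 : (i.2.1 : ℝ) ≠ 0)]
      have h3 : (((i.2.2.2 : ℤ) : ℝ) : T) = 0 := by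
        rw [AddCircle.coe_eq_zero_iff]
        exact ⟨i.2.2.2, by rw [zsmul_eq_mul, mul_one]⟩
      rw [h3, add_zero]
      abel
    have hms : ν.map (f i) ⟂ₘ ν := by
      refine Pool.Agent.H847R3.XpXq.maps hp hq hirr hνp hνq hνp hνq (Or.inl hsing)
        (C := {((i.2.2.1 : ℝ), fun _ => 1)}) (countable_singleton _) ?_ (hfm i) ?_
      · rintro c hc
        rw [mem_singleton_iff] at hc
        subst hc
        exact ⟨hΘi _ i.2.2.1.2, fun k => ⟨0, 0, by simp⟩⟩
      · refine Eventually.of_forall fun x => ⟨i.1, i.2.1, h1, h2, _, mem_singleton _, ?_⟩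
        simp only [one_smul]
        rw [hrel]
        exact tendsto_const_nhds
    obtain ⟨S, hS, hS1, hS2⟩ := hms
    refine ⟨S ∩ f i ⁻¹' Sᶜ, hS.inter (hfm i hS.compl), ?_, ?_⟩
    · rw [compl_inter]
      refine measure_union_null hS2 ?_
      rw [Measure.map_apply (hfm i) hS] at hS1
      rw [← preimage_compl, compl_compl]
      exact hS1
    · rintro _ _ x hx hfx
      exact hx.2 hfx.1
  choose A hA hA1 hA2 using hex
  refine ⟨⋂ i, A i, MeasurableSet.iInter hA, ?_, ?_⟩
  · rw [compl_iInter]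
    exact measure_iUnion_null hA1
  · intro a b ha hb θ hθ x hx y hy hxy
    set u : T := y - sec b (a • x + (θ : T)) with hu
    have hbu : b • u = 0 := by
      rw [hu, smul_sub, sec_spec hb, hxy, sub_self]
    obtain ⟨r, hr⟩ : ∃ r : ℝ, (r : T) = u := QuotientAddGroup.mk_surjective u
    rw [← hr, ← AddCircle.coe_zsmul, AddCircle.coe_eq_zero_iff] at hbu
    obtain ⟨j, hj⟩ := hbu
    rw [zsmul_eq_mul, mul_one, zsmul_eq_mul] at hj
    have hb' : (b : ℝ) ≠ 0 := by exact_mod_cast hb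
    have hrj : r = (j : ℝ) / b := by rw [hj]; field_simp
    have hfx : f (a, b, ⟨θ, hθ⟩, j) x = y := by
      rw [hf]
      simp only
      rw [← hrj, hr, hu]
      abel
    have h1 := hA2 (a, b, ⟨θ, hθ⟩, j) ha hb x (mem_iInter.1 hx _)
    rw [hfx] at h1
    exact h1 (mem_iInter.1 hy _)

/-- a set whose returns after long times have small probability is null -/
theorem recur {Ω : Type*} [MeasurableSpace Ω] {P : Measure Ω} [IsProbabilityMeasure P]
    {S : Ω → Ω} (hS : MeasurePreserving S P P) {E : Set Ω} (hE : MeasurableSet E)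
    (h : Tendsto (fun k => P.real (E ∩ S^[k] ⁻¹' E)) atTop (𝓝 0)) : P E = 0 := by
  by_contra hne
  set c : ℝ := P.real E with hc
  have hc0 : 0 < c := ENNReal.toReal_pos hne (measure_ne_top _ _)
  obtain ⟨n, hn⟩ := exists_nat_gt (2 / c)
  have hn2 : 2 < n * c := by rwa [div_lt_iff₀ hc0] at hn
  have hn0 : (0 : ℝ) < n := lt_trans (by positivity) hn
  set δ : ℝ := 1 / (n : ℝ) ^ 2 with hδ
  have hδ0 : 0 < δ := by positivity
  obtain ⟨M0, hM0⟩ := eventually_atTop.1 (h.eventually (gt_mem_nhds hδ0))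
  set M : ℕ := M0 + 1 with hM
  have hsm : ∀ k, 1 ≤ k → P.real (E ∩ S^[k * M] ⁻¹' E) ≤ δ := by
    intro k hk
    refine (hM0 (k * M) ?_).le
    have : 1 * M ≤ k * M := Nat.mul_le_mul_right _ hk
    omega
  have hmeas : ∀ j, MeasurableSet (S^[j * M] ⁻¹' E) := fun j =>
    (hS.measurable.iterate (j * M)) hE
  have hpair : ∀ i j, i < j → P.real (S^[i * M] ⁻¹' E ∩ S^[j * M] ⁻¹' E) ≤ δ := by
    intro i j hij
    have e : S^[i * M] ⁻¹' E ∩ S^[j * M] ⁻¹' E =
        S^[i * M] ⁻¹' (E ∩ S^[(j - i) * M] ⁻¹' E) := by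
      rw [preimage_inter]
      congr 1
      rw [← preimage_comp, ← Function.iterate_add]
      congr 2
      rw [← Nat.add_mul]
      congr 1
      omega
    rw [e, measureReal_def, (hS.iterate (i * M)).measure_preimage
      (hE.inter ((hS.measurable.iterate _) hE)).nullMeasurableSet]
    exact hsm (j - i) (by omega)
  have key : ∀ m : ℕ, (m : ℝ) * c - m * m * δ ≤
      P.real (⋃ j ∈ Finset.range m, S^[j * M] ⁻¹' E) := by
    intro m
    induction m with
    | zero => simp
    | succ m ih =>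
      have e : (⋃ j ∈ Finset.range (m + 1), S^[j * M] ⁻¹' E) =
          (⋃ j ∈ Finset.range m, S^[j * M] ⁻¹' E) ∪ S^[m * M] ⁻¹' E := by
        rw [Finset.range_add_one, Finset.set_biUnion_insert, union_comm]
      have h1 := measureReal_union_add_inter (μ := P)
        (s := ⋃ j ∈ Finset.range m, S^[j * M] ⁻¹' E) (hmeas m)
        (measure_ne_top _ _) (measure_ne_top _ _)
      have h2 : P.real ((⋃ j ∈ Finset.range m, S^[j * M] ⁻¹' E) ∩ S^[m * M] ⁻¹' E) ≤ m * δ := by
        have e2 : (⋃ j ∈ Finset.range m, S^[j * M] ⁻¹' E) ∩ S^[m * M] ⁻¹' E =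
            ⋃ j ∈ Finset.range m, (S^[j * M] ⁻¹' E ∩ S^[m * M] ⁻¹' E) := by
          rw [iUnion₂_inter]
        rw [e2]
        refine (measureReal_biUnion_finset_le _ _).trans ?_
        refine (Finset.sum_le_card_nsmul _ _ δ fun j hj =>
          hpair j m (Finset.mem_range.1 hj)).trans ?_
        rw [Finset.card_range, nsmul_eq_mul]
      have h3 : P.real (S^[m * M] ⁻¹' E) = c := by
        rw [measureReal_def, (hS.iterate (m * M)).measure_preimage hE.nullMeasurableSet]
        rfl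
      rw [e]
      push_cast
      nlinarith
  have h1 := key n
  have h2 : P.real (⋃ j ∈ Finset.range n, S^[j * M] ⁻¹' E) ≤ 1 := measureReal_le_one
  have h3 : (n : ℝ) * n * δ = 1 := by
    rw [hδ]; field_simp
  linarith

end Pool.Agent.Zk24.SL
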