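import Pool.Agent.Zk24.SL.DimDet

/-!
The long boxes form a Folner sequence with Tempelman's condition.
-/

set_option autoImplicit false

open MeasureTheory Filter Topology Set Metric

namespace Pool.Agent.Zk24.SL

open Pool.Agent.Zk32 (Folner Temp)

lemma bx_card (k : ℕ) : ((bx k).card : ℝ) = ((k : ℝ) + 1) ^ 2 * ((k : ℝ) + 1) := by
  rw [bx, Finset.card_product, Finset.card_range, Finset.card_range]
  push_cast
  ring

theorem box_folner : Folner bx := by
  refine ⟨fun k => ?_, ?_, ?_⟩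
  · exact ⟨(0, 0), by simp [bx]⟩
  · have h1m : Tendsto (fun m : ℕ => 1 / ((m : ℝ) + 1)) atTop (𝓝 0) :=
      tendsto_one_div_add_atTop_nhds_zero_nat
    refine squeeze_zero (fun k => by positivity) (fun k => ?_) h1m
    have hsub : ((bx k).filter fun n => (n.1 + 1, n.2) ∉ bx k) ⊆
        ({(k + 1) ^ 2 - 1} : Finset ℕ) ×ˢ Finset.range (k + 1) := by
      intro n hn
      rw [Finset.mem_filter] at hn
      obtain ⟨h1, h2⟩ := hn
      simp only [bx, Finset.mem_product, Finset.mem_range, Finset.mem_singleton, not_and] at h1 h2 ⊢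
      refine ⟨?_, h1.2⟩
      by_contra h3
      exact h2 (by omega) h1.2
    have hc := Finset.card_le_card hsub
    rw [Finset.card_product, Finset.card_singleton, Finset.card_range, one_mul] at hc
    have hc' : ((((bx k).filter fun n => (n.1 + 1, n.2) ∉ bx k).card : ℕ) : ℝ) ≤ (k : ℝ) + 1 := by
      exact_mod_cast hc
    rw [bx_card]
    have hk : (0 : ℝ) ≤ k := Nat.cast_nonneg k
    rw [div_le_div_iff₀ (by positivity) (by positivity), one_mul]
    nlinarith [mul_nonneg hk hk, mul_nonneg (mul_nonneg hk hk) hk,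
      mul_le_mul_of_nonneg_right hc' (show (0 : ℝ) ≤ (k : ℝ) + 1 by positivity)]
  · have h1m : Tendsto (fun m : ℕ => 1 / ((m : ℝ) + 1)) atTop (𝓝 0) :=
      tendsto_one_div_add_atTop_nhds_zero_nat
    refine squeeze_zero (fun k => by positivity) (fun k => ?_) h1m
    have hsub : ((bx k).filter fun n => (n.1, n.2 + 1) ∉ bx k) ⊆
        Finset.range ((k + 1) ^ 2) ×ˢ ({k} : Finset ℕ) := by
      intro n hn
      rw [Finset.mem_filter] at hn
      obtain ⟨h1, h2⟩ := hn
      simp only [bx, Finset.mem_product, Finset.mem_range, Finset.mem_singleton, not_and] at h1 h2 ⊢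
      refine ⟨h1.1, ?_⟩
      have := h2 h1.1
      omega
    have hc := Finset.card_le_card hsub
    rw [Finset.card_product, Finset.card_singleton, Finset.card_range, mul_one] at hc
    have hc' : ((((bx k).filter fun n => (n.1, n.2 + 1) ∉ bx k).card : ℕ) : ℝ) ≤
        ((k : ℝ) + 1) ^ 2 := by
      exact_mod_cast hc
    rw [bx_card]
    have hk : (0 : ℝ) ≤ k := Nat.cast_nonneg k
    rw [div_le_div_iff₀ (by positivity) (by positivity), one_mul]
    exact mul_le_mul_of_nonneg_right hc' (show (0 : ℝ) ≤ (k : ℝ) + 1 by positivity)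

theorem box_temp : Temp 4 bx := by
  intro n
  refine ⟨Finset.Ioo (-((n : ℤ) + 1) ^ 2) (((n : ℤ) + 1) ^ 2) ×ˢ
    Finset.Ioo (-((n : ℤ) + 1)) ((n : ℤ) + 1), ?_, ?_⟩
  · have e1 : (Finset.Ioo (-((n : ℤ) + 1) ^ 2) (((n : ℤ) + 1) ^ 2)).card ≤ 2 * (n + 1) ^ 2 := by
      rw [Int.card_Ioo]
      have : ((n : ℤ) + 1) ^ 2 - -((n : ℤ) + 1) ^ 2 - 1 ≤ ((2 * (n + 1) ^ 2 : ℕ) : ℤ) := by
        push_cast
        linarith
      omega
    have e2 : (Finset.Ioo (-((n : ℤ) + 1)) ((n : ℤ) + 1)).card ≤ 2 * (n + 1) := by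
      rw [Int.card_Ioo]
      omega
    rw [Finset.card_product, bx_card]
    have h := Nat.mul_le_mul e1 e2
    have h' : (((Finset.Ioo (-((n : ℤ) + 1) ^ 2) (((n : ℤ) + 1) ^ 2)).card *
        (Finset.Ioo (-((n : ℤ) + 1)) ((n : ℤ) + 1)).card : ℕ) : ℝ) ≤
        ((2 * (n + 1) ^ 2 * (2 * (n + 1)) : ℕ) : ℝ) := by exact_mod_cast h
    refine h'.trans (le_of_eq ?_)
    push_cast
    ring
  · intro k hk a ha b hb
    simp only [bx, Finset.mem_product, Finset.mem_range] at ha hb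
    have h1 : (k + 1) ^ 2 ≤ (n + 1) ^ 2 := Nat.pow_le_pow_left (by omega) 2
    rw [Finset.mem_product, Finset.mem_Ioo, Finset.mem_Ioo]
    have h2 : ((n : ℤ) + 1) ^ 2 = (((n + 1) ^ 2 : ℕ) : ℤ) := by push_cast; ring
    dsimp only
    rw [h2]
    have ha1 : a.1 < (n + 1) ^ 2 := ha.1
    have hb1 : b.1 < (n + 1) ^ 2 := hb.1.trans_le h1
    refine ⟨⟨?_, ?_⟩, ?_, ?_⟩ <;> omega

end Pool.Agent.Zk24.SL
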