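import Pool.Agent.Zk24.SL.DetG
import Pool.Agent.Zk24.SL.Gen2
import Pool.Agent.Zk32.Tu7
import Pool.Agent.Zk32.Tu4
import Pool.Agent.Zk32.Tu1
import Pool.Agent.Zk85.Tu2

/-!
One rational subspace which carries all the singular invariant measures.
-/

set_option autoImplicit false

open MeasureTheory Filter Topology Set
open scoped ENNReal

namespace Pool.Agent.Zk24.SL

open Pool.Agent.Zk32 (Folner ave Det Tor)

/-- **The universal subspace.** -/
theorem exists_univ {p q : ℕ} (hp : 2 ≤ p) (hq : 2 ≤ q) (hpq : Nat.Coprime p q) {K : Set ℝ}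
    (hK : K.Countable) :
    ∃ L : Submodule ℚ ℝ, MeasurableSet (L : Set ℝ) ∧ (1 : ℝ) ∈ L ∧
      (∀ x ∈ L, x ∈ K → ∃ a : ℚ, x = a) ∧
      ∀ ν : Measure TC, IsProbabilityMeasure ν → MeasurePreserving (fun x : TC => p • x) ν ν →
        MeasurePreserving (fun x : TC => q • x) ν ν → ν ⟂ₘ (volume : Measure TC) →
        ∀ᵐ x ∂ν, ∀ X : ℝ, (X : TC) = x → X ∈ L := by
  have hirr : Irrational (Real.log p / Real.log q) := Pool.Agent.Zk24.SC.irr_of_coprime hp hq hpq
  set I : Set ℝ := {x | x ∈ K ∧ Irrational x} ∪ {√2} with hI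
  have hIc : I.Countable := (hK.mono fun x hx => hx.1).union (countable_singleton _)
  obtain ⟨f, hf⟩ := hIc.exists_eq_range ⟨√2, Or.inr rfl⟩
  have hfi : ∀ k, Irrational (f k) := by
    intro k
    have h1 : f k ∈ I := hf ▸ mem_range_self k
    rcases h1 with h1 | h1
    · exact h1.2
    · rw [mem_singleton_iff.1 h1]
      exact irrational_sqrt_two
  -- the multiples
  set θ : ℕ → TC := fun l => ((((Nat.unpair l).2 + 1 : ℕ) : ℝ) * f (Nat.unpair l).1 : ℝ) with hθd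
  have hθ : ∀ l, θ l ∉ Tor := by
    rintro l ⟨n, hn, h⟩
    have h1 : IsOfFinAddOrder (θ l) := isOfFinAddOrder_iff_nsmul_eq_zero.2 ⟨n, hn, h⟩
    obtain ⟨a, ha⟩ := rat_of_torsion h1
    have h2 : Irrational ((((Nat.unpair l).2 + 1 : ℕ) : ℝ) * f (Nat.unpair l).1) :=
      (hfi _).natCast_mul (Nat.succ_ne_zero _)
    exact h2 ⟨a, ha.symm⟩
  obtain ⟨F, hF, hT, hS⟩ := Pool.Agent.Zk32.exists_strips hp hq hirr hθ
  have hne : ∀ k, (F k).Nonempty := hF.1
  obtain ⟨H, hH⟩ := det_group hp hq hpq hF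
  have hHm : MeasurableSet (H : Set TC) := by
    rw [hH]
    exact Pool.Agent.Zk32.det_meas hne
  refine ⟨lin H, ?_, lin_one H, ?_, ?_⟩
  · have e : (lin H : Set ℝ) = ⋃ k : ℕ, {X : ℝ | ((((k + 1 : ℕ) : ℝ) * X : ℝ) : TC) ∈ (H : Set TC)} := by
      ext X
      simp only [mem_iUnion, mem_setOf_eq]
      constructor
      · rintro ⟨n, hn, hX⟩
        refine ⟨n - 1, ?_⟩
        rw [Nat.sub_add_cancel hn]
        exact hX
      · rintro ⟨k, hX⟩
        exact ⟨k + 1, Nat.succ_pos _, hX⟩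
    rw [e]
    refine MeasurableSet.iUnion fun k => ?_
    have h1 : Continuous fun Y : ℝ => (Y : TC) := AddCircle.continuous_mk' 1
    exact (h1.comp (continuous_const_mul (((k + 1 : ℕ) : ℝ)))).measurable hHm
  · rintro x ⟨n, hn, hX⟩ hxK
    by_contra hne'
    have hi : Irrational x := fun ⟨a, ha⟩ => hne' ⟨a, ha.symm⟩
    have hxI : x ∈ range f := hf ▸ (Or.inl ⟨hxK, hi⟩ : x ∈ I)
    obtain ⟨k, rfl⟩ := hxI
    have h1 : θ (Nat.pair k (n - 1)) ∈ Det p q F := by
      rw [← hH, hθd]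
      simp only [Nat.unpair_pair]
      rw [Nat.sub_add_cancel hn]
      exact hX
    exact Pool.Agent.Zk32.det_notMem hne hS _ h1
  · intro ν hν hνp hνq hs
    have h1 := Pool.Agent.Zk32.det_ae hne hνp hνq hs fun g =>
      Pool.Agent.Zk85.Tu.ae_conv hνp hνq hF (C := 54) (by norm_num)
        (fun f hf hf0 hfi l hl => Pool.Agent.Zk32.maximal hνp hνq hne (by norm_num) hT hf hf0 hfi hl) g
    rw [← hH] at h1
    filter_upwards [h1] with x hx X hX
    refine ⟨1, one_pos, ?_⟩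
    rw [Nat.cast_one, one_mul, hX]
    exact hx

end Pool.Agent.Zk24.SL
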