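import Pool.Agent.Zk24.SL.CovK
import Pool.Agent.H847R3.XpXqD

/-!
A group of full measure for a singular jointly invariant measure which avoids prescribed points of
infinite order.
-/

set_option autoImplicit false

open MeasureTheory Filter Topology Set
open scoped ENNReal

namespace Pool.Agent.Zk24.SL

abbrev TC := UnitAddCircle

/-- sums of `k` elements of `V` -/
def sm (V : Set TC) : ℕ → Set TC
  | 0 => {0}
  | k + 1 => {x | ∃ y ∈ sm V k, ∃ u ∈ V, x = y + u}

lemma sm_succ_subset {V : Set TC} (h0 : (0 : TC) ∈ V) (k : ℕ) : sm V k ⊆ sm V (k + 1) :=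
  fun x hx => ⟨x, hx, 0, h0, (add_zero x).symm⟩

lemma sm_mono {V : Set TC} (h0 : (0 : TC) ∈ V) {k l : ℕ} (h : k ≤ l) : sm V k ⊆ sm V l := by
  induction h with
  | refl => exact Subset.rfl
  | step _ ih => exact ih.trans (sm_succ_subset h0 _)

lemma sm_add {V : Set TC} {k l : ℕ} {x y : TC} (hx : x ∈ sm V k) (hy : y ∈ sm V l) :
    x + y ∈ sm V (k + l) := by
  induction l generalizing y with
  | zero =>
    have : y = 0 := hy
    rw [this]
    simpa using hx
  | succ l ih =>
    obtain ⟨z, hz, u, hu, rfl⟩ := hy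
    exact ⟨x + z, ih hz, u, hu, (add_assoc _ _ _).symm⟩

lemma sm_neg {V : Set TC} (hV : ∀ u ∈ V, -u ∈ V) {k : ℕ} {x : TC} (hx : x ∈ sm V k) :
    -x ∈ sm V k := by
  induction k generalizing x with
  | zero =>
    have : x = 0 := hx
    rw [this, neg_zero]
    rfl
  | succ k ih =>
    obtain ⟨z, hz, u, hu, rfl⟩ := hx
    exact ⟨-z, ih hz, -u, hV u hu, by abel⟩

lemma sm_compact {V : Set TC} (hV : IsCompact V) (k : ℕ) : IsCompact (sm V k) := by
  induction k with
  | zero => exact isCompact_singleton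
  | succ k ih =>
    have e : sm V (k + 1) = (fun z : TC × TC => z.1 + z.2) '' (sm V k ×ˢ V) := by
      ext x
      constructor
      · rintro ⟨y, hy, u, hu, rfl⟩
        exact ⟨(y, u), ⟨hy, hu⟩, rfl⟩
      · rintro ⟨⟨y, u⟩, ⟨hy, hu⟩, rfl⟩
        exact ⟨y, hy, u, hu, rfl⟩
    rw [e]
    exact (ih.prod hV).image continuous_add

open Classical in
lemma sm_cover {V : Set TC} {C : Finset TC} {r : ℝ}
    (hV : V ⊆ ⋃ c ∈ C, Metric.closedBall c r) (k : ℕ) :
    ∃ C' : Finset TC, C'.card ≤ C.card ^ k ∧ sm V k ⊆ ⋃ c ∈ C', Metric.closedBall c (k * r) := by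
  induction k with
  | zero =>
    refine ⟨{0}, by simp, ?_⟩
    intro x hx
    have : x = 0 := hx
    simp [this]
  | succ k ih =>
    obtain ⟨C', hC', h⟩ := ih
    refine ⟨(C' ×ˢ C).image fun z => z.1 + z.2, ?_, ?_⟩
    · refine Finset.card_image_le.trans ?_
      rw [Finset.card_product, pow_succ]
      exact Nat.mul_le_mul_right _ hC'
    · rintro x ⟨y, hy, u, hu, rfl⟩
      obtain ⟨c, hc, hyc⟩ := mem_iUnion₂.1 (h hy)
      obtain ⟨c', hc', huc⟩ := mem_iUnion₂.1 (hV hu)
      refine mem_iUnion₂.2 ⟨c + c', Finset.mem_image.2 ⟨(c, c'), Finset.mem_product.2 ⟨hc, hc'⟩, rfl⟩,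
        ?_⟩
      rw [Metric.mem_closedBall, dist_eq_norm] at *
      have e : y + u - (c + c') = (y - c) + (u - c') := by abel
      rw [e]
      refine (norm_add_le _ _).trans ?_
      push_cast
      linarith

lemma sm_miss {V : Set TC} {C : Finset TC} {r : ℝ} (hr : 0 ≤ r)
    (hV : V ⊆ ⋃ c ∈ C, Metric.closedBall c r) (k : ℕ)
    (hs : (C.card : ℝ) ^ k * (2 * (k * r)) < 1) :
    ∃ O : Set TC, IsOpen O ∧ O.Nonempty ∧ Disjoint O (sm V k) := by
  obtain ⟨C', hC', h⟩ := sm_cover hV k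
  set W : Set TC := ⋃ c ∈ C', Metric.closedBall c (k * r) with hW
  have hWc : IsClosed W := by
    rw [hW]
    exact C'.finite_toSet.isClosed_biUnion fun c _ => Metric.isClosed_closedBall
  have hvol : (volume : Measure TC) W < 1 := by
    calc (volume : Measure TC) W ≤ ∑ c ∈ C', (volume : Measure TC) (Metric.closedBall c (k * r)) :=
          measure_biUnion_finset_le _ _
      _ ≤ ∑ c ∈ C', ENNReal.ofReal (2 * (k * r)) := by
          refine Finset.sum_le_sum fun c _ => ?_
          rw [AddCircle.volume_closedBall]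
          exact ENNReal.ofReal_le_ofReal (min_le_right _ _)
      _ = ENNReal.ofReal (C'.card * (2 * (k * r))) := by
          rw [Finset.sum_const, nsmul_eq_mul,
            ENNReal.ofReal_mul (p := (C'.card : ℝ)) (by positivity), ENNReal.ofReal_natCast]
      _ ≤ ENNReal.ofReal ((C.card : ℝ) ^ k * (2 * (k * r))) := by
          refine ENNReal.ofReal_le_ofReal ?_
          have : (C'.card : ℝ) ≤ (C.card : ℝ) ^ k := by exact_mod_cast hC'
          gcongr
      _ < 1 := by
          rw [ENNReal.ofReal_lt_one]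
          exact hs
  refine ⟨Wᶜ, hWc.isOpen_compl, ?_, ?_⟩
  · by_contra hne
    rw [not_nonempty_iff_eq_empty, compl_empty_iff] at hne
    rw [hne] at hvol
    simp at hvol
  · exact disjoint_left.2 fun x hx hx' => hx (h hx')

/-- the symmetric set of a finite union of arcs -/
def sy (V : Set TC) : Set TC := V ∪ (fun x => -x) ⁻¹' V ∪ {0}

lemma sy_zero (V : Set TC) : (0 : TC) ∈ sy V := Or.inr rfl

lemma sy_neg {V : Set TC} : ∀ u ∈ sy V, -u ∈ sy V := by
  rintro u ((hu | hu) | hu)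
  · refine Or.inl (Or.inr ?_)
    show -(-u) ∈ V
    rwa [neg_neg]
  · exact Or.inl (Or.inl hu)
  · have : u = 0 := hu
    rw [this, neg_zero]
    exact sy_zero V

lemma sub_sy (V : Set TC) : V ⊆ sy V := fun _ hx => Or.inl (Or.inl hx)

lemma sy_compact {V : Set TC} (hV : IsCompact V) : IsCompact (sy V) := by
  refine (hV.union ?_).union isCompact_singleton
  exact (hV.isClosed.preimage continuous_neg).isCompact

open Classical in
lemma sy_cover {K : ℕ} (cen : Fin K → TC) {ρ : ℝ} (hρ : 0 ≤ ρ) :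
    ∃ C : Finset TC, C.card ≤ 2 * K + 1 ∧
      sy (Pool.Agent.H706R2.Ren.U cen ρ) ⊆ ⋃ c ∈ C, Metric.closedBall c ρ := by
  refine ⟨Finset.univ.image cen ∪ Finset.univ.image (fun a => -cen a) ∪ {0}, ?_, ?_⟩
  · refine (Finset.card_union_le _ _).trans ?_
    have h1 := Finset.card_union_le (Finset.univ.image cen) (Finset.univ.image (fun a => -cen a))
    have h2 : (Finset.univ.image cen).card ≤ K := by
      simpa using Finset.card_image_le (s := Finset.univ) (f := cen)
    have h3 : (Finset.univ.image (fun a => -cen a)).card ≤ K := by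
      simpa using Finset.card_image_le (s := Finset.univ) (f := fun a => -cen a)
    rw [Finset.card_singleton]
    omega
  · rintro x ((hx | hx) | hx)
    · obtain ⟨a, ha⟩ := mem_iUnion.1 hx
      exact mem_iUnion₂.2 ⟨cen a, by simp, ha⟩
    · obtain ⟨a, ha⟩ := mem_iUnion.1 hx
      refine mem_iUnion₂.2 ⟨-cen a, by simp, ?_⟩
      rw [Metric.mem_closedBall, dist_eq_norm] at ha ⊢
      have e : x - -cen a = -(-x - cen a) := by abel
      rw [e, norm_neg]
      exact ha
    · have : x = 0 := hx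
      refine mem_iUnion₂.2 ⟨0, by simp, ?_⟩
      rw [this]
      exact Metric.mem_closedBall_self hρ

/-- one stage of the construction -/
theorem stage {p q : ℕ} (hp : 2 ≤ p) (hq : 2 ≤ q)
    (hirr : Irrational (Real.log p / Real.log q)) {ν : Measure TC} [IsProbabilityMeasure ν]
    (hνp : MeasurePreserving (fun x : TC => p • x) ν ν)
    (hE : Pool.Agent.W764.FB.EssInj p ν) {κ : ℝ} (hκ : 0 < κ) (k : ℕ) :
    ∃ V : Set TC, IsCompact V ∧ ν.real Vᶜ ≤ κ ∧ ∀ θ : TC, ¬ IsOfFinAddOrder θ →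
      ∃ i j : ℕ, (p ^ i * q ^ j) • θ ∉ sm (sy V) k := by
  obtain ⟨K, cen, ρ, hK, hρ, hρK, hU⟩ := coveringK hp ν hνp hE hκ
    (c := 1 / (3 ^ k * (2 * k + 1) * 2)) (by positivity) k
  refine ⟨Pool.Agent.H706R2.Ren.U cen ρ, ?_, hU, ?_⟩
  · exact isCompact_iUnion fun a => isCompact_closedBall _ _
  · intro θ hθ
    obtain ⟨C, hC, hcov⟩ := sy_cover cen hρ.le
    have hKR : (1 : ℝ) ≤ K := by exact_mod_cast hK
    have hCR : (C.card : ℝ) ≤ 3 * K := by
      have : (C.card : ℝ) ≤ 2 * K + 1 := by exact_mod_cast hC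
      linarith
    obtain ⟨O, hO, hOne, hdis⟩ := sm_miss hρ.le hcov k (by
      calc (C.card : ℝ) ^ k * (2 * (k * ρ)) ≤ (3 * K) ^ k * (2 * (k * ρ)) := by gcongr
        _ = (ρ * (K : ℝ) ^ k) * (3 ^ k * (2 * k)) := by rw [mul_pow]; ring
        _ ≤ (1 / (3 ^ k * (2 * k + 1) * 2)) * (3 ^ k * (2 * k)) := by gcongr
        _ < 1 := by
            rw [one_div_mul_eq_div, div_lt_one (by positivity)]
            have h3 : (0 : ℝ) < 3 ^ k := by positivity
            have h4 : (0 : ℝ) ≤ k := Nat.cast_nonneg k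
            nlinarith)
    obtain ⟨w, hw, hwO⟩ := (Pool.Agent.H847R3.XpXq.dense_orbit hp hq hirr hθ).exists_mem_open hO hOne
    obtain ⟨i, j, rfl⟩ := hw
    exact ⟨i, j, fun h => disjoint_left.1 hdis hwO h⟩

/-- **A group of full measure which avoids countably many points of infinite order.** -/
theorem exists_group {p q : ℕ} (hp : 2 ≤ p) (hq : 2 ≤ q)
    (hirr : Irrational (Real.log p / Real.log q)) {ν : Measure TC} [IsProbabilityMeasure ν]
    (hνp : MeasurePreserving (fun x : TC => p • x) ν ν)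
    (hνq : MeasurePreserving (fun x : TC => q • x) ν ν)
    (hE : Pool.Agent.W764.FB.EssInj p ν) {Θ : Set TC} (hΘ : Θ.Countable)
    (hΘi : ∀ θ ∈ Θ, ¬ IsOfFinAddOrder θ) :
    ∃ H : AddSubgroup TC, (∃ C : ℕ → Set TC, (∀ k, IsClosed (C k)) ∧ (H : Set TC) = ⋃ k, C k) ∧
      ν (H : Set TC)ᶜ = 0 ∧ ∀ θ ∈ Θ, θ ∉ H := by
  rcases Θ.eq_empty_or_nonempty with rfl | hne
  · exact ⟨⊤, ⟨fun _ => univ, fun _ => isClosed_univ, by rw [iUnion_const]; rfl⟩, by simp,
      fun θ h => h.elim⟩
  obtain ⟨f, hf⟩ := hΘ.exists_eq_range hne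
  have hfi : ∀ n, ¬ IsOfFinAddOrder (f n) := fun n => hΘi _ (hf ▸ mem_range_self n)
  have hex : ∀ j : ℕ, ∃ (V : Set TC) (a b : ℕ), IsCompact V ∧ ν.real Vᶜ ≤ (1 / 2 : ℝ) ^ j ∧
      (p ^ a * q ^ b) • f (Nat.unpair j).1 ∉ sm (sy V) j := by
    intro j
    obtain ⟨V, hV, hV1, hV2⟩ := stage hp hq hirr hνp hE (κ := (1 / 2 : ℝ) ^ j) (by positivity) j
    obtain ⟨a, b, hab⟩ := hV2 _ (hfi (Nat.unpair j).1)
    exact ⟨V, a, b, hV, hV1, hab⟩
  choose V a b hVc hVm hVt using hex
  set m : ℕ → ℕ := fun j => p ^ a j * q ^ b j with hm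
  have hmp : ∀ j, MeasurePreserving (fun x : TC => m j • x) ν ν := by
    intro j
    have h1 := (Pool.Agent.H706R2.Ren.mp_pow p ν hνp (a j)).comp
      (Pool.Agent.H706R2.Ren.mp_pow q ν hνq (b j))
    have e : (fun x : TC => m j • x) = (fun x : TC => p ^ a j • x) ∘ fun x => q ^ b j • x := by
      funext x
      show (p ^ a j * q ^ b j) • x = p ^ a j • (q ^ b j • x)
      rw [mul_smul]
    rw [e]
    exact h1
  let H : AddSubgroup TC :=
    { carrier := {x | ∃ k : ℕ, ∀ j, k ≤ j → m j • x ∈ sm (sy (V j)) k}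
      zero_mem' := ⟨0, fun j _ => by
        show m j • (0 : TC) = 0
        rw [smul_zero]⟩
      add_mem' := by
        rintro x y ⟨k, hk⟩ ⟨l, hl⟩
        refine ⟨k + l, fun j hj => ?_⟩
        rw [smul_add]
        exact sm_add (hk j (by omega)) (hl j (by omega))
      neg_mem' := by
        rintro x ⟨k, hk⟩
        refine ⟨k, fun j hj => ?_⟩
        rw [smul_neg]
        exact sm_neg sy_neg (hk j hj) }
  have hHc : (H : Set TC) = ⋃ k : ℕ, ⋂ j : ℕ, ⋂ (_ : k ≤ j),
      (fun x : TC => m j • x) ⁻¹' sm (sy (V j)) k := by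
    ext x
    simp only [mem_iUnion, mem_iInter, mem_preimage]
    rfl
  refine ⟨H, ?_, ?_, ?_⟩
  · refine ⟨_, fun k => ?_, hHc⟩
    refine isClosed_iInter fun j => isClosed_iInter fun _ => ?_
    exact (sm_compact (sy_compact (hVc j)) k).isClosed.preimage (continuous_nsmul (m j))
  · have hsum : ∑' j, ν ((fun x : TC => m j • x) ⁻¹' (V j)ᶜ) ≠ ∞ := by
      have h1 : ∀ j, ν ((fun x : TC => m j • x) ⁻¹' (V j)ᶜ) ≤ ENNReal.ofReal ((1 / 2 : ℝ) ^ j) := by
        intro j
        rw [(hmp j).measure_preimage (hVc j).measurableSet.compl.nullMeasurableSet]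
        rw [← ofReal_measureReal (measure_ne_top _ _)]
        exact ENNReal.ofReal_le_ofReal (hVm j)
      refine ne_top_of_le_ne_top ?_ (ENNReal.tsum_le_tsum h1)
      rw [← ENNReal.ofReal_tsum_of_nonneg (fun j => by positivity)
        (summable_geometric_of_lt_one (by norm_num) (by norm_num))]
      exact ENNReal.ofReal_ne_top
    have hae := ae_eventually_notMem hsum
    rw [← mem_ae_iff]
    filter_upwards [hae] with x hx
    obtain ⟨k, hk⟩ := eventually_atTop.1 hx
    refine ⟨k + 1, fun j hj => ?_⟩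
    have h1 := hk j (by omega)
    rw [preimage_compl, notMem_compl_iff] at h1
    exact sm_mono (sy_zero _) (by omega : 1 ≤ k + 1) ⟨0, rfl, _, sub_sy _ h1, (zero_add _).symm⟩
  · rintro θ hθ ⟨k, hk⟩
    rw [hf] at hθ
    obtain ⟨n, rfl⟩ := hθ
    have hj : k ≤ Nat.pair n k := Nat.right_le_pair n k
    have h1 := hk (Nat.pair n k) hj
    have h2 := hVt (Nat.pair n k)
    rw [Nat.unpair_pair] at h2
    exact h2 (sm_mono (sy_zero _) hj h1)

/-- a singular jointly invariant measure lives on a set on which `x ↦ p x` is injective -/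
theorem essInj {p q : ℕ} (hp : 2 ≤ p) (hq : 2 ≤ q) (hpq : Nat.Coprime p q) {ν : Measure TC}
    [IsProbabilityMeasure ν] (hνp : MeasurePreserving (fun x : TC => p • x) ν ν)
    (hνq : MeasurePreserving (fun x : TC => q • x) ν ν) (hsing : ν ⟂ₘ (volume : Measure TC)) :
    Pool.Agent.W764.FB.EssInj p ν := by
  obtain ⟨D, hDm, -, -, hD, B, hBm, hB0, hB⟩ :=
    Pool.Agent.W764.SH.decomp hp hq hpq ν hνp hνq
  have hD0 : ν D = 0 := by
    obtain ⟨s, hs, hs1, hs2⟩ := hsing
    have h1 : ν.restrict D s = 0 := le_antisymm ((Measure.restrict_le_self s).trans hs1.le) zero_le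
    rw [hD, Measure.smul_apply, smul_eq_mul] at h1
    rcases mul_eq_zero.1 h1 with h | h
    · exact h
    · exfalso
      have h3 : (volume : Measure TC) univ ≤ (volume : Measure TC) s + (volume : Measure TC) sᶜ := by
        rw [← union_compl_self s]
        exact measure_union_le _ _
      rw [h, hs2] at h3
      simp at h3
  refine ⟨B, hBm, ?_, hB⟩
  refine measure_mono_null ?_ (measure_union_null hD0 hB0)
  intro x hx
  by_cases h : x ∈ D
  · exact Or.inl h
  · exact Or.inr ⟨h, hx⟩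

end Pool.Agent.Zk24.SL
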