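import Pool.Agent.Zk24.SL.DimL
import Pool.Agent.Zk43.CovB
import Pool.Agent.Zk41.CovSing
import Pool.Agent.Zk24.SL.Univ

/-!
The points with singular limits along long boxes form a set of dimension zero.
-/

set_option autoImplicit false

open MeasureTheory Filter Topology Set Metric
open scoped ENNReal NNReal

namespace Pool.Agent.Zk24.SL

open Pool.Agent.Zk32 (Folner ave Det Tor)
open Pool.Agent.Zk43 (Cov cov_box)
open Pool.Agent.Zk41 (cov_sing)

/-- the boxes -/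
def bx (k : ℕ) : Finset (ℕ × ℕ) := Finset.range ((k + 1) ^ 2) ×ˢ Finset.range (k + 1)

/-- the sum over the boxes is finite -/
lemma box_summ {p q l K n C : ℕ} (hp : 2 ≤ p) (hq : 2 ≤ q) {s : ℝ} (hs : 0 < s) (hl : 1 ≤ l)
    (hC : (2 : ℝ) ^ (8 / s) ≤ C) (hCl : C ≤ p ^ l) (hK : 1 ≤ K) (hKn : K ^ n ≤ p ^ l)
    (hn : 8 / s ≤ n) (hn1 : 1 ≤ n) {η : ℝ} (hη : 0 < η) (hηs : 8 * η ≤ s) (hη1 : η ≤ 1) :
    Summable fun N : ℕ => (((N * l * (2 * (p ^ l * q ^ N)) * ((K + 1) ^ (N ^ 2 / l) *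
      (2 * p ^ l) ^ (⌈η * (N : ℝ) ^ 2 / l⌉₊)) : ℕ)) : ℝ) *
      (((1 / ((p ^ l : ℕ) : ℝ)) ^ (N ^ 2 / l)) ^ s) := by
  set m : ℝ := ((p ^ l : ℕ) : ℝ) with hm
  have hmp : m = (p : ℝ) ^ l := by rw [hm]; push_cast; rfl
  have hpR : (2 : ℝ) ≤ p := by exact_mod_cast hp
  have hm2 : (2 : ℝ) ≤ m := by
    rw [hmp]
    calc (2 : ℝ) ≤ p := hpR
      _ = (p : ℝ) ^ 1 := (pow_one _).symm
      _ ≤ (p : ℝ) ^ l := by gcongr <;> linarith
  have hm0 : 0 < m := by linarith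
  have hm1 : 1 ≤ m := by linarith
  have hlR : (1 : ℝ) ≤ l := by exact_mod_cast hl
  -- the factor
  have h2m : (2 : ℝ) ≤ m ^ (s / 8) := by
    have h1 : (2 : ℝ) ^ (8 / s) ≤ m := hC.trans (by rw [hm]; exact_mod_cast hCl)
    calc (2 : ℝ) = ((2 : ℝ) ^ (8 / s)) ^ (s / 8) := by
          rw [← Real.rpow_mul (by norm_num)]
          have : 8 / s * (s / 8) = 1 := by field_simp
          rw [this, Real.rpow_one]
      _ ≤ m ^ (s / 8) := Real.rpow_le_rpow (by positivity) h1 (by positivity)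
  have hKm : (K : ℝ) ≤ m ^ (s / 8) := by
    have h1 : (K : ℝ) ^ (n : ℝ) ≤ m := by
      rw [Real.rpow_natCast, hm]
      exact_mod_cast hKn
    have hn0 : (0 : ℝ) < n := by exact_mod_cast hn1
    calc (K : ℝ) = ((K : ℝ) ^ (n : ℝ)) ^ (1 / (n : ℝ)) := by
          rw [← Real.rpow_mul (by positivity), mul_one_div, div_self hn0.ne', Real.rpow_one]
      _ ≤ m ^ (1 / (n : ℝ)) := Real.rpow_le_rpow (by positivity) h1 (by positivity)
      _ ≤ m ^ (s / 8) := by
          refine Real.rpow_le_rpow_of_exponent_le hm1 ?_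
          rw [div_le_div_iff₀ hn0 (by norm_num)]
          rw [div_le_iff₀ hs] at hn
          linarith
  have hK1 : (K : ℝ) + 1 ≤ m ^ (s / 4) := by
    have h1 : (1 : ℝ) ≤ K := by exact_mod_cast hK
    have h2 : m ^ (s / 4) = m ^ (s / 8) * m ^ (s / 8) := by
      rw [← Real.rpow_add hm0]
      congr 1
      ring
    rw [h2]
    have h3 : (0 : ℝ) ≤ m ^ (s / 8) := by positivity
    nlinarith
  set x : ℝ := (p : ℝ) ^ (-(s / 4)) with hx
  have hx0 : 0 ≤ x := by positivity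
  have hx1 : x < 1 := by
    rw [hx]
    exact Real.rpow_lt_one_of_one_lt_of_neg (by linarith) (by linarith)
  have hq1 : (1 : ℝ) ≤ q := by exact_mod_cast (by omega : 1 ≤ q)
  refine Summable.of_nonneg_of_le (fun N => by positivity) (fun N => ?_)
    ((summ hq1 hx0 hx1).mul_left (2 * l * m * m ^ (4 : ℕ) * m ^ s))
  set T : ℕ := N ^ 2 / l with hT
  set b : ℕ := ⌈η * (N : ℝ) ^ 2 / l⌉₊ with hb
  have hTl : ((N : ℝ) ^ 2) / l ≤ T + 1 := by
    rw [div_le_iff₀ (by linarith)]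
    have h1 : N ^ 2 < (N ^ 2 / l + 1) * l := by
      have := Nat.lt_div_mul_add (a := N ^ 2) (b := l) (by omega)
      calc N ^ 2 < N ^ 2 / l * l + l := this
        _ = (N ^ 2 / l + 1) * l := by ring
    have h2 : ((N ^ 2 : ℕ) : ℝ) ≤ (((N ^ 2 / l + 1) * l : ℕ) : ℝ) := by exact_mod_cast h1.le
    push_cast at h2
    rw [hT]
    exact h2
  have hbT : (b : ℝ) ≤ η * (T + 1) + 1 := by
    have h1 : (b : ℝ) < η * (N : ℝ) ^ 2 / l + 1 := Nat.ceil_lt_add_one (by positivity)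
    have h2 : η * (N : ℝ) ^ 2 / l = η * ((N : ℝ) ^ 2 / l) := by ring
    rw [h2] at h1
    nlinarith
  push_cast
  have hc1 : ((K : ℝ) + 1) ^ T ≤ m ^ (s / 4 * T) := by
    calc ((K : ℝ) + 1) ^ T ≤ (m ^ (s / 4)) ^ T := by gcongr
      _ = m ^ (s / 4 * T) := by rw [Real.rpow_mul hm0.le, Real.rpow_natCast]
  have hc2 : (2 * (p : ℝ) ^ l) ^ b ≤ m ^ (s / 4 * T) * m ^ (4 : ℕ) := by
    rw [← hmp]
    calc (2 * m) ^ b ≤ (m * m) ^ b := by gcongr
      _ = m ^ (2 * (b : ℝ)) := by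
          rw [← Real.rpow_natCast, Real.mul_rpow hm0.le hm0.le, ← Real.rpow_add hm0]
          congr 1
          ring
      _ ≤ m ^ (s / 4 * T + 4) := by
          refine Real.rpow_le_rpow_of_exponent_le hm1 ?_
          have hT0 : (0 : ℝ) ≤ T := Nat.cast_nonneg _
          nlinarith
      _ = m ^ (s / 4 * T) * m ^ (4 : ℕ) := by
          rw [Real.rpow_add hm0]
          congr 1
          exact_mod_cast Real.rpow_natCast m 4
  have hc3 : ((1 / m) ^ T) ^ s = m ^ (-(s * T)) := by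
    rw [one_div, inv_pow, ← Real.rpow_natCast, ← Real.rpow_neg hm0.le,
      ← Real.rpow_mul hm0.le]
    congr 1
    ring
  have hc4 : m ^ (s / 4 * T) * m ^ (s / 4 * T) * m ^ (-(s * T)) ≤ m ^ s * x ^ (N ^ 2) := by
    rw [← Real.rpow_add hm0, ← Real.rpow_add hm0]
    have h1 : x ^ (N ^ 2) = m ^ (-(s / 4) * ((N : ℝ) ^ 2 / l)) := by
      rw [hx, hmp, ← Real.rpow_natCast, ← Real.rpow_natCast (p : ℝ) l,
        ← Real.rpow_mul (by positivity), ← Real.rpow_mul (by positivity)]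
      congr 1
      push_cast
      field_simp
    rw [h1, ← Real.rpow_add hm0]
    refine Real.rpow_le_rpow_of_exponent_le hm1 ?_
    have hT0 : (0 : ℝ) ≤ T := Nat.cast_nonneg _
    nlinarith
  rw [hc3]
  calc (N : ℝ) * l * (2 * ((p : ℝ) ^ l * (q : ℝ) ^ N)) * (((K : ℝ) + 1) ^ T *
        (2 * (p : ℝ) ^ l) ^ b) * m ^ (-(s * T))
      ≤ (N : ℝ) * l * (2 * (m * (q : ℝ) ^ N)) * (m ^ (s / 4 * T) *
        (m ^ (s / 4 * T) * m ^ (4 : ℕ))) * m ^ (-(s * T)) := by
        rw [← hmp] at hc2 ⊢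
        gcongr
    _ = (2 * l * m * m ^ (4 : ℕ)) * ((N : ℝ) * (q : ℝ) ^ N) *
        (m ^ (s / 4 * T) * m ^ (s / 4 * T) * m ^ (-(s * T))) := by ring
    _ ≤ (2 * l * m * m ^ (4 : ℕ)) * ((N : ℝ) * (q : ℝ) ^ N) * (m ^ s * x ^ (N ^ 2)) := by
        gcongr
    _ = 2 * l * m * m ^ (4 : ℕ) * m ^ s * ((N : ℝ) * (q : ℝ) ^ N * x ^ (N ^ 2)) := by ring

/-- **The points with singular limits along the boxes form a set of dimension zero.** -/
theorem dim_det {p q : ℕ} (hp : 2 ≤ p) (hq : 2 ≤ q) (hpq : Nat.Coprime p q)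
    (hF : Folner bx) : dimH (Det p q bx) = 0 := by
  classical
  have key : ∀ s : ℝ≥0, 0 < s → dimH (Det p q bx) ≤ s := by
    intro s hs
    have hsR : (0 : ℝ) < s := hs
    set η : ℝ := min (s / 8) 1 with hη
    have hη0 : 0 < η := lt_min (by positivity) one_pos
    have hηs : 8 * η ≤ s := by
      have := min_le_left ((s : ℝ) / 8) 1
      linarith
    have hη1 : η ≤ 1 := min_le_right _ _
    set n : ℕ := ⌈8 / (s : ℝ)⌉₊ + 1 with hn
    have hns : 8 / (s : ℝ) ≤ n := by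
      rw [hn]
      push_cast
      have := Nat.le_ceil (8 / (s : ℝ))
      linarith
    set C : ℕ := ⌈(2 : ℝ) ^ (8 / (s : ℝ))⌉₊ with hC
    have hCs : (2 : ℝ) ^ (8 / (s : ℝ)) ≤ C := Nat.le_ceil _
    -- the sets
    let A : (Σ _ : ℕ, Σ K : ℕ, Fin K → ℕ) → Set TC := fun z =>
      {x | ∃ a, dist x (TopologicalSpace.denseSeq UnitAddCircle (z.2.2 a)) ≤ 1 / (4 * (p : ℝ) ^ z.1)}
    let E : (Σ _ : ℕ, Σ K : ℕ, Fin K → ℕ) → ℕ → Set TC := fun z N =>
      {x | 1 ≤ N ∧ (((Finset.range (N ^ 2) ×ˢ Finset.range N).filter fun u =>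
        (p ^ u.1 * q ^ u.2) • x ∉ A z).card : ℝ) ≤ η * N ^ 3}
    let S : (Σ _ : ℕ, Σ K : ℕ, Fin K → ℕ) → Set TC := fun z =>
      {x | (1 ≤ z.1 ∧ C ≤ p ^ z.1 ∧ 1 ≤ z.2.1 ∧ z.2.1 ^ n ≤ p ^ z.1) ∧ ∃ᶠ N in atTop, x ∈ E z N}
    have hsub : Det p q bx ⊆ ⋃ z, S z := by
      intro x hx
      have h𝒰 : ((Filter.hyperfilter ℕ : Ultrafilter ℕ) : Filter ℕ) ≤ atTop :=
        Nat.hyperfilter_le_atTop
      obtain ⟨κ, hκ, hκl⟩ := Pool.Agent.Zk32.lim_point (p := p) (q := q) hF.1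
        (Filter.hyperfilter ℕ) x
      have hκs := hx _ h𝒰 κ hκ hκl
      obtain ⟨hκp, hκq⟩ := lim_inv' hF h𝒰 hκl
      obtain ⟨l, K, σ, g, hl, hCl, hK, hKn, hg, hgA, hgi⟩ := cov_sing hp hq hpq hκp hκq hκs hη0 n C
      refine mem_iUnion.2 ⟨⟨l, K, σ⟩, ⟨hl, hCl, hK, hKn⟩, ?_⟩
      have h1 : ∀ᶠ k in ((Filter.hyperfilter ℕ : Ultrafilter ℕ) : Filter ℕ),
          1 - η < ave p q (bx k) g x := (tendsto_order.1 (hκl g)).1 _ hgi
      have h2 : ∃ᶠ k in atTop, 1 - η < ave p q (bx k) g x := h1.frequently.filter_mono h𝒰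
      have h3 : ∃ᶠ k in atTop, x ∈ E ⟨l, K, σ⟩ (k + 1) := by
        refine h2.mono fun k hk => ?_
        refine ⟨Nat.succ_pos k, ?_⟩
        set bad := (Finset.range ((k + 1) ^ 2) ×ˢ Finset.range (k + 1)).filter fun u =>
          (p ^ u.1 * q ^ u.2) • x ∉ A ⟨l, K, σ⟩ with hbad
        have hcard : ((bx k).card : ℝ) = ((k + 1 : ℕ) : ℝ) ^ 3 := by
          rw [bx, Finset.card_product, Finset.card_range, Finset.card_range]
          push_cast
          ring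
        have h4 : ave p q (bx k) g x ≤ ((bx k).card : ℝ)⁻¹ * ((bx k).card - bad.card) := by
          unfold ave
          refine mul_le_mul_of_nonneg_left ?_ (by positivity)
          have h5 : ∑ u ∈ bx k, g ((p ^ u.1 * q ^ u.2) • x) ≤ ∑ u ∈ bx k,
              (1 - if (p ^ u.1 * q ^ u.2) • x ∉ A ⟨l, K, σ⟩ then (1 : ℝ) else 0) := by
            refine Finset.sum_le_sum fun u _ => ?_
            by_cases h6 : (p ^ u.1 * q ^ u.2) • x ∈ A ⟨l, K, σ⟩
            swap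
            · rw [if_pos h6]
              have h7 : g ((p ^ u.1 * q ^ u.2) • x) = 0 := by
                by_contra h8
                exact h6 (hgA _ h8)
              rw [h7, sub_self]
            · rw [if_neg (not_not.2 h6), sub_zero]
              exact (hg _).2
          refine h5.trans (le_of_eq ?_)
          rw [Finset.sum_sub_distrib, Finset.sum_const, nsmul_eq_mul, mul_one, Finset.sum_boole]
          rfl
        have hc0 : 0 < ((bx k).card : ℝ) := by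
          rw [hcard]
          positivity
        have h5 : 1 - η < ((bx k).card : ℝ)⁻¹ * ((bx k).card - bad.card) := hk.trans_le h4
        rw [mul_sub, inv_mul_cancel₀ hc0.ne'] at h5
        have h6 : ((bx k).card : ℝ)⁻¹ * bad.card < η := by linarith
        rw [inv_mul_lt_iff₀ hc0] at h6
        rw [hcard] at h6
        linarith
      exact (tendsto_add_atTop_nat 1).frequently h3
    refine (dimH_mono hsub).trans ?_
    rw [dimH_iUnion]
    refine iSup_le ?_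
    rintro ⟨l, K, σ⟩
    by_cases hz : 1 ≤ l ∧ C ≤ p ^ l ∧ 1 ≤ K ∧ K ^ n ≤ p ^ l
    swap
    · have : S ⟨l, K, σ⟩ = ∅ := by
        ext x
        simp only [mem_empty_iff_false, iff_false]
        rintro ⟨h, -⟩
        exact hz h
      rw [this, dimH_empty]
      exact zero_le
    obtain ⟨hl, hCl, hK, hKn⟩ := hz
    have hm2 : (2 : ℝ) ≤ ((p ^ l : ℕ) : ℝ) := by
      have : 2 ≤ p ^ l := hp.trans (Nat.le_self_pow (by omega) p)
      exact_mod_cast this
    have hm0 : (0 : ℝ) < ((p ^ l : ℕ) : ℝ) := by linarith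
    have hinv0 : 0 < 1 / ((p ^ l : ℕ) : ℝ) := by positivity
    have hinv1 : 1 / ((p ^ l : ℕ) : ℝ) ≤ 1 := by
      rw [div_le_one hm0]
      linarith
    have hinv2 : 1 / ((p ^ l : ℕ) : ℝ) < 1 := by
      rw [div_lt_one hm0]
      linarith
    have hA : Cov K (1 / (2 * ((p ^ l : ℕ) : ℝ))) (A ⟨l, K, σ⟩) := by
      refine ⟨fun a => closedBall (TopologicalSpace.denseSeq UnitAddCircle (σ a))
        (1 / (4 * (p : ℝ) ^ l)), ?_, ?_⟩
      · rintro x ⟨a, ha⟩
        exact mem_iUnion.2 ⟨a, ha⟩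
      · intro a x hx y hy
        rw [← dist_eq_norm]
        have h1 := dist_triangle_right x y (TopologicalSpace.denseSeq UnitAddCircle (σ a))
        rw [mem_closedBall] at hx hy
        push_cast
        have h2 : 1 / (2 * (p : ℝ) ^ l) = 1 / (4 * (p : ℝ) ^ l) + 1 / (4 * (p : ℝ) ^ l) := by
          field_simp
          norm_num
        rw [h2]
        linarith
    have hmono : Antitone fun N : ℕ => (1 / ((p ^ l : ℕ) : ℝ)) ^ (N ^ 2 / l) := by
      intro a b hab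
      refine pow_le_pow_of_le_one hinv0.le hinv1 ?_
      exact Nat.div_le_div_right (Nat.pow_le_pow_left hab 2)
    have hT : Tendsto (fun N : ℕ => N ^ 2 / l) atTop atTop := by
      refine (Nat.tendsto_div_const_atTop (by omega)).comp ?_
      exact tendsto_pow_atTop two_ne_zero
    refine dim_limsup (E := E ⟨l, K, σ⟩) (c := fun N => N * l * (2 * (p ^ l * q ^ N)) *
      ((K + 1) ^ (N ^ 2 / l) * (2 * p ^ l) ^ (⌈η * (N : ℝ) ^ 2 / l⌉₊)))
      (ℓ := fun N => (1 / ((p ^ l : ℕ) : ℝ)) ^ (N ^ 2 / l))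
      (fun N => by positivity) hmono
      ((tendsto_pow_atTop_nhds_zero_of_lt_one hinv0.le hinv2).comp hT) ?_
      (box_summ hp hq hsR hl hCs hCl hK hKn hns (by omega) hη0 hηs hη1)
      (fun x hx => hx.2)
    intro N
    rcases Nat.eq_zero_or_pos N with rfl | hN
    · refine ⟨fun _ => ∅, ?_, fun i x hx => hx.elim⟩
      rintro x ⟨h, -⟩
      omega
    · have hηN : η * (N : ℝ) ^ 2 ≤ l * ((⌈η * (N : ℝ) ^ 2 / l⌉₊ : ℕ) : ℝ) := by
        have h2 := Nat.le_ceil (η * (N : ℝ) ^ 2 / l)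
        have hlR : (0 : ℝ) < l := by exact_mod_cast hl
        rw [div_le_iff₀ hlR] at h2
        linarith
      have h1 := cov_box (p := p) (q := q) (K := K) (A := A ⟨l, K, σ⟩) (by omega) (by omega) hl hA
        (N := N) hN (⌈η * (N : ℝ) ^ 2 / l⌉₊) (η := η) hηN
      · obtain ⟨f, hf, hfd⟩ := h1
        refine ⟨f, fun x hx => hf ?_, hfd⟩
        have h2 := hx.2
        simp only [mem_setOf_eq]
        convert h2
  refine le_antisymm (ENNReal.le_of_forall_pos_le_add fun ε hε _ => ?_) zero_le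
  rw [zero_add]
  exact key ε hε

end Pool.Agent.Zk24.SL
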