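import Mathlib
import Pool.Agent.Zk32.Tu5

/-!
Points with limits of entropy zero: definitions.
-/

set_option autoImplicit false

open MeasureTheory Filter Topology Set

namespace Pool.Agent.Zk24.SL

open Pool.Agent.Zk32 (ave)

/-- For all large `N` few balls of radius `p ^ (-N)` carry most of the measure `κ`. -/
def Zd (p : ℕ) (κ : Measure UnitAddCircle) : Prop :=
  ∀ (n : ℕ) (ε : ℝ), 0 < ε → ∀ᶠ N : ℕ in atTop, ∃ (K : ℕ) (cen : Fin K → UnitAddCircle),
    K ^ n ≤ p ^ N ∧ κ.real (⋃ a, Metric.closedBall (cen a) (1 / (p : ℝ) ^ N))ᶜ ≤ ε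

/-- a bump function: one at the distance `≤ 1 / (8 p ^ l)` from the points of a dense sequence with
indices `s a`, zero at the distance `≥ 1 / (4 p ^ l)` -/
noncomputable def bmp (p l : ℕ) {K : ℕ} (s : Fin K → ℕ) : C(UnitAddCircle, ℝ) :=
  ⟨fun x => max 0 (min 1 (2 - 8 * (p : ℝ) ^ l * Metric.infDist x
    (Set.range fun a => TopologicalSpace.denseSeq UnitAddCircle (s a)))), by
      have h := Metric.continuous_infDist_pt
        (Set.range fun a => TopologicalSpace.denseSeq UnitAddCircle (s a))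
      fun_prop⟩

/-- Some bump functions of few balls have integral near one. -/
def Sc (p : ℕ) (κ : Measure UnitAddCircle) : Prop :=
  ∀ (n C : ℕ) (η : ℝ), 0 < η → ∃ (l K : ℕ) (s : Fin K → ℕ), 1 ≤ l ∧ C ≤ p ^ l ∧ 1 ≤ K ∧
    K ^ n ≤ p ^ l ∧ 1 - η < ∫ x, bmp p l s x ∂κ

/-- the points all of whose limits along `F` are thin -/
def Det0 (p q : ℕ) (F : ℕ → Finset (ℕ × ℕ)) : Set UnitAddCircle :=
  {x | ∀ 𝒰 : Ultrafilter ℕ, (𝒰 : Filter ℕ) ≤ atTop → ∀ κ : Measure UnitAddCircle,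
    IsProbabilityMeasure κ → (∀ g : C(UnitAddCircle, ℝ), Tendsto (fun k => ave p q (F k) g x)
      (𝒰 : Filter ℕ) (𝓝 (∫ y, g y ∂κ))) → Sc p κ}

end Pool.Agent.Zk24.SL
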