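import Pool.Agent.Zk24.SL.CovK
import Pool.Agent.Zk24.SL.Zd

/-!
Essentially injective measures are carried by few balls (after helper41).
-/

set_option autoImplicit false

open MeasureTheory Filter Topology Set
open scoped ENNReal

namespace Pool.Agent.Zk24.SL

theorem sc_of_essInj {p : ℕ} (hp : 2 ≤ p) {κ : Measure UnitAddCircle} [IsProbabilityMeasure κ]
    (hκ : MeasurePreserving (fun x : UnitAddCircle => p • x) κ κ)
    (hE : Pool.Agent.W764.FB.EssInj p κ) : Sc p κ := by
  intro n C η hη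
  classical
  have hpR : (2 : ℝ) ≤ p := by exact_mod_cast hp
  have hp0 : (0 : ℝ) < p := by linarith
  have hC0 : (0 : ℝ) < (C : ℝ) + 1 := by positivity
  obtain ⟨K, cen, ρ, hK, hρ, hρK, hU⟩ := coveringK hp κ hκ hE (κ := η / 2)
    (c := 1 / (16 * p * ((C : ℝ) + 1))) (by positivity) (by positivity) n
  have hK1 : (1 : ℝ) ≤ (K : ℝ) ^ n := one_le_pow₀ (by exact_mod_cast hK)
  have hmain : 16 * p * ((C : ℝ) + 1) * (ρ * (K : ℝ) ^ n) ≤ 1 := by
    rw [le_div_iff₀ (by positivity)] at hρK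
    linarith
  -- the scale
  have hex : ∃ m : ℕ, 1 < 16 * ρ * (p : ℝ) ^ m := by
    have h1 : Tendsto (fun m : ℕ => 16 * ρ * (p : ℝ) ^ m) atTop atTop :=
      (tendsto_pow_atTop_atTop_of_one_lt (by linarith)).const_mul_atTop (by positivity)
    exact (h1.eventually (eventually_gt_atTop 1)).exists
  have hρle : 16 * p * ρ ≤ 1 := by
    have h1 : ρ ≤ ρ * (K : ℝ) ^ n := le_mul_of_one_le_right hρ.le hK1
    have h2 : ρ * (K : ℝ) ^ n ≤ ((C : ℝ) + 1) * (ρ * (K : ℝ) ^ n) := by
      apply le_mul_of_one_le_left (by positivity)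
      linarith [(Nat.cast_nonneg C : (0 : ℝ) ≤ C)]
    have h3 : 16 * p * ρ ≤ 16 * p * (((C : ℝ) + 1) * (ρ * (K : ℝ) ^ n)) := by
      have := h1.trans h2
      gcongr
    linarith
  obtain ⟨m, hm, hmin⟩ : ∃ m : ℕ, 1 < 16 * ρ * (p : ℝ) ^ m ∧
      ∀ k < m, 16 * ρ * (p : ℝ) ^ k ≤ 1 :=
    ⟨Nat.find hex, Nat.find_spec hex, fun k hk => not_lt.1 (Nat.find_min hex hk)⟩
  have hm2 : 2 ≤ m := by
    by_contra hcon
    have h1 : m = 0 ∨ m = 1 := by omega
    rcases h1 with rfl | rfl
    · rw [pow_zero, mul_one] at hm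
      nlinarith
    · rw [pow_one] at hm
      linarith
  obtain ⟨l, rfl⟩ : ∃ l, m = l + 1 := ⟨m - 1, by omega⟩
  have hl := hmin l (by omega)
  have hpl : (0 : ℝ) < (p : ℝ) ^ l := by positivity
  have hbig : (K : ℝ) ^ n * ((C : ℝ) + 1) ≤ (p : ℝ) ^ l := by
    have h1 : 16 * p * ρ * ((K : ℝ) ^ n * ((C : ℝ) + 1)) ≤ 16 * p * ρ * (p : ℝ) ^ l := by
      have e1 : 16 * p * ρ * ((K : ℝ) ^ n * ((C : ℝ) + 1)) =
          16 * p * ((C : ℝ) + 1) * (ρ * (K : ℝ) ^ n) := by ring
      have e2 : 16 * p * ρ * (p : ℝ) ^ l = 16 * ρ * (p : ℝ) ^ (l + 1) := by ring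
      rw [e1, e2]
      linarith
    exact le_of_mul_le_mul_left h1 (by positivity)
  have hCl : C ≤ p ^ l := by
    have h1 : (C : ℝ) ≤ (p : ℝ) ^ l := by
      have : (C : ℝ) + 1 ≤ (K : ℝ) ^ n * ((C : ℝ) + 1) := le_mul_of_one_le_left hC0.le hK1
      linarith
    exact_mod_cast h1
  have hKl : K ^ n ≤ p ^ l := by
    have h1 : (K : ℝ) ^ n ≤ (p : ℝ) ^ l := by
      have : (K : ℝ) ^ n ≤ (K : ℝ) ^ n * ((C : ℝ) + 1) := by
        apply le_mul_of_one_le_right (by positivity)
        linarith [(Nat.cast_nonneg C : (0 : ℝ) ≤ C)]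
      linarith
    exact_mod_cast h1
  -- the points of the dense sequence
  have hs : ∀ a : Fin K, ∃ k : ℕ, dist (cen a) (TopologicalSpace.denseSeq UnitAddCircle k) < ρ :=
    fun a => (TopologicalSpace.denseRange_denseSeq UnitAddCircle).exists_dist_lt (cen a) hρ
  choose s hs using hs
  -- the function
  set W : Set UnitAddCircle := Pool.Agent.H706R2.Ren.U cen ρ with hW
  have hWm : MeasurableSet W := by
    rw [hW]
    exact (isClosed_iUnion_of_finite fun a => Metric.isClosed_closedBall).measurableSet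
  refine ⟨l, K, s, by omega, hCl, hK, hKl, ?_⟩
  have h1 : ∀ x ∈ W, (1 : ℝ) ≤ bmp p l s x := by
    intro x hx
    obtain ⟨a, ha⟩ := mem_iUnion.1 hx
    have h2 := Metric.mem_closedBall.1 ha
    have h3 := hs a
    have h4 : dist x (TopologicalSpace.denseSeq UnitAddCircle (s a)) ≤ 2 * ρ := by
      have h6 := dist_triangle x (cen a) (TopologicalSpace.denseSeq UnitAddCircle (s a))
      linarith
    have h5 : Metric.infDist x (range fun a => TopologicalSpace.denseSeq UnitAddCircle (s a)) ≤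
        2 * ρ := (Metric.infDist_le_dist_of_mem (mem_range_self a)).trans h4
    show 1 ≤ max 0 (min 1 (2 - 8 * (p : ℝ) ^ l * Metric.infDist x
      (range fun a => TopologicalSpace.denseSeq UnitAddCircle (s a))))
    refine le_max_of_le_right (le_min le_rfl ?_)
    have h6 : 8 * (p : ℝ) ^ l * Metric.infDist x
        (range fun a => TopologicalSpace.denseSeq UnitAddCircle (s a)) ≤
        8 * (p : ℝ) ^ l * (2 * ρ) := by gcongr
    linarith
  have h0 : ∀ x, 0 ≤ bmp p l s x := fun x => le_max_left _ _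
  have h7 : κ.real W ≤ ∫ x, bmp p l s x ∂κ := by
    rw [← integral_indicator_one hWm]
    refine integral_mono ((integrable_const (1 : ℝ)).indicator hWm) ?_ fun x => ?_
    · refine (integrable_const (1 : ℝ)).mono' (bmp p l s).continuous.aestronglyMeasurable
        (ae_of_all _ fun x => ?_)
      rw [Real.norm_eq_abs, abs_of_nonneg (h0 x)]
      exact max_le zero_le_one (min_le_left _ _)
    · by_cases hx : x ∈ W
      · rw [indicator_of_mem hx]
        exact h1 x hx
      · rw [indicator_of_notMem hx]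
        exact h0 x
  have h8 : κ.real W = 1 - κ.real Wᶜ := by
    rw [probReal_compl_eq_one_sub hWm]
    ring
  linarith

end Pool.Agent.Zk24.SL
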