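import Pool.Agent.Zk24.SL.DetG
import Pool.Agent.Zk24.SL.Zd
import Pool.Agent.Zk98.ZdAdd
import Pool.Agent.Zk98.ScOf
import Pool.Agent.Zk24.SL.ScEss
import Pool.Agent.Zk63.SL.ZdSc

/-!
The points all of whose limits are thin form a group.
-/

set_option autoImplicit false

open MeasureTheory Filter Topology Set
open scoped ENNReal

namespace Pool.Agent.Zk24.SL

open Pool.Agent.Zk32 (Folner ave aveX aveX_cont Det lim_exists lim_inv)
open Pool.Agent.Zk98 (zd_zero zd_neg zd_add zd_sing sc_of_zd)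
open Pool.Agent.Zk63.SL (zd_of_sc)

variable {p q : ℕ} {F : ℕ → Finset (ℕ × ℕ)}

lemma det0_zero (hp : 2 ≤ p) (hF : Folner F) : (0 : TC) ∈ Det0 p q F := by
  intro 𝒰 h𝒰 κ hκ h
  have h1 : κ = Measure.dirac (0 : TC) := by
    refine ext_of_forall_integral_eq_of_IsFiniteMeasure fun f => ?_
    have h2 := h f.toContinuousMap
    have h3 : ∀ k, ave p q (F k) f.toContinuousMap (0 : TC) = f 0 := by
      intro k
      have h4 := ave_const (p := p) (q := q) hF (f 0) k (0 : TC)
      unfold ave at h4 ⊢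
      simp only [smul_zero] at h4 ⊢
      exact h4
    simp only [h3] at h2
    rw [integral_dirac]
    exact (tendsto_nhds_unique tendsto_const_nhds h2).symm
  rw [h1]
  exact sc_of_zd hp (zd_zero hp)

lemma det0_neg (hp : 2 ≤ p) (hF : Folner F) {x : TC} (hx : x ∈ Det0 p q F) :
    -x ∈ Det0 p q F := by
  intro 𝒰 h𝒰 κ hκ h
  have hm : Measurable fun y : TC => -y := measurable_neg
  have hp' : IsProbabilityMeasure (κ.map fun y => -y) :=
    Measure.isProbabilityMeasure_map hm.aemeasurable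
  have hl : ∀ g : C(TC, ℝ), Tendsto (fun k => ave p q (F k) g x) (𝒰 : Filter ℕ)
      (𝓝 (∫ y, g y ∂(κ.map fun y => -y))) := fun g => by
    rw [integral_map hm.aemeasurable g.continuous.aestronglyMeasurable]
    refine (h (g.comp ⟨fun y => -y, continuous_neg⟩)).congr fun k => ?_
    unfold ave
    congr 1
    refine Finset.sum_congr rfl fun n _ => ?_
    show g (-((p ^ n.1 * q ^ n.2) • -x)) = _
    rw [smul_neg, neg_neg]
  have h1 := zd_of_sc hp (lim_inv' hF h𝒰 hl).1 (hx 𝒰 h𝒰 (κ.map fun y => -y) hp' hl)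
  have h2 := zd_neg h1
  have e : (κ.map fun y => -y).map (fun y => -y) = κ := by
    rw [Measure.map_map hm hm]
    have : (fun y : TC => -y) ∘ (fun y : TC => -y) = id := by
      funext y
      simp
    rw [this, Measure.map_id]
  rw [e] at h2
  exact sc_of_zd hp h2

lemma det0_add (hp : 2 ≤ p) (hF : Folner F) {x y : TC}
    (hx : x ∈ Det0 p q F) (hy : y ∈ Det0 p q F) : x + y ∈ Det0 p q F := by
  intro 𝒰 h𝒰 κ hκ h
  obtain ⟨Λ, hΛ, hlim⟩ := lim_exists (p := p) (q := q) (X := TC × TC) hF 𝒰 (Measure.dirac (x, y))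
  have hlim' : ∀ G : C(TC × TC, ℝ), Tendsto (fun k => aveX p q (F k) G (x, y)) (𝒰 : Filter ℕ)
      (𝓝 (∫ z, G z ∂Λ)) := fun G => (hlim G).congr fun k =>
    integral_dirac' _ _ (aveX_cont (p := p) (q := q) (F := F k) G).stronglyMeasurable
  have key : ∀ (π : C(TC × TC, TC)) (w : TC),
      (∀ n : ℕ, π (n • (x, y)) = n • w) → ∀ g : C(TC, ℝ),
      Tendsto (fun k => ave p q (F k) g w) (𝒰 : Filter ℕ) (𝓝 (∫ z, g z ∂(Λ.map π))) := by
    intro π w hπ g
    rw [integral_map π.continuous.measurable.aemeasurable g.continuous.aestronglyMeasurable]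
    refine (hlim' (g.comp π)).congr fun k => ?_
    unfold aveX ave
    congr 1
    refine Finset.sum_congr rfl fun n _ => ?_
    show g (π ((p ^ n.1 * q ^ n.2) • (x, y))) = _
    rw [hπ]
  have k1 := key ⟨Prod.fst, continuous_fst⟩ x (fun n => rfl)
  have k2 := key ⟨Prod.snd, continuous_snd⟩ y (fun n => rfl)
  have k3 := key ⟨fun z => z.1 + z.2, continuous_fst.add continuous_snd⟩ (x + y)
    (fun n => (smul_add n x y).symm)
  have m1 : Measurable (Prod.fst : TC × TC → TC) := measurable_fst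
  have m2 : Measurable (Prod.snd : TC × TC → TC) := measurable_snd
  have m3 : Measurable fun z : TC × TC => z.1 + z.2 := m1.add m2
  have p1 : IsProbabilityMeasure (Λ.map (Prod.fst : TC × TC → TC)) :=
    Measure.isProbabilityMeasure_map m1.aemeasurable
  have p2 : IsProbabilityMeasure (Λ.map (Prod.snd : TC × TC → TC)) :=
    Measure.isProbabilityMeasure_map m2.aemeasurable
  have p3 : IsProbabilityMeasure (Λ.map fun z : TC × TC => z.1 + z.2) :=
    Measure.isProbabilityMeasure_map m3.aemeasurable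
  have i1 := lim_inv' hF h𝒰 (κ := Λ.map (Prod.fst : TC × TC → TC)) k1
  have i2 := lim_inv' hF h𝒰 (κ := Λ.map (Prod.snd : TC × TC → TC)) k2
  have e : κ = Λ.map fun z : TC × TC => z.1 + z.2 := by
    refine ext_of_forall_integral_eq_of_IsFiniteMeasure fun f => ?_
    exact tendsto_nhds_unique (h f.toContinuousMap) (k3 f.toContinuousMap)
  rw [e]
  have z1 := zd_of_sc hp i1.1 (hx 𝒰 h𝒰 _ p1 k1)
  have z2 := zd_of_sc hp i2.1 (hy 𝒰 h𝒰 _ p2 k2)
  exact sc_of_zd hp (zd_add hp z1 z2)

/-- **The points with only thin limits form a group.** -/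
theorem det0_group (hp : 2 ≤ p) (hF : Folner F) :
    ∃ H : AddSubgroup TC, (H : Set TC) = Det0 p q F :=
  ⟨{ carrier := Det0 p q F
     zero_mem' := det0_zero hp hF
     add_mem' := fun hx hy => det0_add hp hF hx hy
     neg_mem' := fun hx => det0_neg hp hF hx }, rfl⟩

/-- thin points have singular limits -/
lemma det0_sub (hp : 2 ≤ p) (hF : Folner F) : Det0 p q F ⊆ Det p q F := by
  intro x hx 𝒰 h𝒰 κ hκ h
  exact zd_sing hp (zd_of_sc hp (lim_inv' hF h𝒰 h).1 (hx 𝒰 h𝒰 κ hκ h))

end Pool.Agent.Zk24.SL
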