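import Pool.Agent.Zk24.SL.DimDet
import Pool.Agent.Zk24.SL.ZdG

/-!
The points with thin limits along long boxes form a set of dimension zero.
-/

set_option autoImplicit false

open MeasureTheory Filter Topology Set Metric
open scoped ENNReal NNReal

namespace Pool.Agent.Zk24.SL

open Pool.Agent.Zk32 (Folner ave Det Tor)
open Pool.Agent.Zk43 (Cov cov_box)

theorem bmp_spec {p l K : ℕ} (hp : 1 ≤ p) (hK : 1 ≤ K) (s : Fin K → ℕ) :
    (∀ x, 0 ≤ bmp p l s x ∧ bmp p l s x ≤ 1) ∧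
    ∀ x, bmp p l s x ≠ 0 → ∃ a, dist x (TopologicalSpace.denseSeq UnitAddCircle (s a)) ≤
      1 / (4 * (p : ℝ) ^ l) := by
  have hm : (0 : ℝ) < (p : ℝ) ^ l := by
    have : (0 : ℝ) < p := by exact_mod_cast hp
    positivity
  refine ⟨fun x => ⟨le_max_left _ _, max_le zero_le_one (min_le_left _ _)⟩, fun x hx => ?_⟩
  have h0 : 0 < 2 - 8 * (p : ℝ) ^ l * Metric.infDist x
      (Set.range fun a => TopologicalSpace.denseSeq UnitAddCircle (s a)) := by
    by_contra h
    push Not at h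
    apply hx
    show max 0 (min 1 (2 - 8 * (p : ℝ) ^ l * Metric.infDist x
      (Set.range fun a => TopologicalSpace.denseSeq UnitAddCircle (s a)))) = 0
    exact max_eq_left ((min_le_right _ _).trans h)
  have hne : (Set.range fun a => TopologicalSpace.denseSeq UnitAddCircle (s a)).Nonempty :=
    ⟨_, ⟨0, hK⟩, rfl⟩
  have h1 : Metric.infDist x
      (Set.range fun a => TopologicalSpace.denseSeq UnitAddCircle (s a)) < 1 / (4 * (p : ℝ) ^ l) := by
    rw [lt_div_iff₀ (by positivity)]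
    linarith
  obtain ⟨y, ⟨a, rfl⟩, hy⟩ := (Metric.infDist_lt_iff hne).1 h1
  exact ⟨a, hy.le⟩

/-- **The points with thin limits along the boxes form a set of dimension zero.** -/
theorem dim_det0 {p q : ℕ} (hp : 2 ≤ p) (hq : 2 ≤ q)
    (hF : Folner bx) : dimH (Det0 p q bx) = 0 := by
  classical
  have key : ∀ s : ℝ≥0, 0 < s → dimH (Det0 p q bx) ≤ s := by
    intro s hs
    have hsR : (0 : ℝ) < s := hs
    set η : ℝ := min (s / 8) 1 with hη
    have hη0 : 0 < η := lt_min (by positivity) one_pos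
    have hηs : 8 * η ≤ s := by
      have := min_le_left ((s : ℝ) / 8) 1
      linarith
    have hη1 : η ≤ 1 := min_le_right _ _
    set n : ℕ := ⌈8 / (s : ℝ)⌉₊ + 1 with hn
    have hns : 8 / (s : ℝ) ≤ n := by
      rw [hn]
      push_cast
      have := Nat.le_ceil (8 / (s : ℝ))
      linarith
    set C : ℕ := ⌈(2 : ℝ) ^ (8 / (s : ℝ))⌉₊ with hC
    have hCs : (2 : ℝ) ^ (8 / (s : ℝ)) ≤ C := Nat.le_ceil _
    -- the sets
    let A : (Σ _ : ℕ, Σ K : ℕ, Fin K → ℕ) → Set TC := fun z =>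
      {x | ∃ a, dist x (TopologicalSpace.denseSeq UnitAddCircle (z.2.2 a)) ≤ 1 / (4 * (p : ℝ) ^ z.1)}
    let E : (Σ _ : ℕ, Σ K : ℕ, Fin K → ℕ) → ℕ → Set TC := fun z N =>
      {x | 1 ≤ N ∧ (((Finset.range (N ^ 2) ×ˢ Finset.range N).filter fun u =>
        (p ^ u.1 * q ^ u.2) • x ∉ A z).card : ℝ) ≤ η * N ^ 3}
    let S : (Σ _ : ℕ, Σ K : ℕ, Fin K → ℕ) → Set TC := fun z =>
      {x | (1 ≤ z.1 ∧ C ≤ p ^ z.1 ∧ 1 ≤ z.2.1 ∧ z.2.1 ^ n ≤ p ^ z.1) ∧ ∃ᶠ N in atTop, x ∈ E z N}
    have hsub : Det0 p q bx ⊆ ⋃ z, S z := by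
      intro x hx
      have h𝒰 : ((Filter.hyperfilter ℕ : Ultrafilter ℕ) : Filter ℕ) ≤ atTop :=
        Nat.hyperfilter_le_atTop
      obtain ⟨κ, hκ, hκl⟩ := Pool.Agent.Zk32.lim_point (p := p) (q := q) hF.1
        (Filter.hyperfilter ℕ) x
      obtain ⟨l, K, σ, hl, hCl, hK, hKn, hgi⟩ := hx _ h𝒰 κ hκ hκl n C η hη0
      obtain ⟨hg, hgA⟩ := bmp_spec (p := p) (l := l) (by omega) hK σ
      set g := bmp p l σ
      refine mem_iUnion.2 ⟨⟨l, K, σ⟩, ⟨hl, hCl, hK, hKn⟩, ?_⟩
      have h1 : ∀ᶠ k in ((Filter.hyperfilter ℕ : Ultrafilter ℕ) : Filter ℕ),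
          1 - η < ave p q (bx k) g x := (tendsto_order.1 (hκl g)).1 _ hgi
      have h2 : ∃ᶠ k in atTop, 1 - η < ave p q (bx k) g x := h1.frequently.filter_mono h𝒰
      have h3 : ∃ᶠ k in atTop, x ∈ E ⟨l, K, σ⟩ (k + 1) := by
        refine h2.mono fun k hk => ?_
        refine ⟨Nat.succ_pos k, ?_⟩
        set bad := (Finset.range ((k + 1) ^ 2) ×ˢ Finset.range (k + 1)).filter fun u =>
          (p ^ u.1 * q ^ u.2) • x ∉ A ⟨l, K, σ⟩ with hbad
        have hcard : ((bx k).card : ℝ) = ((k + 1 : ℕ) : ℝ) ^ 3 := by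
          rw [bx, Finset.card_product, Finset.card_range, Finset.card_range]
          push_cast
          ring
        have h4 : ave p q (bx k) g x ≤ ((bx k).card : ℝ)⁻¹ * ((bx k).card - bad.card) := by
          unfold ave
          refine mul_le_mul_of_nonneg_left ?_ (by positivity)
          have h5 : ∑ u ∈ bx k, g ((p ^ u.1 * q ^ u.2) • x) ≤ ∑ u ∈ bx k,
              (1 - if (p ^ u.1 * q ^ u.2) • x ∉ A ⟨l, K, σ⟩ then (1 : ℝ) else 0) := by
            refine Finset.sum_le_sum fun u _ => ?_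
            by_cases h6 : (p ^ u.1 * q ^ u.2) • x ∈ A ⟨l, K, σ⟩
            swap
            · rw [if_pos h6]
              have h7 : g ((p ^ u.1 * q ^ u.2) • x) = 0 := by
                by_contra h8
                exact h6 (hgA _ h8)
              rw [h7, sub_self]
            · rw [if_neg (not_not.2 h6), sub_zero]
              exact (hg _).2
          refine h5.trans (le_of_eq ?_)
          rw [Finset.sum_sub_distrib, Finset.sum_const, nsmul_eq_mul, mul_one, Finset.sum_boole]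
          rfl
        have hc0 : 0 < ((bx k).card : ℝ) := by
          rw [hcard]
          positivity
        have h5 : 1 - η < ((bx k).card : ℝ)⁻¹ * ((bx k).card - bad.card) := hk.trans_le h4
        rw [mul_sub, inv_mul_cancel₀ hc0.ne'] at h5
        have h6 : ((bx k).card : ℝ)⁻¹ * bad.card < η := by linarith
        rw [inv_mul_lt_iff₀ hc0] at h6
        rw [hcard] at h6
        linarith
      exact (tendsto_add_atTop_nat 1).frequently h3
    refine (dimH_mono hsub).trans ?_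
    rw [dimH_iUnion]
    refine iSup_le ?_
    rintro ⟨l, K, σ⟩
    by_cases hz : 1 ≤ l ∧ C ≤ p ^ l ∧ 1 ≤ K ∧ K ^ n ≤ p ^ l
    swap
    · have : S ⟨l, K, σ⟩ = ∅ := by
        ext x
        simp only [mem_empty_iff_false, iff_false]
        rintro ⟨h, -⟩
        exact hz h
      rw [this, dimH_empty]
      exact zero_le
    obtain ⟨hl, hCl, hK, hKn⟩ := hz
    have hm2 : (2 : ℝ) ≤ ((p ^ l : ℕ) : ℝ) := by
      have : 2 ≤ p ^ l := hp.trans (Nat.le_self_pow (by omega) p)
      exact_mod_cast this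
    have hm0 : (0 : ℝ) < ((p ^ l : ℕ) : ℝ) := by linarith
    have hinv0 : 0 < 1 / ((p ^ l : ℕ) : ℝ) := by positivity
    have hinv1 : 1 / ((p ^ l : ℕ) : ℝ) ≤ 1 := by
      rw [div_le_one hm0]
      linarith
    have hinv2 : 1 / ((p ^ l : ℕ) : ℝ) < 1 := by
      rw [div_lt_one hm0]
      linarith
    have hA : Cov K (1 / (2 * ((p ^ l : ℕ) : ℝ))) (A ⟨l, K, σ⟩) := by
      refine ⟨fun a => closedBall (TopologicalSpace.denseSeq UnitAddCircle (σ a))
        (1 / (4 * (p : ℝ) ^ l)), ?_, ?_⟩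
      · rintro x ⟨a, ha⟩
        exact mem_iUnion.2 ⟨a, ha⟩
      · intro a x hx y hy
        rw [← dist_eq_norm]
        have h1 := dist_triangle_right x y (TopologicalSpace.denseSeq UnitAddCircle (σ a))
        rw [mem_closedBall] at hx hy
        push_cast
        have h2 : 1 / (2 * (p : ℝ) ^ l) = 1 / (4 * (p : ℝ) ^ l) + 1 / (4 * (p : ℝ) ^ l) := by
          field_simp
          norm_num
        rw [h2]
        linarith
    have hmono : Antitone fun N : ℕ => (1 / ((p ^ l : ℕ) : ℝ)) ^ (N ^ 2 / l) := by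
      intro a b hab
      refine pow_le_pow_of_le_one hinv0.le hinv1 ?_
      exact Nat.div_le_div_right (Nat.pow_le_pow_left hab 2)
    have hT : Tendsto (fun N : ℕ => N ^ 2 / l) atTop atTop := by
      refine (Nat.tendsto_div_const_atTop (by omega)).comp ?_
      exact tendsto_pow_atTop two_ne_zero
    refine dim_limsup (E := E ⟨l, K, σ⟩) (c := fun N => N * l * (2 * (p ^ l * q ^ N)) *
      ((K + 1) ^ (N ^ 2 / l) * (2 * p ^ l) ^ (⌈η * (N : ℝ) ^ 2 / l⌉₊)))
      (ℓ := fun N => (1 / ((p ^ l : ℕ) : ℝ)) ^ (N ^ 2 / l))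
      (fun N => by positivity) hmono
      ((tendsto_pow_atTop_nhds_zero_of_lt_one hinv0.le hinv2).comp hT) ?_
      (box_summ hp hq hsR hl hCs hCl hK hKn hns (by omega) hη0 hηs hη1)
      (fun x hx => hx.2)
    intro N
    rcases Nat.eq_zero_or_pos N with rfl | hN
    · refine ⟨fun _ => ∅, ?_, fun i x hx => hx.elim⟩
      rintro x ⟨h, -⟩
      omega
    · have hηN : η * (N : ℝ) ^ 2 ≤ l * ((⌈η * (N : ℝ) ^ 2 / l⌉₊ : ℕ) : ℝ) := by
        have h2 := Nat.le_ceil (η * (N : ℝ) ^ 2 / l)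
        have hlR : (0 : ℝ) < l := by exact_mod_cast hl
        rw [div_le_iff₀ hlR] at h2
        linarith
      have h1 := cov_box (p := p) (q := q) (K := K) (A := A ⟨l, K, σ⟩) (by omega) (by omega) hl hA
        (N := N) hN (⌈η * (N : ℝ) ^ 2 / l⌉₊) (η := η) hηN
      · obtain ⟨f, hf, hfd⟩ := h1
        refine ⟨f, fun x hx => hf ?_, hfd⟩
        have h2 := hx.2
        simp only [mem_setOf_eq]
        convert h2
  refine le_antisymm (ENNReal.le_of_forall_pos_le_add fun ε hε _ => ?_) zero_le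
  rw [zero_add]
  exact key ε hε

end Pool.Agent.Zk24.SL
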