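import Mathlib

/-!
The Hausdorff dimension of a set covered infinitely often.
-/

set_option autoImplicit false

open MeasureTheory Filter Topology Set Metric
open scoped ENNReal NNReal

namespace Pool.Agent.Zk24.SL

/-- A bound for the dimension from covers. -/
theorem dim_limsup {E : ℕ → Set UnitAddCircle} {c : ℕ → ℕ} {ℓ : ℕ → ℝ} {s : ℝ≥0}
    (hℓ0 : ∀ N, 0 < ℓ N) (hmono : Antitone ℓ) (hℓ : Tendsto ℓ atTop (𝓝 0))
    (hcov : ∀ N, ∃ f : Fin (c N) → Set UnitAddCircle, E N ⊆ ⋃ i, f i ∧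
      ∀ i, ∀ x ∈ f i, ∀ y ∈ f i, ‖x - y‖ ≤ ℓ N)
    (hsum : Summable fun N => (c N : ℝ) * (ℓ N) ^ (s : ℝ)) {S : Set UnitAddCircle}
    (hS : ∀ x ∈ S, ∃ᶠ N in atTop, x ∈ E N) :
    dimH S ≤ s := by
  choose f hf hfd using hcov
  set t : ∀ n : ℕ, (Σ k : ℕ, Fin (c (k + n))) → Set UnitAddCircle := fun n z => f (z.1 + n) z.2
    with ht
  have hdiam : ∀ n (z : Σ k : ℕ, Fin (c (k + n))), ediam (t n z) ≤ ENNReal.ofReal (ℓ (z.1 + n)) := by
    intro n z
    refine ediam_le fun x hx y hy => ?_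
    rw [edist_dist, dist_eq_norm]
    exact ENNReal.ofReal_le_ofReal (hfd _ _ x hx y hy)
  have h1 := MeasureTheory.Measure.hausdorffMeasure_le_liminf_tsum (s : ℝ) S (l := atTop)
    (fun n : ℕ => ENNReal.ofReal (ℓ n)) (by
      have := ENNReal.tendsto_ofReal hℓ
      rwa [ENNReal.ofReal_zero] at this) t
    (Eventually.of_forall fun n z => (hdiam n z).trans
      (ENNReal.ofReal_le_ofReal (hmono (Nat.le_add_left n z.1))))
    (Eventually.of_forall fun n => by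
      intro x hx
      obtain ⟨N, hN, hxN⟩ := (frequently_atTop.1 (hS x hx)) n
      obtain ⟨i, hi⟩ := mem_iUnion.1 (hf N hxN)
      have e : N - n + n = N := Nat.sub_add_cancel hN
      have : ∃ (M : ℕ) (_ : M = N) (j : Fin (c M)), x ∈ f M j := ⟨N, rfl, i, hi⟩
      obtain ⟨M, hM, j, hj⟩ := this
      have hM' : M = N - n + n := by omega
      subst hM'
      exact mem_iUnion.2 ⟨⟨N - n, j⟩, hj⟩)
  have h2 : ∀ n : ℕ, ∑' z : (Σ k : ℕ, Fin (c (k + n))), ediam (t n z) ^ (s : ℝ) ≤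
      ∑' k : ℕ, ENNReal.ofReal ((c (k + n) : ℝ) * (ℓ (k + n)) ^ (s : ℝ)) := by
    intro n
    rw [ENNReal.tsum_sigma']
    refine ENNReal.tsum_le_tsum fun k => ?_
    rw [tsum_fintype]
    calc ∑ i : Fin (c (k + n)), ediam (t n ⟨k, i⟩) ^ (s : ℝ)
        ≤ ∑ i : Fin (c (k + n)), (ENNReal.ofReal (ℓ (k + n))) ^ (s : ℝ) := by
          refine Finset.sum_le_sum fun i _ => ?_
          exact ENNReal.rpow_le_rpow (hdiam n ⟨k, i⟩) s.2
      _ = ENNReal.ofReal ((c (k + n) : ℝ) * (ℓ (k + n)) ^ (s : ℝ)) := by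
          rw [Finset.sum_const, Finset.card_univ, Fintype.card_fin, nsmul_eq_mul,
            ENNReal.ofReal_rpow_of_pos (hℓ0 _), ENNReal.ofReal_mul (Nat.cast_nonneg _),
            ENNReal.ofReal_natCast]
  have h3 : Tendsto (fun n => ∑' k : ℕ, ENNReal.ofReal ((c (k + n) : ℝ) * (ℓ (k + n)) ^ (s : ℝ)))
      atTop (𝓝 0) :=
    ENNReal.tendsto_sum_nat_add (fun N => ENNReal.ofReal ((c N : ℝ) * (ℓ N) ^ (s : ℝ)))
      (hsum.tsum_ofReal_ne_top)
  have h4 : μH[(s : ℝ)] S ≤ 0 := by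
    refine h1.trans ?_
    have h5 : Tendsto (fun n => ∑' z : (Σ k : ℕ, Fin (c (k + n))), ediam (t n z) ^ (s : ℝ))
        atTop (𝓝 0) := tendsto_of_tendsto_of_tendsto_of_le_of_le tendsto_const_nhds h3
          (fun _ => zero_le) h2
    exact h5.liminf_eq.le
  refine dimH_le_of_hausdorffMeasure_ne_top (ne_top_of_le_ne_top ENNReal.zero_ne_top h4)

/-- the series -/
theorem summ {a x : ℝ} (ha : 1 ≤ a) (hx0 : 0 ≤ x) (hx1 : x < 1) :
    Summable fun N : ℕ => (N : ℝ) * a ^ N * x ^ (N ^ 2) := by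
  have h1 : Tendsto (fun N : ℕ => 2 * a * x ^ N) atTop (𝓝 (2 * a * 0)) :=
    (tendsto_pow_atTop_nhds_zero_of_lt_one hx0 hx1).const_mul _
  rw [mul_zero] at h1
  have h2 : ∀ᶠ N : ℕ in atTop, 2 * a * x ^ N ≤ 1 / 2 :=
    (h1.eventually (gt_mem_nhds (show (0 : ℝ) < 1 / 2 by norm_num))).mono fun _ h => h.le
  refine Summable.of_norm_bounded_eventually_nat (g := fun N : ℕ => (1 / 2 : ℝ) ^ N)
    (summable_geometric_of_lt_one (by norm_num) (by norm_num)) ?_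
  filter_upwards [h2] with N hN
  have hnn : 0 ≤ (N : ℝ) * a ^ N * x ^ (N ^ 2) := by positivity
  rw [Real.norm_of_nonneg hnn]
  have h3 : (N : ℝ) ≤ 2 ^ N := by exact_mod_cast Nat.lt_two_pow_self.le
  calc (N : ℝ) * a ^ N * x ^ (N ^ 2) ≤ 2 ^ N * a ^ N * x ^ (N ^ 2) := by gcongr
    _ = (2 * a * x ^ N) ^ N := by
        rw [mul_pow, mul_pow, ← pow_mul, sq]
    _ ≤ (1 / 2) ^ N := by gcongr

end Pool.Agent.Zk24.SL
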