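import Pool.Agent.Zk24.SL.PolE
import Pool.Agent.Zk32.Tl6

/-!
Rational subspaces for invariant measures on which `x ↦ p x` is essentially injective, `p` and `q`
multiplicatively independent.
-/

set_option autoImplicit false

open MeasureTheory Filter Topology Set
open scoped ENNReal

namespace Pool.Agent.Zk24.SL

open Pool.Agent.Zk32 (Fat exists_groupF fat_dirac cir coe_cir cir_meas nsmul_measX)

/-- there is a Borel set of full measure, for all measures in the set, on which `x ↦ p x` is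
injective -/
def InjCar (p : ℕ) (N : Set (Measure TC)) : Prop :=
  ∃ B : Set TC, MeasurableSet B ∧ (∀ ν ∈ N, ν Bᶜ = 0) ∧ InjOn (fun x : TC => p • x) B

lemma essInj_of {p : ℕ} (hp : 2 ≤ p) {μ : Measure TC} {B : Set TC} (hB : MeasurableSet B)
    (h0 : μ Bᶜ = 0) (hinj : InjOn (fun x : TC => p • x) B) : Pool.Agent.W764.FB.EssInj p μ := by
  refine ⟨B, hB, h0, fun x hx k hk1 hkp hmem => ?_⟩
  have hpR : (0 : ℝ) < p := by exact_mod_cast (by omega : 0 < p)
  have h1 : p • (x + Pool.Agent.W764.FB.hh p 1 k) = p • x := by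
    rw [smul_add]
    have : p • Pool.Agent.W764.FB.hh p 1 k = 0 := by
      unfold Pool.Agent.W764.FB.hh
      rw [← AddCircle.coe_nsmul, nsmul_eq_mul, pow_one, mul_div_cancel₀ _ hpR.ne',
        AddCircle.coe_eq_zero_iff]
      exact ⟨k, by simp⟩
    rw [this, add_zero]
  have h2 := hinj hmem hx h1
  have h3 : Pool.Agent.W764.FB.hh p 1 k = 0 := by
    have := h2
    rwa [add_eq_left] at this
  unfold Pool.Agent.W764.FB.hh at h3
  rw [pow_one, AddCircle.coe_eq_zero_iff] at h3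
  obtain ⟨n, hn⟩ := h3
  rw [zsmul_eq_mul, mul_one, eq_div_iff hpR.ne'] at hn
  have h4 : n * (p : ℤ) = k := by exact_mod_cast hn
  have h5 : (p : ℤ) ∣ k := ⟨n, by rw [← h4]; ring⟩
  have h6 := Int.natCast_dvd_natCast.1 h5
  exact absurd (Nat.le_of_dvd (by omega) h6) (by omega)

/-- a mean of countably many measures -/
lemma exists_mean_gen {p q : ℕ} {N : Set (Measure TC)} (hN : N.Countable) (hne : N.Nonempty)
    (h : ∀ ν ∈ N, IsProbabilityMeasure ν ∧ MeasurePreserving (fun x : TC => p • x) ν ν ∧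
      MeasurePreserving (fun x : TC => q • x) ν ν) :
    ∃ μ : Measure TC, IsProbabilityMeasure μ ∧ MeasurePreserving (fun x : TC => p • x) μ μ ∧
      MeasurePreserving (fun x : TC => q • x) μ μ ∧ (∀ ν ∈ N, ν ≪ μ) ∧
      (∀ B : Set TC, MeasurableSet B → (∀ ν ∈ N, ν B = 0) → μ B = 0) ∧
      ((∀ ν ∈ N, ν ⟂ₘ (volume : Measure TC)) → μ ⟂ₘ (volume : Measure TC)) := by
  obtain ⟨f, hf⟩ := hN.exists_eq_range hne
  have hfN : ∀ i, f i ∈ N := fun i => hf ▸ mem_range_self i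
  have hc : ∀ i : ℕ, ((2 : ℝ≥0∞)⁻¹ ^ (i + 1)) ≠ 0 := fun i => by simp
  have hmp : ∀ n : ℕ, (∀ i, MeasurePreserving (fun x : TC => n • x) (f i) (f i)) →
      MeasurePreserving (fun x : TC => n • x)
        (Measure.sum fun i : ℕ => ((2 : ℝ≥0∞)⁻¹ ^ (i + 1)) • f i)
        (Measure.sum fun i : ℕ => ((2 : ℝ≥0∞)⁻¹ ^ (i + 1)) • f i) := by
    intro n hn
    have hm : Measurable fun x : TC => n • x := (continuous_nsmul n).measurable
    refine ⟨hm, ?_⟩
    ext A hA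
    rw [Measure.map_apply hm hA, Measure.sum_apply _ (hm hA), Measure.sum_apply _ hA]
    refine tsum_congr fun i => ?_
    rw [Measure.smul_apply, Measure.smul_apply, (hn i).measure_preimage hA.nullMeasurableSet]
  refine ⟨Measure.sum fun i : ℕ => ((2 : ℝ≥0∞)⁻¹ ^ (i + 1)) • f i, ⟨?_⟩,
    hmp p fun i => (h _ (hfN i)).2.1, hmp q fun i => (h _ (hfN i)).2.2, ?_, ?_, ?_⟩
  · rw [Measure.sum_apply _ MeasurableSet.univ]
    have h1 : ∀ i : ℕ, (((2 : ℝ≥0∞)⁻¹ ^ (i + 1)) • f i) univ = (2 : ℝ≥0∞)⁻¹ ^ (i + 1) := by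
      intro i
      have := (h _ (hfN i)).1
      rw [Measure.smul_apply, measure_univ, smul_eq_mul, mul_one]
    simp_rw [h1]
    rw [ENNReal.tsum_geometric_add_one, ENNReal.one_sub_inv_two, inv_inv]
    exact ENNReal.inv_mul_cancel (by norm_num) (by norm_num)
  · intro ν hν
    rw [hf] at hν
    obtain ⟨i, rfl⟩ := hν
    intro A hA
    have h1 : (((2 : ℝ≥0∞)⁻¹ ^ (i + 1)) • f i) A ≤
        (Measure.sum fun i : ℕ => ((2 : ℝ≥0∞)⁻¹ ^ (i + 1)) • f i) A :=
      Measure.le_sum (fun i : ℕ => ((2 : ℝ≥0∞)⁻¹ ^ (i + 1)) • f i) i A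
    rw [hA, Measure.smul_apply, smul_eq_mul] at h1
    exact (mul_eq_zero.1 (le_antisymm h1 zero_le)).resolve_left (hc i)
  · intro B hB h0
    rw [Measure.sum_apply _ hB]
    simp only [Measure.smul_apply, h0 _ (hfN _), smul_zero, tsum_zero]
  · intro hs
    rw [Measure.MutuallySingular.sum_left]
    exact fun i => (hs _ (hfN i)).smul _

/-- essential injectivity, from coprimality and singularity or from a common carrier -/
lemma essInj_mean {p q : ℕ} (hp : 2 ≤ p) (hq : 2 ≤ q) {N : Set (Measure TC)}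
    (hor : (Nat.Coprime p q ∧ ∀ ν ∈ N, ν ⟂ₘ (volume : Measure TC)) ∨
      (Irrational (Real.log p / Real.log q) ∧ InjCar p N))
    {μ : Measure TC} [IsProbabilityMeasure μ]
    (hμp : MeasurePreserving (fun x : TC => p • x) μ μ)
    (hμq : MeasurePreserving (fun x : TC => q • x) μ μ)
    (h1 : ∀ B : Set TC, MeasurableSet B → (∀ ν ∈ N, ν B = 0) → μ B = 0)
    (h2 : (∀ ν ∈ N, ν ⟂ₘ (volume : Measure TC)) → μ ⟂ₘ (volume : Measure TC)) :
    Pool.Agent.W764.FB.EssInj p μ := by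
  rcases hor with ⟨hpq, hs⟩ | ⟨-, B, hB, hB0, hinj⟩
  · exact essInj hp hq hpq hμp hμq (h2 hs)
  · exact essInj_of hp hB (h1 _ hB.compl hB0) hinj

/-- one measure which dominates the given measures -/
lemma exists_dom {p q : ℕ} (hp : 2 ≤ p) (hq : 2 ≤ q) {N : Set (Measure TC)} (hN : N.Countable)
    (h : ∀ ν ∈ N, IsProbabilityMeasure ν ∧ MeasurePreserving (fun x : TC => p • x) ν ν ∧
      MeasurePreserving (fun x : TC => q • x) ν ν)
    (hor : (Nat.Coprime p q ∧ ∀ ν ∈ N, ν ⟂ₘ (volume : Measure TC)) ∨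
      (Irrational (Real.log p / Real.log q) ∧ InjCar p N)) :
    ∃ μ : Measure TC, IsProbabilityMeasure μ ∧ MeasurePreserving (fun x : TC => p • x) μ μ ∧
      MeasurePreserving (fun x : TC => q • x) μ μ ∧ (∀ ν ∈ N, ν ≪ μ) ∧
      Pool.Agent.W764.FB.EssInj p μ := by
  rcases N.eq_empty_or_nonempty with rfl | hne
  · have hd : ∀ r : ℕ, MeasurePreserving (fun x : TC => r • x) (Measure.dirac (0 : TC))
        (Measure.dirac (0 : TC)) := fun r =>
      ⟨nsmul_measX r, by rw [Measure.map_dirac' (nsmul_measX r), smul_zero]⟩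
    refine ⟨Measure.dirac (0 : TC), inferInstance, hd p, hd q, fun ν hν => hν.elim, ?_⟩
    refine essInj_of hp (measurableSet_singleton (0 : TC)) ?_ ?_
    · rw [Measure.dirac_apply' _ (measurableSet_singleton _).compl]
      simp
    · intro x hx y hy _
      rw [mem_singleton_iff.1 hx, mem_singleton_iff.1 hy]
  · obtain ⟨μ, hμ, hμp, hμq, hac, h1, h2⟩ := exists_mean_gen hN hne h
    exact ⟨μ, hμ, hμp, hμq, hac, essInj_mean hp hq hor hμp hμq h1 h2⟩

/-- **A rational subspace which carries countably many invariant measures and is avoided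
by countably many fat measures.** -/
theorem exists_linG {p q : ℕ} (hp : 2 ≤ p) (hq : 2 ≤ q)
    {N : Set (Measure TC)} (hN : N.Countable)
    (h : ∀ ν ∈ N, IsProbabilityMeasure ν ∧ MeasurePreserving (fun x : TC => p • x) ν ν ∧
      MeasurePreserving (fun x : TC => q • x) ν ν)
    (hor : (Nat.Coprime p q ∧ ∀ ν ∈ N, ν ⟂ₘ (volume : Measure TC)) ∨
      (Irrational (Real.log p / Real.log q) ∧ InjCar p N))
    {η : ℕ → Measure TC} (hη : ∀ l, IsFiniteMeasure (η l))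
    (hfat : ∀ l, Fat p q (η l)) :
    ∃ L : Submodule ℚ ℝ, (∃ F : ℕ → Set ℝ, (∀ k, IsClosed (F k)) ∧ (L : Set ℝ) = ⋃ k, F k) ∧
      (1 : ℝ) ∈ L ∧ (∀ ν ∈ N, ∀ᵐ x ∂ν, ∀ X : ℝ, (X : TC) = x → X ∈ L) ∧
      ∀ l, η l (cir L) = 0 := by
  obtain ⟨μ, hμ, hμp, hμq, hac, hE⟩ := exists_dom hp hq hN h hor
  obtain ⟨H, hH, hH1, hH2⟩ := exists_groupF (q := q) hp hμp hμq hE
    (η := fun k => (η (Nat.unpair k).1).map fun x => ((Nat.unpair k).2 + 1) • x)
    (fun k => by
      have := hη (Nat.unpair k).1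
      exact Measure.isFiniteMeasure_map _ _)
    (fun k => (hfat _).map (Nat.succ_ne_zero _))
  have hHm : MeasurableSet (H : Set TC) := by
    obtain ⟨C, hC, e⟩ := hH
    rw [e]
    exact MeasurableSet.iUnion fun k => (hC k).measurableSet
  refine ⟨lin H, lin_closed hH, lin_one H, ?_, ?_⟩
  · intro ν hν
    have h1 : ∀ᵐ x ∂ν, x ∈ H := by
      have h2 := hac ν hν hH1
      rw [← mem_ae_iff] at h2
      exact h2
    filter_upwards [h1] with x hx X hX
    refine ⟨1, one_pos, ?_⟩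
    rw [Nat.cast_one, one_mul, hX]
    exact hx
  · intro l
    refine measure_mono_null (t := ⋃ k : ℕ, (fun x => (k + 1) • x) ⁻¹' (H : Set TC)) ?_
      (measure_iUnion_null fun k => ?_)
    · rintro w ⟨X, rfl, n, hn, hX⟩
      refine mem_iUnion.2 ⟨n - 1, ?_⟩
      show (n - 1 + 1) • (X : TC) ∈ H
      rw [Nat.sub_add_cancel hn, ← AddCircle.coe_nsmul, nsmul_eq_mul]
      exact hX
    · have h1 := hH2 (Nat.pair l k)
      simp only [Nat.unpair_pair] at h1
      rwa [Measure.map_apply (nsmul_measX _) hHm] at h1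

/-- the same with the numbers of a countable set -/
theorem exists_linGK {p q : ℕ} (hp : 2 ≤ p) (hq : 2 ≤ q) {K : Set ℝ} (hK : K.Countable)
    {N : Set (Measure TC)} (hN : N.Countable)
    (h : ∀ ν ∈ N, IsProbabilityMeasure ν ∧ MeasurePreserving (fun x : TC => p • x) ν ν ∧
      MeasurePreserving (fun x : TC => q • x) ν ν)
    (hor : (Nat.Coprime p q ∧ ∀ ν ∈ N, ν ⟂ₘ (volume : Measure TC)) ∨
      (Irrational (Real.log p / Real.log q) ∧ InjCar p N))
    {ω : ℕ → Measure TC} (hω : ∀ l, IsProbabilityMeasure (ω l))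
    (hfat : ∀ l, Fat p q (ω l)) :
    ∃ L : Submodule ℚ ℝ, (∃ F : ℕ → Set ℝ, (∀ k, IsClosed (F k)) ∧ (L : Set ℝ) = ⋃ k, F k) ∧
      (1 : ℝ) ∈ L ∧ (∀ ν ∈ N, ∀ᵐ x ∂ν, ∀ X : ℝ, (X : TC) = x → X ∈ L) ∧
      (∀ l, ω l (cir L) = 0) ∧ ∀ x ∈ L, x ∈ K → ∃ a : ℚ, x = a := by
  have hirr : Irrational (Real.log p / Real.log q) := by
    rcases hor with ⟨hpq, -⟩ | ⟨hirr, -⟩
    · exact Pool.Agent.Zk24.SC.irr_of_coprime hp hq hpq
    · exact hirr
  -- an enumeration of the irrational numbers in the set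
  set I : Set ℝ := {x | x ∈ K ∧ Irrational x} ∪ {√2} with hI
  have hIc : I.Countable := (hK.mono fun x hx => hx.1).union (countable_singleton _)
  obtain ⟨f, hf⟩ := hIc.exists_eq_range ⟨√2, Or.inr rfl⟩
  have hfi : ∀ k, Irrational (f k) := by
    intro k
    have h1 : f k ∈ I := hf ▸ mem_range_self k
    rcases h1 with h1 | h1
    · exact h1.2
    · rw [mem_singleton_iff.1 h1]
      exact irrational_sqrt_two
  have hft : ∀ k, ¬ IsOfFinAddOrder ((f k : ℝ) : TC) := by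
    intro k hfin
    obtain ⟨a, ha⟩ := rat_of_torsion hfin
    exact hfi k ⟨a, ha.symm⟩
  obtain ⟨L, hLc, hL1, hLN, hLη⟩ := exists_linG hp hq hN h hor
    (η := fun k => if Even k then ω (k / 2) else Measure.dirac ((f (k / 2) : ℝ) : TC))
    (fun k => by
      show IsFiniteMeasure (if Even k then ω (k / 2) else _)
      split_ifs
      · have := hω (k / 2)
        infer_instance
      · infer_instance)
    (fun k => by
      show Fat p q (if Even k then ω (k / 2) else _)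
      split_ifs
      · exact hfat _
      · exact fat_dirac hp hq hirr (hft _))
  refine ⟨L, hLc, hL1, hLN, fun l => ?_, fun x hx hxK => ?_⟩
  · have h1 := hLη (2 * l)
    rw [if_pos (even_two_mul l), Nat.mul_div_cancel_left l two_pos] at h1
    exact h1
  · by_contra hne
    have hi : Irrational x := fun ⟨a, ha⟩ => hne ⟨a, ha.symm⟩
    have hxI : x ∈ range f := hf ▸ (Or.inl ⟨hxK, hi⟩ : x ∈ I)
    obtain ⟨k, rfl⟩ := hxI
    have h1 := hLη (2 * k + 1)
    have h2 : ¬ Even (2 * k + 1) := by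
      rw [Nat.not_even_iff_odd]
      exact ⟨k, rfl⟩
    have h3 : (2 * k + 1) / 2 = k := by omega
    rw [if_neg h2, h3] at h1
    have hm : MeasurableSet (cir L) := cir_meas hL1 (meas_of_closed hLc)
    change Measure.dirac _ (cir L) = 0 at h1
    rw [Measure.dirac_apply' _ hm, indicator_of_mem ((coe_cir hL1 _).2 hx)] at h1
    exact one_ne_zero h1

/-- **Rational subspaces of dimension zero.** -/
theorem exists_linGD {p q : ℕ} (hp : 2 ≤ p) (hq : 2 ≤ q) {K : Set ℝ} (hK : K.Countable)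
    {N : Set (Measure TC)} (hN : N.Countable)
    (h : ∀ ν ∈ N, IsProbabilityMeasure ν ∧ MeasurePreserving (fun x : TC => p • x) ν ν ∧
      MeasurePreserving (fun x : TC => q • x) ν ν)
    (hor : (Nat.Coprime p q ∧ ∀ ν ∈ N, ν ⟂ₘ (volume : Measure TC)) ∨
      (Irrational (Real.log p / Real.log q) ∧ InjCar p N))
    {ω : ℕ → Measure TC} (hω : ∀ l, IsProbabilityMeasure (ω l))
    (hfat : ∀ l, Fat p q (ω l)) :
    ∃ L : Submodule ℚ ℝ, (∃ F : ℕ → Set ℝ, (∀ k, IsClosed (F k)) ∧ (L : Set ℝ) = ⋃ k, F k) ∧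
      dimH (L : Set ℝ) = 0 ∧
      (1 : ℝ) ∈ L ∧ (∀ ν ∈ N, ∀ᵐ x ∂ν, ∀ X : ℝ, (X : TC) = x → X ∈ L) ∧
      (∀ l, ω l (cir L) = 0) ∧ ∀ x ∈ L, x ∈ K → ∃ a : ℚ, x = a := by
  obtain ⟨L₁, hLc, hL1, hLN, hLω, hLK⟩ := exists_linGK hp hq hK hN h hor hω hfat
  obtain ⟨μ, hμ, hμp, hμq, hac, hE⟩ := exists_dom hp hq hN h hor
  obtain ⟨H, ⟨C, hCc, hCd, hHC⟩, hH1⟩ := Pool.Agent.Zk32.exists_groupD hp hμp hE
  obtain ⟨F₁, hF₁, hF₁L⟩ := hLc
  obtain ⟨F₂, hF₂, hF₂L⟩ := lin_closed ⟨C, hCc, hHC⟩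
  refine ⟨L₁ ⊓ lin H, ?_, ?_, ?_, ?_, fun l => ?_, ?_⟩
  · refine ⟨fun k => F₁ (Nat.unpair k).1 ∩ F₂ (Nat.unpair k).2,
      fun k => (hF₁ _).inter (hF₂ _), ?_⟩
    rw [Submodule.coe_inf, hF₁L, hF₂L]
    ext x
    simp only [mem_inter_iff, mem_iUnion]
    constructor
    · rintro ⟨⟨i, hi⟩, j, hj⟩
      exact ⟨Nat.pair i j, by rw [Nat.unpair_pair]; exact ⟨hi, hj⟩⟩
    · rintro ⟨k, hi, hj⟩
      exact ⟨⟨_, hi⟩, _, hj⟩
  · refine le_antisymm ((dimH_mono ?_).trans (Pool.Agent.Zk32.dimH_lin hCd hHC).le) zero_le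
    rw [Submodule.coe_inf]
    exact inter_subset_right
  · exact ⟨hL1, lin_one H⟩
  · intro ν hν
    have h1 : ∀ᵐ x ∂ν, x ∈ H := by
      have h2 := hac ν hν hH1
      rw [← mem_ae_iff] at h2
      exact h2
    filter_upwards [h1, hLN ν hν] with x hx hx1 X hX
    refine ⟨hx1 X hX, 1, one_pos, ?_⟩
    rw [Nat.cast_one, one_mul, hX]
    exact hx
  · refine measure_mono_null ?_ (hLω l)
    rintro w ⟨T, hT, hTL⟩
    exact ⟨T, hT, hTL.1⟩
  · intro x hx hxK
    exact hLK x hx.1 hxK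

end Pool.Agent.Zk24.SL
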