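import Pool.Agent.Zk24.SL.Lin

/-!
Laws which give no mass to the translates of the rational subspaces.
-/

set_option autoImplicit false

open MeasureTheory Filter Topology Set
open scoped ENNReal

namespace Pool.Agent.Zk24.SL

universe u

/-- a driven vector, an affine function with an affine relation at the returns -/
theorem driven_zero {Ω : Type u} [MeasurableSpace Ω] {d : ℕ} {P : Measure Ω} {S : Ω → Ω}
    {X : Ω → Fin d → ℝ} (h : Driven P S X) {E : Set Ω} (hE : MeasurableSet E)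
    {a : Fin d → ℚ} {β : ℚ} (hab : a ≠ 0 ∨ β ≠ 0)
    (hrel : ∀ (ω ω' : Ω) (R : ℚ) (v : Fin d → ℚ), R ≠ 0 → (∀ i, X ω' i = R * X ω i + v i) →
      ω ∈ E → ω' ∈ E →
      ∑ i, (a i : ℝ) * X ω' i + β = R * (∑ i, (a i : ℝ) * X ω i + β)) : P E = 0 := by
  obtain ⟨hS, hX, ⟨r, e, hr, hre, hlog⟩, hat⟩ := h
  have hXi : ∀ i, Measurable fun ω => X ω i := fun i => (measurable_pi_apply i).comp hX
  have hall : ∀ᵐ ω ∂P, ∀ k : ℕ, (∏ j ∈ Finset.range k, r (S^[j] ω)) ≠ 0 ∧
      ∃ v : Fin d → ℚ, ∀ i, X (S^[k] ω) i =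
        ((∏ j ∈ Finset.range k, r (S^[j] ω) : ℚ) : ℝ) * X ω i + v i := by
    have h1 : ∀ᵐ ω ∂P, ∀ k : ℕ, r (S^[k] ω) ≠ 0 ∧
        ∀ i, X (S (S^[k] ω)) i = r (S^[k] ω) * X (S^[k] ω) i + e (S^[k] ω) i :=
      ae_all_iff.2 fun k => (hS.toQuasiMeasurePreserving.iterate k).ae hre
    filter_upwards [h1] with ω hω k
    induction k with
    | zero => exact ⟨by simp, 0, by simp⟩
    | succ k ih =>
      obtain ⟨ih1, v, ih2⟩ := ih
      obtain ⟨g1, g2⟩ := hω k
      refine ⟨?_, fun i => r (S^[k] ω) * v i + e (S^[k] ω) i, fun i => ?_⟩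
      · rw [Finset.prod_range_succ]
        exact mul_ne_zero ih1 g1
      · rw [Function.iterate_succ_apply', g2, ih2, Finset.prod_range_succ]
        push_cast
        ring
  refine cons_null hS hE (Y := fun ω => ∑ i, (a i : ℝ) * X ω i + β)
    (R := fun k ω => ((∏ j ∈ Finset.range k, r (S^[j] ω) : ℚ) : ℝ)) ?_ ?_ ?_ ?_ ?_
  · exact (Finset.measurable_sum _ fun i _ => (hXi i).const_mul _).add_const _
  · by_cases ha : a = 0
    · have hb : β ≠ 0 := hab.resolve_left (fun h => h ha)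
      refine Eventually.of_forall fun ω => ?_
      rw [ha]
      simpa using hb
    · have h2 : ∀ᵐ ω ∂P, ω ∉ {ω | ∑ i, (a i : ℝ) * X ω i = ((-β : ℚ) : ℝ)} :=
        measure_eq_zero_iff_ae_notMem.1 (hat a (-β) ha)
      filter_upwards [h2] with ω hω h0
      apply hω
      show ∑ i, (a i : ℝ) * X ω i = ((-β : ℚ) : ℝ)
      push_cast
      linarith
  · intro k
    have h1 : Measurable fun ω => ∏ j ∈ Finset.range k, r (S^[j] ω) :=
      Finset.measurable_prod _ fun j _ => hr.comp (hS.measurable.iterate j)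
    exact (measurable_from_top (f := fun x : ℚ => (x : ℝ))).comp h1
  · filter_upwards [hlog] with ω hω
    refine hω.congr fun k => ?_
    push_cast
    rfl
  · filter_upwards [hall] with ω hω k h1 h2
    obtain ⟨g1, v, g2⟩ := hω k
    exact hrel ω _ _ v g1 g2 h1 h2

/-- the null translates: irrational linear combinations of the coordinates -/
theorem driven_irr {Ω : Type u} [MeasurableSpace Ω] {d : ℕ} {P : Measure Ω} {S : Ω → Ω}
    {X : Ω → Fin d → ℝ} (h : Driven P S X) {K : Subfield ℝ} {L : Submodule ℚ ℝ}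
    (hL : MeasurableSet (L : Set ℝ)) (hLK : ∀ x ∈ L, x ∈ K → ∃ a : ℚ, x = a)
    {τ : Fin d → ℝ} (hτK : ∀ i, τ i ∈ K) (hτ : ¬ ∀ i, ∃ a : ℚ, τ i = a) (t : ℝ) :
    P {ω | ∑ i, τ i * X ω i + t ∈ L} = 0 := by
  obtain ⟨a, ha, hβ⟩ := rel_lin hLK hτK hτ
  obtain ⟨β, hβ⟩ := hβ t
  have hXi : ∀ i, Measurable fun ω => X ω i := fun i => (measurable_pi_apply i).comp h.2.1
  refine driven_zero h (((Finset.measurable_sum _ fun i _ => (hXi i).const_mul _).add_const _) hL)
    (a := a) (β := β) (Or.inl ha) fun ω ω' R v hR hv hω hω' => hβ _ _ R v hR hv hω hω'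

/-- the null translates: rational linear combinations of the coordinates -/
theorem driven_rat {Ω : Type u} [MeasurableSpace Ω] {d : ℕ} {P : Measure Ω} {S : Ω → Ω}
    {X : Ω → Fin d → ℝ} (h : Driven P S X) {K : Subfield ℝ} {L : Submodule ℚ ℝ}
    (hL : MeasurableSet (L : Set ℝ)) (hL1 : (1 : ℝ) ∈ L)
    (hLK : ∀ x ∈ L, x ∈ K → ∃ a : ℚ, x = a)
    {τ : Fin d → ℝ} (hτ : ∀ i, ∃ a : ℚ, τ i = a) {t : ℝ} (htK : t ∈ K)
    (ht : ¬ ∃ b : ℚ, t = b) :
    P {ω | ∑ i, τ i * X ω i + t ∈ L} = 0 := by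
  have hXi : ∀ i, Measurable fun ω => X ω i := fun i => (measurable_pi_apply i).comp h.2.1
  refine driven_zero h (((Finset.measurable_sum _ fun i _ => (hXi i).const_mul _).add_const _) hL)
    (a := 0) (β := 1) (Or.inr one_ne_zero) fun ω ω' R v hR hv hω hω' => ?_
  have hrat : ∀ b : ℚ, (b : ℝ) ∈ L := by
    intro b
    have := L.smul_mem b hL1
    rwa [Rat.smul_def, mul_one] at this
  have hR1 : R = 1 := by
    by_contra hne
    have h1 : ∑ i, τ i * v i + (1 - (R : ℝ)) * t ∈ L := by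
      have h2 : ∑ i, τ i * v i + (1 - (R : ℝ)) * t =
          (∑ i, τ i * X ω' i + t) - R • (∑ i, τ i * X ω i + t) := by
        have h3 : ∑ i, τ i * X ω' i = (R : ℝ) * ∑ i, τ i * X ω i + ∑ i, τ i * v i := by
          rw [Finset.mul_sum, ← Finset.sum_add_distrib]
          refine Finset.sum_congr rfl fun i _ => ?_
          rw [hv]
          ring
        rw [h3, Rat.smul_def]
        ring
      rw [h2]
      exact L.sub_mem hω' (L.smul_mem R hω)
    have h4 : ∑ i, τ i * v i ∈ L := by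
      choose c hc using hτ
      have : ∑ i, τ i * v i = ((∑ i, c i * v i : ℚ) : ℝ) := by
        push_cast
        refine Finset.sum_congr rfl fun i _ => ?_
        rw [hc]
      rw [this]
      exact hrat _
    have h5 : (1 - (R : ℝ)) * t ∈ L := by
      have := L.sub_mem h1 h4
      rwa [add_sub_cancel_left] at this
    have hR' : (1 - R : ℚ) ≠ 0 := fun h => hne (by linarith)
    have h6 : t ∈ L := by
      have h7 := L.smul_mem ((1 - R)⁻¹ : ℚ) h5
      rw [Rat.smul_def] at h7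
      have hR'' : (1 - (R : ℝ)) ≠ 0 := by exact_mod_cast hR'
      have h8 : (((1 - R)⁻¹ : ℚ) : ℝ) * ((1 - (R : ℝ)) * t) = t := by
        push_cast
        field_simp
      rwa [h8] at h7
    exact ht (hLK t h6 htK)
  rw [hR1]
  simp

/-- recurrence under translations by irrational numbers of `K` -/
theorem rec_null {Ω : Type u} [MeasurableSpace Ω] {P : Measure Ω} {Y : Ω → ℝ}
    {K : Subfield ℝ} {L : Submodule ℚ ℝ}
    (hL : MeasurableSet (L : Set ℝ)) (hLK : ∀ x ∈ L, x ∈ K → ∃ a : ℚ, x = a)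
    (hY : ∀ E : Set ℝ, MeasurableSet E → P {ω | Y ω ∈ E} ≠ 0 →
      ∃ θ ∈ K, Irrational θ ∧ P {ω | Y ω ∈ E ∧ Y ω + θ ∈ E} ≠ 0) (t : ℝ) :
    P {ω | Y ω + t ∈ L} = 0 := by
  by_contra hne
  have hm : MeasurableSet {x : ℝ | x + t ∈ L} := measurable_add_const t hL
  obtain ⟨θ, hθK, hθ, h1⟩ := hY _ hm hne
  obtain ⟨ω, hω1, hω2⟩ := nonempty_of_measure_ne_zero h1
  have h2 : Y ω + t ∈ L := hω1
  have h3 : Y ω + θ + t ∈ L := hω2
  have h4 : θ ∈ L := by
    have := L.sub_mem h3 h2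
    have e : Y ω + θ + t - (Y ω + t) = θ := by ring
    rwa [e] at this
  obtain ⟨a, ha⟩ := hLK θ h4 hθK
  exact hθ ⟨a, ha.symm⟩

end Pool.Agent.Zk24.SL
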