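import Pool.Agent.Zk24.SL.Avoid

/-!
Laws of stationary sequences driven by affine maps with rational slopes, multiplied by irrational
numbers.
-/

set_option autoImplicit false
set_option linter.unusedSectionVars false

open MeasureTheory Filter Topology Set
open scoped ENNReal

namespace Pool.Agent.Zk24.SL

universe u

variable {Ω : Type u} [MeasurableSpace Ω] {P : Measure Ω} [IsProbabilityMeasure P]
  {S : Ω → Ω} {X : Ω → ℝ} {r : Ω → ℚ} {e : Ω → ℝ} {F : Submodule ℚ ℝ} {Z : ℕ → Ω → ℝ → ℝ}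

lemma Z_affine (h0 : ∀ ω z, Z 0 ω z = z)
    (h1 : ∀ k ω z, Z (k + 1) ω z = r (S^[k] ω) * Z k ω z + e (S^[k] ω)) (k : ℕ) (ω : Ω) (z : ℝ) :
    Z k ω z = ((∏ j ∈ Finset.range k, r (S^[j] ω) : ℚ) : ℝ) * z + Z k ω 0 := by
  induction k with
  | zero => simp [h0]
  | succ k ih =>
    rw [h1, ih, h1 k ω 0, Finset.prod_range_succ]
    push_cast
    ring

lemma Z_ae (hS : MeasurePreserving S P P)
    (hX : ∀ᵐ ω ∂P, r ω ≠ 0 ∧ e ω ∈ F ∧ X (S ω) = r ω * X ω + e ω) (h0 : ∀ ω z, Z 0 ω z = z)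
    (h1 : ∀ k ω z, Z (k + 1) ω z = r (S^[k] ω) * Z k ω z + e (S^[k] ω)) :
    ∀ᵐ ω ∂P, ∀ k : ℕ, (∏ j ∈ Finset.range k, r (S^[j] ω)) ≠ 0 ∧ Z k ω 0 ∈ F ∧
      X (S^[k] ω) = Z k ω (X ω) := by
  have hall : ∀ᵐ ω ∂P, ∀ k : ℕ, r (S^[k] ω) ≠ 0 ∧ e (S^[k] ω) ∈ F ∧
      X (S (S^[k] ω)) = r (S^[k] ω) * X (S^[k] ω) + e (S^[k] ω) :=
    ae_all_iff.2 fun k => (hS.iterate k).quasiMeasurePreserving.ae hX
  filter_upwards [hall] with ω hω k
  induction k with
  | zero => simp [h0, F.zero_mem]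
  | succ k ih =>
    obtain ⟨ih1, ih2, ih3⟩ := ih
    obtain ⟨g1, g2, g3⟩ := hω k
    refine ⟨?_, ?_, ?_⟩
    · rw [Finset.prod_range_succ]
      exact mul_ne_zero ih1 g1
    · rw [h1]
      refine F.add_mem ?_ g2
      have := F.smul_mem (r (S^[k] ω)) ih2
      rwa [Rat.smul_def] at this
    · rw [Function.iterate_succ_apply', g3, h1, ih3]

/-- the main step: one affine map -/
theorem step (hS : MeasurePreserving S P P) (hXm : Measurable X)
    (hX : ∀ᵐ ω ∂P, r ω ≠ 0 ∧ e ω ∈ F ∧ X (S ω) = r ω * X ω + e ω) (h0 : ∀ ω z, Z 0 ω z = z)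
    (h1 : ∀ k ω z, Z (k + 1) ω z = r (S^[k] ω) * Z k ω z + e (S^[k] ω))
    (hZ : ∀ z : ℝ, Tendsto (fun k => P {ω | Z k ω z = z}) atTop (𝓝 0)) {τ t : ℝ}
    (hτ : ∀ x ∈ F, ∀ a : ℚ, τ * x = a → x = 0) {A : Set T} (hA : MeasurableSet A)
    (hav : ∀ a b : ℤ, a ≠ 0 → b ≠ 0 → ∀ x ∈ F, ∀ c : ℤ, Irrational (τ * x + c * t) →
      ∀ u ∈ A, ∀ v ∈ A, b • v ≠ a • u + ((τ * x + c * t : ℝ) : T)) :
    P {ω | ((τ * X ω + t : ℝ) : T) ∈ A} = 0 := by
  set E : Set Ω := {ω | ((τ * X ω + t : ℝ) : T) ∈ A} with hE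
  have hEm : MeasurableSet E :=
    (AddCircle.measurable_mk'.comp ((hXm.const_mul τ).add_const t)) hA
  -- the fixed point
  obtain ⟨z0, hz0⟩ : ∃ z0 : ℝ, ∀ x ∈ F, ∀ a : ℚ, τ * x + t = a → x = z0 := by
    by_cases h : ∃ x ∈ F, ∃ a : ℚ, τ * x + t = a
    · obtain ⟨x, hx, a, ha⟩ := h
      refine ⟨x, fun y hy b hb => ?_⟩
      have h2 := hτ (y - x) (F.sub_mem hy hx) (b - a) (by push_cast; rw [← hb, ← ha]; ring)
      linarith
    · exact ⟨0, fun y hy b hb => absurd ⟨y, hy, b, hb⟩ h⟩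
  refine recur hS hEm ?_
  have hle : ∀ k, P (E ∩ S^[k] ⁻¹' E) ≤ P {ω | Z k ω z0 = z0} := by
    intro k
    refine measure_mono_ae ?_
    filter_upwards [Z_ae hS hX h0 h1] with ω hω hωE
    obtain ⟨hω1, hω2⟩ : ω ∈ E ∧ S^[k] ω ∈ E := hωE
    obtain ⟨hr, hF, hXk⟩ := hω k
    show Z k ω z0 = z0
    set R : ℚ := ∏ j ∈ Finset.range k, r (S^[j] ω) with hR
    set f : ℝ := Z k ω 0 with hf
    have haff : ∀ z, Z k ω z = (R : ℝ) * z + f := fun z => Z_affine h0 h1 k ω z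
    have hden : ((R.den : ℤ) : ℝ) ≠ 0 := by exact_mod_cast R.den_ne_zero
    have hRR : (R : ℝ) * (R.den : ℤ) = R.num := by exact_mod_cast Rat.mul_den_eq_num R
    -- the relation
    have hfden : ((R.den : ℤ) : ℝ) * f ∈ F := by
      have := F.smul_mem (R.den : ℚ) hF
      rw [Rat.smul_def] at this
      exact_mod_cast this
    have hrel : (R.den : ℤ) • ((τ * X (S^[k] ω) + t : ℝ) : T) = R.num • ((τ * X ω + t : ℝ) : T) +
        ((τ * (((R.den : ℤ) : ℝ) * f) + ((R.den : ℤ) - R.num : ℤ) * t : ℝ) : T) := by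
      rw [← AddCircle.coe_zsmul, ← AddCircle.coe_zsmul, ← AddCircle.coe_add, zsmul_eq_mul,
        zsmul_eq_mul, hXk, haff]
      congr 1
      push_cast
      have h3 : (R : ℝ) * (R.den : ℝ) = R.num := by exact_mod_cast hRR
      linear_combination (τ * X ω) * h3
    have hnirr : ¬ Irrational (τ * (((R.den : ℤ) : ℝ) * f) + ((R.den : ℤ) - R.num : ℤ) * t) := by
      intro hirr
      exact hav R.num (R.den : ℤ) (Rat.num_ne_zero.2 hr) (by exact_mod_cast R.den_ne_zero) _ hfden _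
        hirr _ hω1 _ hω2 hrel
    rw [Irrational, not_not] at hnirr
    obtain ⟨a, ha⟩ := hnirr
    have hkey : τ * f + (1 - (R : ℝ)) * t = ((a / R.den : ℚ) : ℝ) := by
      push_cast
      rw [ha]
      have hden' : (R.den : ℝ) ≠ 0 := by exact_mod_cast R.den_ne_zero
      rw [eq_div_iff hden']
      have h3 : (R : ℝ) * (R.den : ℝ) = R.num := by exact_mod_cast hRR
      push_cast
      linear_combination (-t) * h3
    by_cases hR1 : R = 1
    · rw [hR1] at hkey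
      have h4 : f = 0 := by
        refine hτ f hF (a / R.den) ?_
        rw [hR1]
        rw [← hkey]
        push_cast
        ring
      rw [haff, hR1, h4]
      push_cast
      ring
    · have hR1' : (1 - R : ℚ) ≠ 0 := fun h => hR1 (by linarith)
      have hR2 : (1 - (R : ℝ)) ≠ 0 := by exact_mod_cast hR1'
      have h5 : f / (1 - (R : ℝ)) ∈ F := by
        have := F.smul_mem ((1 - R)⁻¹ : ℚ) hF
        rw [Rat.smul_def] at this
        push_cast at this
        rw [div_eq_inv_mul]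
        exact this
      have h6 := hz0 _ h5 (a / R.den / (1 - R)) (by
        push_cast
        push_cast at hkey
        rw [← hkey]
        field_simp)
      rw [haff, ← h6]
      field_simp
      ring
  have hz := hZ z0
  have hreal : Tendsto (fun k => (P {ω | Z k ω z0 = z0}).toReal) atTop (𝓝 0) := by
    have := (ENNReal.tendsto_toReal ENNReal.zero_ne_top).comp hz
    simpa [Function.comp_def] using this
  refine squeeze_zero (fun k => measureReal_nonneg) (fun k => ?_) hreal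
  exact ENNReal.toReal_mono (measure_ne_top _ _) (hle k)

end Pool.Agent.Zk24.SL
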