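import Mathlib

/-!
Polynomials and rational homotheties: the substitution `x ↦ R x + v`.
-/

set_option autoImplicit false

open MvPolynomial

namespace Pool.Agent.Zk24.SL

variable {d : ℕ} {A : Type*} [Field A]

/-- the substitution `x ↦ R x + v` -/
noncomputable def tr (R : ℚ) (v : Fin d → ℚ) :
    MvPolynomial (Fin d) A →ₐ[A] MvPolynomial (Fin d) A :=
  aeval fun i => C (R : A) * X i + C (v i : A)

lemma tr_X (R : ℚ) (v : Fin d → ℚ) (i : Fin d) :
    tr R v (X i : MvPolynomial (Fin d) A) = C (R : A) * X i + C (v i : A) := by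
  simp [tr]

lemma tr_C (R : ℚ) (v : Fin d → ℚ) (c : A) :
    tr R v (C c : MvPolynomial (Fin d) A) = C c := by
  simp [tr]

/-- evaluation through a ring homomorphism -/
noncomputable def ev {B : Type*} [CommRing B] (g : A →+* B) (x : Fin d → B) :
    MvPolynomial (Fin d) A →+* B := eval₂Hom g x

lemma ev_C {B : Type*} [CommRing B] (g : A →+* B) (x : Fin d → B) (c : A) :
    ev g x (C c) = g c := by simp [ev]

lemma ev_X {B : Type*} [CommRing B] (g : A →+* B) (x : Fin d → B) (i : Fin d) :
    ev g x (X i) = x i := by simp [ev]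

lemma ev_tr (g : A →+* ℝ) (x : Fin d → ℝ) (R : ℚ) (v : Fin d → ℚ)
    (F : MvPolynomial (Fin d) A) :
    ev g x (tr R v F) = ev g (fun i => R * x i + v i) F := by
  induction F using MvPolynomial.induction_on with
  | C a => rw [tr_C, ev_C, ev_C]
  | add p q hp hq => rw [map_add, map_add, map_add, hp, hq]
  | mul_X p i hp =>
    rw [map_mul, map_mul, map_mul, hp, tr_X, map_add, map_mul, ev_C, ev_X, ev_C, ev_X,
      map_ratCast, map_ratCast]

lemma pderiv_tr (R : ℚ) (v : Fin d → ℚ) (F : MvPolynomial (Fin d) A) (i : Fin d) :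
    pderiv i (tr R v F) = C (R : A) * tr R v (pderiv i F) := by
  induction F using MvPolynomial.induction_on with
  | C a => rw [tr_C, pderiv_C, map_zero, mul_zero]
  | add p q hp hq => rw [map_add, map_add, map_add, map_add, hp, hq, mul_add]
  | mul_X p j hp =>
    classical
    rw [map_mul, pderiv_mul, hp, tr_X, pderiv_mul, map_add, map_add, pderiv_C, pderiv_mul, pderiv_C]
    rw [map_mul, map_mul, tr_X]
    rw [pderiv_X]
    by_cases h : j = i
    · subst h
      simp
      ring
    · have : (Pi.single i (1 : MvPolynomial (Fin d) A) : Fin d → MvPolynomial (Fin d) A) j = 0 :=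
        Pi.single_eq_of_ne h 1
      rw [this]
      simp
      ring

lemma totalDegree_C_mul_le (c : A) (F : MvPolynomial (Fin d) A) :
    (C c * F).totalDegree ≤ F.totalDegree := by
  refine (totalDegree_mul _ _).trans ?_
  rw [totalDegree_C, zero_add]

/-- the step of the degree -/
lemma deg_step (R : ℚ) (v : Fin d → ℚ) (P : MvPolynomial (Fin d) A) (i : Fin d) (k : ℕ)
    (h0 : k = 0 → tr R v P = P) (h1 : (tr R v P).totalDegree ≤ k)
    (h2 : (tr R v P - C ((R : A) ^ k) * P).totalDegree ≤ k - 1) :
    (tr R v (X i * P)).totalDegree ≤ k + 1 ∧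
      (tr R v (X i * P) - C ((R : A) ^ (k + 1)) * (X i * P)).totalDegree ≤ k := by
  have hX : (C (R : A) * X i + C (v i : A) : MvPolynomial (Fin d) A).totalDegree ≤ 1 := by
    refine (totalDegree_add _ _).trans (max_le ?_ ?_)
    · exact (totalDegree_C_mul_le _ _).trans (totalDegree_X i).le
    · rw [totalDegree_C]; exact Nat.zero_le _
  constructor
  · rw [map_mul, tr_X]
    refine (totalDegree_mul _ _).trans ?_
    omega
  · have e : tr R v (X i * P) - C ((R : A) ^ (k + 1)) * (X i * P) =
        C (R : A) * (X i * (tr R v P - C ((R : A) ^ k) * P)) + C (v i : A) * tr R v P := by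
      rw [map_mul, tr_X, pow_succ, C_mul]
      ring
    rw [e]
    refine (totalDegree_add _ _).trans (max_le ?_ ?_)
    · refine (totalDegree_C_mul_le _ _).trans ?_
      rcases Nat.eq_zero_or_pos k with hk | hk
      · rw [h0 hk, hk, pow_zero, C_1, one_mul, sub_self, mul_zero, totalDegree_zero]
      · refine (totalDegree_mul _ _).trans ?_
        have : (X i : MvPolynomial (Fin d) A).totalDegree = 1 := totalDegree_X i
        omega
    · exact (totalDegree_C_mul_le _ _).trans h1

/-- the degree of a monomial after the substitution -/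
lemma deg_monomial (R : ℚ) (v : Fin d → ℚ) (c : A) (k : ℕ) :
    ∀ α : Fin d →₀ ℕ, α.degree = k →
      (k = 0 → tr R v (monomial α c) = monomial α c) ∧
      (tr R v (monomial α c)).totalDegree ≤ k ∧
      (tr R v (monomial α c) - C ((R : A) ^ k) * monomial α c).totalDegree ≤ k - 1 := by
  induction k with
  | zero =>
    intro α hα
    have h0 : α = 0 := (Finsupp.degree_eq_zero_iff α).1 hα
    have h1 : tr R v (monomial α c) = monomial α c := by
      rw [h0]
      exact tr_C R v c
    refine ⟨fun _ => h1, ?_, ?_⟩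
    · rw [h1, h0]
      exact (totalDegree_C (σ := Fin d) c).le
    · rw [h1, pow_zero, C_1, one_mul, sub_self, totalDegree_zero]
  | succ k ih =>
    intro α hα
    have hne : α ≠ 0 := by
      rintro rfl
      simp at hα
    obtain ⟨i, hi⟩ := Finsupp.ne_iff.1 hne
    have hi' : 1 ≤ α i := Nat.one_le_iff_ne_zero.2 (by simpa using hi)
    obtain ⟨β, hβ⟩ : ∃ β : Fin d →₀ ℕ, α = Finsupp.single i 1 + β :=
      ⟨α - Finsupp.single i 1, by
        rw [add_tsub_cancel_of_le]
        exact Finsupp.single_le_iff.2 hi'⟩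
    have hβd : β.degree = k := by
      rw [hβ, map_add, Finsupp.degree_single] at hα
      omega
    obtain ⟨g1, g2, g3⟩ := ih β hβd
    have e : (monomial α c : MvPolynomial (Fin d) A) = X i * monomial β c := by
      rw [hβ, X, monomial_mul, one_mul]
    rw [e]
    obtain ⟨g4, g5⟩ := deg_step R v (monomial β c) i k g1 g2 g3
    exact ⟨fun h => absurd h (Nat.succ_ne_zero k), g4, by simpa using g5⟩

/-- the degree after the substitution -/
lemma deg_tr (R : ℚ) (v : Fin d → ℚ) (F : MvPolynomial (Fin d) A) {n : ℕ}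
    (hF : F.totalDegree ≤ n + 1) :
    (tr R v F - C ((R : A) ^ (n + 1)) * F).totalDegree ≤ n := by
  have e : tr R v F - C ((R : A) ^ (n + 1)) * F =
      ∑ α ∈ F.support, (tr R v (monomial α (coeff α F)) -
        C ((R : A) ^ (n + 1)) * monomial α (coeff α F)) := by
    rw [Finset.sum_sub_distrib, ← map_sum, ← Finset.mul_sum, support_sum_monomial_coeff]
  rw [e]
  refine totalDegree_finsetSum_le fun α hα => ?_
  have hd : α.degree ≤ n + 1 := by
    have := le_totalDegree hα
    rw [Finsupp.degree_eq_sum] at *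
    refine le_trans (le_of_eq ?_) (this.trans hF)
    rw [Finsupp.sum_fintype _ _ (fun _ => rfl)]
  obtain ⟨-, h2, h3⟩ := deg_monomial R v (coeff α F) α.degree α rfl
  rcases hd.lt_or_eq with h | h
  · refine (totalDegree_sub _ _).trans (max_le (by omega) ?_)
    refine (totalDegree_C_mul_le _ _).trans ?_
    refine (totalDegree_monomial_le _ _).trans ?_
    rw [Finsupp.sum_fintype _ _ (fun _ => rfl)]
    rw [Finsupp.degree_eq_sum] at h
    simp only [id]
    omega
  · rw [h] at h3
    simpa using h3

lemma deg_pderiv (F : MvPolynomial (Fin d) A) (i : Fin d) {n : ℕ}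
    (hF : F.totalDegree ≤ n + 1) : (pderiv i F).totalDegree ≤ n := by
  refine Finset.sup_le fun β hβ => ?_
  have h1 : coeff (β + Finsupp.single i 1) F ≠ 0 := by
    rw [mem_support_iff, coeff_pderiv] at hβ
    exact left_ne_zero_of_mul hβ
  have h2 := le_totalDegree (mem_support_iff.2 h1)
  rw [Finsupp.sum_fintype _ _ (fun _ => rfl)] at h2 ⊢
  have h3 : ∑ j, (β + Finsupp.single i 1 : Fin d →₀ ℕ) j = ∑ j, β j + 1 := by
    simp only [Finsupp.add_apply, Finset.sum_add_distrib]
    congr 1
    rw [Finset.sum_eq_single i]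
    · simp
    · intro j _ hj
      exact Finsupp.single_eq_of_ne (by simpa using hj)
    · simp
  rw [h3] at h2
  omega

/-- nonconstant polynomials have a nonzero partial derivative -/
lemma exists_pderiv [CharZero A] {F : MvPolynomial (Fin d) A}
    (h : ∃ α : Fin d →₀ ℕ, α ≠ 0 ∧ coeff α F ≠ 0) : ∃ i, pderiv i F ≠ 0 := by
  obtain ⟨α, hα, hc⟩ := h
  obtain ⟨i, hi⟩ := Finsupp.ne_iff.1 hα
  have hi' : 1 ≤ α i := Nat.one_le_iff_ne_zero.2 (by simpa using hi)
  refine ⟨i, fun h0 => ?_⟩
  have h1 := congrArg (coeff (α - Finsupp.single i 1)) h0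
  rw [coeff_pderiv, coeff_zero] at h1
  have e : α - Finsupp.single i 1 + Finsupp.single i 1 = α :=
    tsub_add_cancel_of_le (Finsupp.single_le_iff.2 hi')
  rw [e] at h1
  rcases mul_eq_zero.1 h1 with h2 | h2
  · exact hc h2
  · exact Nat.cast_add_one_ne_zero _ h2

end Pool.Agent.Zk24.SL
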