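import Pool.Agent.Zk24.SL.PolA

/-!
Polynomials and rational homotheties: coefficient functionals, affine polynomials.
-/

set_option autoImplicit false

open MvPolynomial

namespace Pool.Agent.Zk24.SL

variable {d : ℕ} {A : Type*} [Field A]

/-- a functional applied to the coefficients -/
noncomputable def cf (φ : A →+ ℚ) (F : MvPolynomial (Fin d) A) : MvPolynomial (Fin d) ℚ :=
  ∑ α ∈ F.support, monomial α (φ (coeff α F))

lemma coeff_cf (φ : A →+ ℚ) (F : MvPolynomial (Fin d) A) (β : Fin d →₀ ℕ) :
    coeff β (cf φ F) = φ (coeff β F) := by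
  classical
  unfold cf
  rw [coeff_sum]
  simp only [coeff_monomial]
  rw [Finset.sum_ite_eq']
  split_ifs with h
  · rfl
  · rw [notMem_support_iff.1 h, map_zero]

lemma cf_add (φ : A →+ ℚ) (F G : MvPolynomial (Fin d) A) : cf φ (F + G) = cf φ F + cf φ G := by
  ext β
  rw [coeff_add, coeff_cf, coeff_cf, coeff_cf, coeff_add, map_add]

lemma cf_sub (φ : A →+ ℚ) (F G : MvPolynomial (Fin d) A) : cf φ (F - G) = cf φ F - cf φ G := by
  ext β
  rw [coeff_sub, coeff_cf, coeff_cf, coeff_cf, coeff_sub, map_sub]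

lemma cf_C_mul_map [CharZero A] (φ : A →+ ℚ) (hφ : ∀ (r : ℚ) (c : A), φ (r * c) = r * φ c) (c : A)
    (h : MvPolynomial (Fin d) ℚ) :
    cf φ (C c * map (Rat.castHom A) h) = C (φ c) * h := by
  ext β
  rw [coeff_cf, coeff_C_mul, coeff_C_mul, coeff_map, mul_comm c, mul_comm (φ c)]
  exact hφ _ _

lemma cf_C_mul (φ : A →+ ℚ) (hφ : ∀ (r : ℚ) (c : A), φ (r * c) = r * φ c) (r : ℚ)
    (F : MvPolynomial (Fin d) A) : cf φ (C (r : A) * F) = C r * cf φ F := by
  ext β
  rw [coeff_cf, coeff_C_mul, coeff_C_mul, coeff_cf]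
  exact hφ _ _

lemma map_tr [CharZero A] (R : ℚ) (v : Fin d → ℚ) (h : MvPolynomial (Fin d) ℚ) :
    tr R v (map (Rat.castHom A) h) = map (Rat.castHom A) (tr R v h) := by
  induction h using MvPolynomial.induction_on with
  | C a => rw [map_C, tr_C, tr_C, map_C]
  | add p q hp hq => rw [map_add, map_add, hp, hq, map_add, map_add]
  | mul_X p i hp =>
    rw [map_mul, map_mul, hp, map_mul, map_mul, map_X, tr_X, tr_X]
    simp

lemma cf_tr [CharZero A] (φ : A →+ ℚ) (hφ : ∀ (r : ℚ) (c : A), φ (r * c) = r * φ c) (R : ℚ)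
    (v : Fin d → ℚ) (F : MvPolynomial (Fin d) A) : cf φ (tr R v F) = tr R v (cf φ F) := by
  induction F using MvPolynomial.induction_on' with
  | monomial u a =>
    have h1 : (monomial u a : MvPolynomial (Fin d) A) =
        C a * map (Rat.castHom A) (monomial u 1 : MvPolynomial (Fin d) ℚ) := by
      rw [map_monomial, C_mul_monomial, map_one, mul_one]
    rw [h1, map_mul, tr_C, map_tr, cf_C_mul_map φ hφ, cf_C_mul_map φ hφ, map_mul, tr_C]
  | add p q hp hq => rw [map_add, cf_add, cf_add, map_add, hp, hq]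

/-- affine polynomials -/
lemma aff {F : MvPolynomial (Fin d) A} (hF : F.totalDegree ≤ 1) :
    F = C (coeff 0 F) + ∑ i, C (coeff (Finsupp.single i 1) F) * X i := by
  classical
  ext β
  rw [coeff_add, coeff_sum, coeff_C]
  simp only [coeff_C_mul, coeff_X, mul_ite, mul_one, mul_zero]
  by_cases h0 : β = 0
  · subst h0
    rw [if_pos rfl, Finset.sum_eq_zero, add_zero]
    intro i _
    rw [if_neg]
    simp
  · rw [if_neg (fun h => h0 h.symm), zero_add]
    by_cases h1 : ∃ i, β = Finsupp.single i 1
    · obtain ⟨i, rfl⟩ := h1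
      rw [Finset.sum_eq_single i]
      · rw [if_pos rfl]
      · intro j _ hj
        rw [if_neg]
        intro h
        exact hj (Finsupp.single_left_injective one_ne_zero h)
      · simp
    · push Not at h1
      rw [Finset.sum_eq_zero (fun i _ => if_neg fun h => h1 i h.symm)]
      by_contra hne
      have h2 := le_totalDegree (mem_support_iff.2 hne)
      rw [Finsupp.sum_fintype _ _ (fun _ => rfl)] at h2
      obtain ⟨i, hi⟩ := Finsupp.ne_iff.1 h0
      have hi' : 1 ≤ β i := Nat.one_le_iff_ne_zero.2 (by simpa using hi)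
      apply h1 i
      have h3 : ∑ j ∈ Finset.univ.erase i, β j + β i ≤ 1 := by
        rw [Finset.sum_erase_add _ _ (Finset.mem_univ i)]
        exact h2.trans hF
      ext j
      rw [Finsupp.single_apply]
      split_ifs with h
      · subst h
        omega
      · have h4 : β j ≤ ∑ j ∈ Finset.univ.erase i, β j :=
          Finset.single_le_sum (f := fun j => β j) (fun _ _ => Nat.zero_le _)
            (Finset.mem_erase.2 ⟨fun h' => h h'.symm, Finset.mem_univ j⟩)
        omega

lemma ev_aff {F : MvPolynomial (Fin d) A} (hF : F.totalDegree ≤ 1) (g : A →+* ℝ)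
    (x : Fin d → ℝ) :
    ev g x F = ∑ i, g (coeff (Finsupp.single i 1) F) * x i + g (coeff 0 F) := by
  conv_lhs => rw [aff hF]
  rw [map_add, ev_C, map_sum, add_comm]
  congr 1
  refine Finset.sum_congr rfl fun i _ => ?_
  rw [map_mul, ev_C, ev_X]

lemma meas_ev {Ω : Type*} [MeasurableSpace Ω] {Y : Ω → Fin d → ℝ} (hY : Measurable Y)
    (g : A →+* ℝ) (F : MvPolynomial (Fin d) A) : Measurable fun ω => ev g (Y ω) F := by
  induction F using MvPolynomial.induction_on with
  | C a => simp only [ev_C]; exact measurable_const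
  | add p q hp hq => simp only [map_add]; exact hp.add hq
  | mul_X p i hp =>
    simp only [map_mul, ev_X]
    exact hp.mul ((measurable_pi_apply i).comp hY)

end Pool.Agent.Zk24.SL
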