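import Pool.Agent.Zk24.SL.PolB
import Pool.Agent.Zk24.SL.LinC

/-!
Polynomial values of driven vectors avoid the rational subspaces.
-/

set_option autoImplicit false

open MeasureTheory Filter Topology Set
open scoped ENNReal

namespace Pool.Agent.Zk24.SL

universe u

/-- a driven vector, a quantity which is multiplied by `R ^ n` at the returns -/
theorem driven_gen {Ω : Type u} [MeasurableSpace Ω] {d : ℕ} {P : Measure Ω} {S : Ω → Ω}
    {X : Ω → Fin d → ℝ} (h : Driven P S X) {E : Set Ω} (hE : MeasurableSet E)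
    {Y : Ω → ℝ} (hY : Measurable Y) (hY0 : ∀ᵐ ω ∂P, Y ω ≠ 0) {n : ℕ} (hn : n ≠ 0)
    (hrel : ∀ᵐ ω ∂P, ∀ (ω' : Ω) (R : ℚ) (v : Fin d → ℚ), R ≠ 0 →
      (∀ i, X ω' i = R * X ω i + v i) → ω ∈ E → ω' ∈ E → Y ω' = (R : ℝ) ^ n * Y ω) : P E = 0 := by
  obtain ⟨hS, hX, ⟨r, e, hr, hre, hlog⟩, hat⟩ := h
  have hXi : ∀ i, Measurable fun ω => X ω i := fun i => (measurable_pi_apply i).comp hX
  have hall : ∀ᵐ ω ∂P, ∀ k : ℕ, (∏ j ∈ Finset.range k, r (S^[j] ω)) ≠ 0 ∧
      ∃ v : Fin d → ℚ, ∀ i, X (S^[k] ω) i =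
        ((∏ j ∈ Finset.range k, r (S^[j] ω) : ℚ) : ℝ) * X ω i + v i := by
    have h1 : ∀ᵐ ω ∂P, ∀ k : ℕ, r (S^[k] ω) ≠ 0 ∧
        ∀ i, X (S (S^[k] ω)) i = r (S^[k] ω) * X (S^[k] ω) i + e (S^[k] ω) i :=
      ae_all_iff.2 fun k => (hS.toQuasiMeasurePreserving.iterate k).ae hre
    filter_upwards [h1] with ω hω k
    induction k with
    | zero => exact ⟨by simp, 0, by simp⟩
    | succ k ih =>
      obtain ⟨ih1, v, ih2⟩ := ih
      obtain ⟨g1, g2⟩ := hω k
      refine ⟨?_, fun i => r (S^[k] ω) * v i + e (S^[k] ω) i, fun i => ?_⟩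
      · rw [Finset.prod_range_succ]
        exact mul_ne_zero ih1 g1
      · rw [Function.iterate_succ_apply', g2, ih2, Finset.prod_range_succ]
        push_cast
        ring
  refine cons_null hS hE hY hY0
    (R := fun k ω => ((∏ j ∈ Finset.range k, r (S^[j] ω) : ℚ) : ℝ) ^ n) ?_ ?_ ?_
  · intro k
    have h1 : Measurable fun ω => ∏ j ∈ Finset.range k, r (S^[j] ω) :=
      Finset.measurable_prod _ fun j _ => hr.comp (hS.measurable.iterate j)
    exact ((measurable_from_top (f := fun x : ℚ => (x : ℝ))).comp h1).pow_const n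
  · filter_upwards [hlog] with ω hω
    have hn' : (0 : ℝ) < n := by exact_mod_cast Nat.pos_of_ne_zero hn
    have h2 : (fun k : ℕ => |Real.log (((∏ j ∈ Finset.range k, r (S^[j] ω) : ℚ) : ℝ) ^ n)|) =
        fun k : ℕ => (n : ℝ) * |Real.log (∏ j ∈ Finset.range k, (r (S^[j] ω) : ℝ))| := by
      funext k
      rw [Real.log_pow, abs_mul, Nat.abs_cast]
      push_cast
      rfl
    rw [h2]
    exact hω.const_mul_atTop hn'
  · filter_upwards [hall, hrel] with ω hω hω' k h1 h2
    obtain ⟨g1, v, g2⟩ := hω k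
    exact hω' _ _ v g1 g2 h1 h2

/-- the relation for a partial derivative -/
lemma chain_rel {d : ℕ} {R : ℚ} (hR : R ≠ 0) {v : Fin d → ℚ} {H : MvPolynomial (Fin d) ℚ}
    {i : Fin d} {n : ℕ}
    (h : MvPolynomial.pderiv i (tr R v H) =
      MvPolynomial.pderiv i (MvPolynomial.C (R ^ (n + 1 + 1)) * H)) :
    tr R v (MvPolynomial.pderiv i H) =
      MvPolynomial.C (R ^ (n + 1)) * MvPolynomial.pderiv i H := by
  rw [pderiv_tr, MvPolynomial.pderiv_C_mul, pow_succ, MvPolynomial.C_mul] at h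
  have hC : (MvPolynomial.C R : MvPolynomial (Fin d) ℚ) ≠ 0 := by
    rw [Ne, MvPolynomial.C_eq_zero]
    exact hR
  apply mul_left_cancel₀ hC
  have h6 : (MvPolynomial.C ((R : ℚ) : ℚ) : MvPolynomial (Fin d) ℚ) *
    tr R v (MvPolynomial.pderiv i H) = _ := h
  rw [h6]
  ring

/-- no rational hypersurface -/
theorem driven_alg {Ω : Type u} [MeasurableSpace Ω] {d : ℕ} {P : Measure Ω} {S : Ω → Ω}
    {X : Ω → Fin d → ℝ} (h : Driven P S X) (n : ℕ) :
    ∀ H : MvPolynomial (Fin d) ℚ, H.totalDegree ≤ n + 1 → H ≠ 0 →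
      ∀ᵐ ω ∂P, ev (Rat.castHom ℝ) (X ω) H ≠ 0 := by
  have hX : Measurable X := h.2.1
  -- affine polynomials
  have haff : ∀ H : MvPolynomial (Fin d) ℚ, H.totalDegree ≤ 1 → H ≠ 0 →
      ∀ᵐ ω ∂P, ev (Rat.castHom ℝ) (X ω) H ≠ 0 := by
    intro H hH hne
    by_cases ha : (fun i => MvPolynomial.coeff (Finsupp.single i 1) H) = 0
    · refine Eventually.of_forall fun ω => ?_
      rw [ev_aff hH]
      have h1 : ∀ i, MvPolynomial.coeff (Finsupp.single i 1) H = 0 := fun i => congrFun ha i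
      simp only [h1, map_zero, zero_mul, Finset.sum_const_zero, zero_add]
      intro h0
      apply hne
      rw [aff hH]
      simp only [h1, map_zero, zero_mul, Finset.sum_const_zero, add_zero]
      have h2 : ((MvPolynomial.coeff 0 H : ℚ) : ℝ) = 0 := h0
      have h3 : MvPolynomial.coeff 0 H = 0 := by exact_mod_cast h2
      rw [h3, map_zero]
    · have h1 := h.2.2.2 _ (-(MvPolynomial.coeff 0 H)) ha
      have h2 := measure_eq_zero_iff_ae_notMem.1 h1
      filter_upwards [h2] with ω hω h0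
      apply hω
      rw [ev_aff hH] at h0
      simp only [Rat.coe_castHom] at h0
      show ∑ i, ((MvPolynomial.coeff (Finsupp.single i 1) H : ℚ) : ℝ) * X ω i = _
      push_cast
      linarith
  induction n with
  | zero => exact haff
  | succ n ih =>
    intro H hH hne
    by_cases hconst : ∃ α : Fin d →₀ ℕ, α ≠ 0 ∧ MvPolynomial.coeff α H ≠ 0
    swap
    · refine haff H ?_ hne
      refine Finset.sup_le fun α hα => ?_
      have h0 : α = 0 := by
        by_contra h0
        exact hconst ⟨α, h0, MvPolynomial.mem_support_iff.1 hα⟩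
      rw [h0]
      simp
    obtain ⟨i, hi⟩ := exists_pderiv hconst
    set E : Set Ω := {ω | ev (Rat.castHom ℝ) (X ω) H = 0} with hE
    have hEm : MeasurableSet E := (meas_ev hX _ H) (measurableSet_singleton 0)
    have hD := ih _ (deg_pderiv H i hH) hi
    have hall : ∀ᵐ ω ∂P, ∀ (R : ℚ) (v : Fin d → ℚ),
        tr R v H - MvPolynomial.C (((R : ℚ) : ℚ) ^ (n + 1 + 1)) * H ≠ 0 →
        ev (Rat.castHom ℝ) (X ω) (tr R v H - MvPolynomial.C (((R : ℚ) : ℚ) ^ (n + 1 + 1)) * H) ≠ 0 := by
      rw [ae_all_iff]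
      intro R
      rw [ae_all_iff]
      intro v
      by_cases h0 : tr R v H - MvPolynomial.C (((R : ℚ) : ℚ) ^ (n + 1 + 1)) * H = 0
      · exact Eventually.of_forall fun ω hω => absurd h0 hω
      · have h1 := deg_tr (A := ℚ) R v H (n := n + 1) hH
        have h2 := ih (tr R v H - MvPolynomial.C (((R : ℚ) : ℚ) ^ (n + 1 + 1)) * H)
          (by simpa using h1) h0
        filter_upwards [h2] with ω hω _
        exact hω
    have hz : P E = 0 := by
      refine driven_gen h hEm (meas_ev hX (Rat.castHom ℝ) (MvPolynomial.pderiv i H)) hD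
        (n := n + 1) (Nat.succ_ne_zero n) ?_
      filter_upwards [hall] with ω hω ω' R v hR hv h1 h2
      have hXω' : X ω' = fun i => (R : ℝ) * X ω i + v i := funext hv
      have h3 : tr R v H - MvPolynomial.C (R ^ (n + 1 + 1)) * H = 0 := by
        by_contra hne'
        refine hω R v hne' ?_
        rw [map_sub, ev_tr, ← hXω', map_mul, ev_C]
        have h4 : ev (Rat.castHom ℝ) (X ω') H = 0 := h2
        have h5 : ev (Rat.castHom ℝ) (X ω) H = 0 := h1
        rw [h4, h5, mul_zero, sub_zero]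
      have h5 := chain_rel hR (congrArg (MvPolynomial.pderiv i) (sub_eq_zero.1 h3))
      have h6 := congrArg (ev (Rat.castHom ℝ) (X ω)) h5
      rw [ev_tr, ← hXω', map_mul, ev_C] at h6
      rw [h6]
      simp
    exact measure_eq_zero_iff_ae_notMem.1 hz

/-- polynomials over `K` with a nonconstant coefficient which is not rational, any translate -/
theorem driven_pol {Ω : Type u} [MeasurableSpace Ω] {d : ℕ} {P : Measure Ω} {S : Ω → Ω}
    {X : Ω → Fin d → ℝ} (h : Driven P S X) {K : Subfield ℝ} {L : Submodule ℚ ℝ}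
    (hL : MeasurableSet (L : Set ℝ)) (hLK : ∀ x ∈ L, x ∈ K → ∃ a : ℚ, x = a) (n : ℕ) :
    ∀ F : MvPolynomial (Fin d) K, F.totalDegree ≤ n + 1 →
      (∃ α : Fin d →₀ ℕ, α ≠ 0 ∧ ¬ ∃ a : ℚ, ((MvPolynomial.coeff α F : K) : ℝ) = a) →
      ∀ t : ℝ, ∀ᵐ ω ∂P, ev K.subtype (X ω) F + t ∉ L := by
  have hX : Measurable X := h.2.1
  induction n with
  | zero =>
    rintro F hF ⟨α, hα, hαi⟩ t
    have h1 : ¬ ∀ i, ∃ a : ℚ, ((MvPolynomial.coeff (Finsupp.single i 1) F : K) : ℝ) = a := by
      intro hall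
      by_cases h2 : ∃ i, α = Finsupp.single i 1
      · obtain ⟨i, rfl⟩ := h2
        exact hαi (hall i)
      · apply hαi
        refine ⟨0, ?_⟩
        have h3 : MvPolynomial.coeff α F = 0 := by
          rw [aff hF, MvPolynomial.coeff_add, MvPolynomial.coeff_sum, MvPolynomial.coeff_C]
          simp only [MvPolynomial.coeff_C_mul]
          classical
          rw [if_neg (fun h => hα h.symm), zero_add, Finset.sum_eq_zero]
          intro i _
          rw [MvPolynomial.coeff_X, if_neg (fun h => h2 ⟨i, h.symm⟩), mul_zero]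
        rw [h3]
        simp
    have h2 := driven_irr h hL hLK (τ := fun i => ((MvPolynomial.coeff (Finsupp.single i 1) F : K) : ℝ))
      (fun i => (MvPolynomial.coeff (Finsupp.single i 1) F : K).2) h1
      (((MvPolynomial.coeff 0 F : K) : ℝ) + t)
    filter_upwards [measure_eq_zero_iff_ae_notMem.1 h2] with ω hω hmem
    apply hω
    rw [ev_aff hF, add_assoc] at hmem
    exact hmem
  | succ n ih =>
    rintro F hF ⟨α, hα, hαi⟩ t
    -- a functional
    have hspan : ((MvPolynomial.coeff α F : K) : ℝ) ∉ Submodule.span ℚ {(1 : ℝ)} := by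
      intro hmem
      obtain ⟨a, ha⟩ := Submodule.mem_span_singleton.1 hmem
      exact hαi ⟨a, by rw [← ha, Rat.smul_def, mul_one]⟩
    obtain ⟨φ, hφ1, hφ2⟩ := Submodule.exists_le_ker_of_notMem hspan
    have hφ0 : ∀ a : ℚ, φ (a : ℝ) = 0 := by
      intro a
      have := hφ2 (Submodule.mem_span_singleton.2 ⟨a, rfl⟩)
      rw [LinearMap.mem_ker, Rat.smul_def, mul_one] at this
      exact this
    set ψ : K →+ ℚ := φ.toAddMonoidHom.comp K.subtype.toAddMonoidHom with hψ
    have hψv : ∀ c : K, ψ c = φ (c : ℝ) := fun c => rfl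
    have hψr : ∀ (r : ℚ) (c : K), ψ (r * c) = r * ψ c := by
      intro r c
      rw [hψv, hψv]
      have e : (((r : K) * c : K) : ℝ) = r • (c : ℝ) := by
        rw [Rat.smul_def]
        push_cast
        rfl
      rw [e, map_smul, smul_eq_mul]
    set G := cf ψ F with hG
    have hGα : ∃ α : Fin d →₀ ℕ, α ≠ 0 ∧ MvPolynomial.coeff α G ≠ 0 :=
      ⟨α, hα, by rw [hG, coeff_cf, hψv]; exact hφ1⟩
    obtain ⟨i, hi⟩ := exists_pderiv hGα
    have hGd : G.totalDegree ≤ n + 1 + 1 := by
      refine Finset.sup_le fun β hβ => ?_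
      have h1 : MvPolynomial.coeff β F ≠ 0 := by
        intro h0
        apply MvPolynomial.mem_support_iff.1 hβ
        rw [hG, coeff_cf, h0, map_zero]
      exact (MvPolynomial.le_totalDegree (MvPolynomial.mem_support_iff.2 h1)).trans hF
    have hD := driven_alg h n _ (deg_pderiv G i hGd) hi
    set E : Set Ω := {ω | ev K.subtype (X ω) F + t ∈ L} with hE
    have hEm : MeasurableSet E := ((meas_ev hX K.subtype F).add_const t) hL
    have hall : ∀ᵐ ω ∂P, ∀ (R : ℚ) (v : Fin d → ℚ),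
        (∃ α : Fin d →₀ ℕ, α ≠ 0 ∧ ¬ ∃ a : ℚ, ((MvPolynomial.coeff α
          (tr R v F - MvPolynomial.C ((R : K) ^ (n + 1 + 1)) * F) : K) : ℝ) = a) →
        ev K.subtype (X ω) (tr R v F - MvPolynomial.C ((R : K) ^ (n + 1 + 1)) * F) +
          (1 - (R : ℝ) ^ (n + 1 + 1)) * t ∉ L := by
      rw [ae_all_iff]
      intro R
      rw [ae_all_iff]
      intro v
      by_cases h0 : ∃ α : Fin d →₀ ℕ, α ≠ 0 ∧ ¬ ∃ a : ℚ, ((MvPolynomial.coeff α
          (tr R v F - MvPolynomial.C ((R : K) ^ (n + 1 + 1)) * F) : K) : ℝ) = a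
      · have h2 := ih _ (deg_tr R v F hF) h0 ((1 - (R : ℝ) ^ (n + 1 + 1)) * t)
        filter_upwards [h2] with ω hω _
        exact hω
      · exact Eventually.of_forall fun ω hω => absurd hω h0
    have hz : P E = 0 := by
      refine driven_gen h hEm (meas_ev hX (Rat.castHom ℝ) (MvPolynomial.pderiv i G)) hD
        (n := n + 1) (Nat.succ_ne_zero n) ?_
      filter_upwards [hall] with ω hω ω' R v hR hv h1 h2
      have hXω' : X ω' = fun i => (R : ℝ) * X ω i + v i := funext hv
      have h4 : ev K.subtype (X ω') F + t ∈ L := h2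
      have h5 : ev K.subtype (X ω) F + t ∈ L := h1
      have h3 : ∀ α : Fin d →₀ ℕ, α ≠ 0 → ∃ a : ℚ, ((MvPolynomial.coeff α
          (tr R v F - MvPolynomial.C ((R : K) ^ (n + 1 + 1)) * F) : K) : ℝ) = a := by
        by_contra hne
        push Not at hne
        obtain ⟨α, hα, hne⟩ := hne
        refine hω R v ⟨α, hα, fun ⟨a, ha⟩ => hne a ha⟩ ?_
        rw [map_sub, ev_tr, ← hXω', map_mul, ev_C]
        have h6 := L.sub_mem h4 (L.smul_mem (R ^ (n + 1 + 1)) h5)
        rw [Rat.smul_def] at h6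
        convert h6 using 1
        rw [map_pow, map_ratCast]
        push_cast
        ring
      have h6 : MvPolynomial.pderiv i (tr R v G) =
          MvPolynomial.pderiv i (MvPolynomial.C (R ^ (n + 1 + 1)) * G) := by
        rw [← sub_eq_zero, ← map_sub]
        have h7 : tr R v G - MvPolynomial.C (R ^ (n + 1 + 1)) * G =
            cf ψ (tr R v F - MvPolynomial.C ((R : K) ^ (n + 1 + 1)) * F) := by
          have e : ((R : K) ^ (n + 1 + 1)) = (((R ^ (n + 1 + 1) : ℚ)) : K) := by push_cast; rfl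
          rw [cf_sub, cf_tr ψ hψr, e, cf_C_mul ψ hψr]
        have h8 : cf ψ (tr R v F - MvPolynomial.C ((R : K) ^ (n + 1 + 1)) * F) =
            MvPolynomial.C (MvPolynomial.coeff 0
              (cf ψ (tr R v F - MvPolynomial.C ((R : K) ^ (n + 1 + 1)) * F))) := by
          classical
          ext β
          rw [MvPolynomial.coeff_C]
          split_ifs with h0
          · rw [← h0]
          · rw [coeff_cf, hψv]
            obtain ⟨a, ha⟩ := h3 β (fun h => h0 h.symm)
            rw [ha, hφ0]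
        rw [h7, h8, MvPolynomial.pderiv_C]
      have h7 := chain_rel hR h6
      have h8 := congrArg (ev (Rat.castHom ℝ) (X ω)) h7
      rw [ev_tr, ← hXω', map_mul, ev_C] at h8
      rw [h8]
      simp
    exact measure_eq_zero_iff_ae_notMem.1 hz

/-- rational polynomials plus an irrational constant of `K` -/
theorem driven_polrat {Ω : Type u} [MeasurableSpace Ω] {d : ℕ} {P : Measure Ω} {S : Ω → Ω}
    {X : Ω → Fin d → ℝ} (h : Driven P S X) {K : Subfield ℝ} {L : Submodule ℚ ℝ}
    (hL : MeasurableSet (L : Set ℝ)) (hL1 : (1 : ℝ) ∈ L)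
    (hLK : ∀ x ∈ L, x ∈ K → ∃ a : ℚ, x = a) (n : ℕ) :
    ∀ G : MvPolynomial (Fin d) ℚ, G.totalDegree ≤ n → ∀ c ∈ K, (¬ ∃ a : ℚ, c = a) →
      ∀ᵐ ω ∂P, ev (Rat.castHom ℝ) (X ω) G + c ∉ L := by
  have hX : Measurable X := h.2.1
  have hrat : ∀ b : ℚ, (b : ℝ) ∈ L := by
    intro b
    have := L.smul_mem b hL1
    rwa [Rat.smul_def, mul_one] at this
  induction n with
  | zero =>
    intro G hG c hc hci
    refine Eventually.of_forall fun ω hmem => ?_
    rw [MvPolynomial.totalDegree_eq_zero_iff_eq_C.1 (Nat.le_zero.1 hG), ev_C] at hmem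
    have h1 := L.sub_mem hmem (hrat (MvPolynomial.coeff 0 G))
    have e : (Rat.castHom ℝ) (MvPolynomial.coeff 0 G) + c - ((MvPolynomial.coeff 0 G : ℚ) : ℝ) = c := by
      simp
    rw [e] at h1
    exact hci (hLK c h1 hc)
  | succ n ih =>
    intro G hG c hc hci
    set E : Set Ω := {ω | ev (Rat.castHom ℝ) (X ω) G + c ∈ L} with hE
    have hEm : MeasurableSet E := ((meas_ev hX (Rat.castHom ℝ) G).add_const c) hL
    have hall : ∀ᵐ ω ∂P, ∀ (R : ℚ) (v : Fin d → ℚ), R ^ (n + 1) ≠ 1 →
        ev (Rat.castHom ℝ) (X ω) (tr R v G - MvPolynomial.C (R ^ (n + 1)) * G) +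
          (1 - (R : ℝ) ^ (n + 1)) * c ∉ L := by
      rw [ae_all_iff]
      intro R
      rw [ae_all_iff]
      intro v
      by_cases h0 : R ^ (n + 1) ≠ 1
      · have h1 := deg_tr (A := ℚ) R v G (n := n) hG
        have hne : (1 - R ^ (n + 1) : ℚ) ≠ 0 := fun h => h0 (by linarith)
        have h2 := ih (tr R v G - MvPolynomial.C (R ^ (n + 1)) * G) (by simpa using h1)
          ((1 - (R : ℝ) ^ (n + 1)) * c) (K.mul_mem (K.sub_mem K.one_mem
            (K.pow_mem (SubfieldClass.ratCast_mem K R) _)) hc) (by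
            rintro ⟨a, ha⟩
            apply hci
            refine ⟨a / (1 - R ^ (n + 1)), ?_⟩
            have hne' : (1 - (R : ℝ) ^ (n + 1)) ≠ 0 := by exact_mod_cast hne
            push_cast
            rw [eq_div_iff hne', mul_comm]
            exact ha)
        filter_upwards [h2] with ω hω _
        exact hω
      · exact Eventually.of_forall fun ω hω => absurd hω h0
    have hz : P E = 0 := by
      refine driven_gen h hEm (Y := fun _ => 1) measurable_const
        (Eventually.of_forall fun _ => one_ne_zero) (n := n + 1) (Nat.succ_ne_zero n) ?_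
      filter_upwards [hall] with ω hω ω' R v hR hv h1 h2
      have hXω' : X ω' = fun i => (R : ℝ) * X ω i + v i := funext hv
      have h4 : ev (Rat.castHom ℝ) (X ω') G + c ∈ L := h2
      have h5 : ev (Rat.castHom ℝ) (X ω) G + c ∈ L := h1
      have h3 : R ^ (n + 1) = 1 := by
        by_contra hne
        refine hω R v hne ?_
        rw [map_sub, ev_tr, ← hXω', map_mul, ev_C]
        have h6 := L.sub_mem h4 (L.smul_mem (R ^ (n + 1)) h5)
        rw [Rat.smul_def] at h6
        convert h6 using 1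
        rw [map_pow, Rat.coe_castHom]
        push_cast
        ring
      have h6 : (R : ℝ) ^ (n + 1) = 1 := by exact_mod_cast h3
      rw [h6, mul_one]
    exact measure_eq_zero_iff_ae_notMem.1 hz

end Pool.Agent.Zk24.SL
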