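import Pool.Agent.Zk24.SL.PolC

/-!
Real polynomials at driven vectors, the torus, and the rigidity statement.
-/

set_option autoImplicit false

open MeasureTheory Filter Topology Set
open scoped ENNReal

namespace Pool.Agent.Zk24.SL

universe u

/-- a real polynomial whose nonconstant coefficients are in `K` -/
lemma exists_lift {d : ℕ} {K : Subfield ℝ} {f : MvPolynomial (Fin d) ℝ}
    (hf : ∀ α : Fin d →₀ ℕ, α ≠ 0 → MvPolynomial.coeff α f ∈ K) :
    ∃ F : MvPolynomial (Fin d) K, MvPolynomial.coeff 0 F = 0 ∧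
      (∀ α : Fin d →₀ ℕ, α ≠ 0 → ((MvPolynomial.coeff α F : K) : ℝ) = MvPolynomial.coeff α f) ∧
      ∀ x : Fin d → ℝ, MvPolynomial.eval x f = ev K.subtype x F + MvPolynomial.coeff 0 f := by
  classical
  set g : (Fin d →₀ ℕ) → K := fun α =>
    if h : α ≠ 0 then ⟨MvPolynomial.coeff α f, hf α h⟩ else 0 with hg
  set F : MvPolynomial (Fin d) K := ∑ α ∈ f.support, MvPolynomial.monomial α (g α) with hF
  have hcoeff : ∀ β : Fin d →₀ ℕ, MvPolynomial.coeff β F = if β ∈ f.support then g β else 0 := by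
    intro β
    rw [hF, MvPolynomial.coeff_sum]
    simp only [MvPolynomial.coeff_monomial]
    rw [Finset.sum_ite_eq']
  have hne : ∀ α : Fin d →₀ ℕ, α ≠ 0 →
      ((MvPolynomial.coeff α F : K) : ℝ) = MvPolynomial.coeff α f := by
    intro α hα
    rw [hcoeff]
    split_ifs with h
    · rw [hg]
      simp only [dif_pos hα]
    · rw [MvPolynomial.notMem_support_iff.1 h]
      rfl
  have h0 : MvPolynomial.coeff 0 F = 0 := by
    rw [hcoeff]
    split_ifs with h
    · rw [hg]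
      simp
    · rfl
  refine ⟨F, h0, hne, fun x => ?_⟩
  have e : f = MvPolynomial.map K.subtype F + MvPolynomial.C (MvPolynomial.coeff 0 f) := by
    ext β
    rw [MvPolynomial.coeff_add, MvPolynomial.coeff_map, MvPolynomial.coeff_C]
    by_cases hβ : β = 0
    · subst hβ
      rw [h0, if_pos rfl, map_zero, zero_add]
    · rw [if_neg (fun h => hβ h.symm), add_zero]
      exact (hne β hβ).symm
  conv_lhs => rw [e]
  rw [map_add, MvPolynomial.eval_C, MvPolynomial.eval_map]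
  rfl

/-- a real polynomial whose nonconstant coefficients are rational -/
lemma exists_lift_rat {d : ℕ} {f : MvPolynomial (Fin d) ℝ}
    (hf : ∀ α : Fin d →₀ ℕ, α ≠ 0 → ∃ a : ℚ, MvPolynomial.coeff α f = a) :
    ∃ G : MvPolynomial (Fin d) ℚ,
      ∀ x : Fin d → ℝ, MvPolynomial.eval x f = ev (Rat.castHom ℝ) x G + MvPolynomial.coeff 0 f := by
  classical
  choose c hc using hf
  set g : (Fin d →₀ ℕ) → ℚ := fun α => if h : α ≠ 0 then c α h else 0 with hg
  set G : MvPolynomial (Fin d) ℚ := ∑ α ∈ f.support, MvPolynomial.monomial α (g α) with hG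
  have hcoeff : ∀ β : Fin d →₀ ℕ, MvPolynomial.coeff β G = if β ∈ f.support then g β else 0 := by
    intro β
    rw [hG, MvPolynomial.coeff_sum]
    simp only [MvPolynomial.coeff_monomial]
    rw [Finset.sum_ite_eq']
  refine ⟨G, fun x => ?_⟩
  have e : f = MvPolynomial.map (Rat.castHom ℝ) G + MvPolynomial.C (MvPolynomial.coeff 0 f) := by
    ext β
    rw [MvPolynomial.coeff_add, MvPolynomial.coeff_map, MvPolynomial.coeff_C, hcoeff]
    by_cases hβ : β = 0
    · subst hβ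
      rw [if_pos rfl]
      simp [hg]
    · have h0 : ¬ (0 = β) := fun h => hβ h.symm
      rw [if_neg h0, add_zero]
      split_ifs with h
      · rw [hg]
        simp only [dif_pos hβ]
        exact hc β hβ
      · rw [MvPolynomial.notMem_support_iff.1 h, map_zero]
  conv_lhs => rw [e]
  rw [map_add, MvPolynomial.eval_C, MvPolynomial.eval_map]
  rfl

/-- the coefficients of a polynomial over `K` which is not rational -/
def NotRat {d : ℕ} (K : Subfield ℝ) (f : MvPolynomial (Fin d) ℝ) : Prop :=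
  (∀ α : Fin d →₀ ℕ, α ≠ 0 → MvPolynomial.coeff α f ∈ K) ∧
  ((∃ α : Fin d →₀ ℕ, α ≠ 0 ∧ Irrational (MvPolynomial.coeff α f)) ∨
    (MvPolynomial.coeff 0 f ∈ K ∧ Irrational (MvPolynomial.coeff 0 f)))

/-- **Polynomial values of driven vectors.** -/
theorem driven_real {Ω : Type u} [MeasurableSpace Ω] {d : ℕ} {P : Measure Ω} {S : Ω → Ω}
    {X : Ω → Fin d → ℝ} (h : Driven P S X) {K : Subfield ℝ} {L : Submodule ℚ ℝ}
    (hL : MeasurableSet (L : Set ℝ)) (hL1 : (1 : ℝ) ∈ L)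
    (hLK : ∀ x ∈ L, x ∈ K → ∃ a : ℚ, x = a) {f : MvPolynomial (Fin d) ℝ}
    (hf : NotRat K f) : ∀ᵐ ω ∂P, MvPolynomial.eval (X ω) f ∉ L := by
  obtain ⟨hf1, hf2⟩ := hf
  by_cases hA : ∃ α : Fin d →₀ ℕ, α ≠ 0 ∧ Irrational (MvPolynomial.coeff α f)
  · obtain ⟨F, -, hF, hev⟩ := exists_lift hf1
    obtain ⟨α, hα, hαi⟩ := hA
    have h1 := driven_pol h hL hLK F.totalDegree F (Nat.le_succ _) ⟨α, hα, by
      rintro ⟨a, ha⟩
      rw [hF α hα] at ha
      exact hαi ⟨a, ha.symm⟩⟩ (MvPolynomial.coeff 0 f)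
    filter_upwards [h1] with ω hω
    rw [hev]
    exact hω
  · have hB := hf2.resolve_left hA
    have hrat : ∀ α : Fin d →₀ ℕ, α ≠ 0 → ∃ a : ℚ, MvPolynomial.coeff α f = a := by
      intro α hα
      by_contra hne
      exact hA ⟨α, hα, fun ⟨a, ha⟩ => hne ⟨a, ha.symm⟩⟩
    obtain ⟨G, hG⟩ := exists_lift_rat hrat
    have h1 := driven_polrat h hL hL1 hLK G.totalDegree G le_rfl _ hB.1
      (fun ⟨a, ha⟩ => hB.2 ⟨a, ha.symm⟩)
    filter_upwards [h1] with ω hω
    rw [hG]
    exact hω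

/-- rational translates of driven vectors -/
lemma driven_shift {Ω : Type u} [MeasurableSpace Ω] {d : ℕ} {P : Measure Ω} {S : Ω → Ω}
    {X : Ω → Fin d → ℝ} (h : Driven P S X) (j : Fin d → ℤ) :
    Driven P S (fun ω i => X ω i + j i) := by
  obtain ⟨hS, hX, ⟨r, e, hr, hre, hlog⟩, hat⟩ := h
  refine ⟨hS, ?_, ⟨r, fun ω i => e ω i + j i - r ω * j i, hr, ?_, hlog⟩, ?_⟩
  · exact measurable_pi_lambda _ fun i => ((measurable_pi_apply i).comp hX).add_const _
  · filter_upwards [hre] with ω hω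
    refine ⟨hω.1, fun i => ?_⟩
    rw [hω.2 i]
    push_cast
    ring
  · intro a b ha
    have h1 := hat a (b - ∑ i, a i * j i) ha
    have e : {ω | ∑ i, (a i : ℝ) * (X ω i + j i) = b} =
        {ω | ∑ i, (a i : ℝ) * X ω i = ((b - ∑ i, a i * j i : ℚ) : ℝ)} := by
      ext ω
      simp only [mem_ofPred_eq]
      push_cast
      simp only [mul_add, Finset.sum_add_distrib]
      constructor
      · intro h
        linarith
      · intro h
        linarith
    rw [e]
    exact h1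

/-- all lifts -/
theorem torus_real {d : ℕ} {n : ℤ} (hn : 2 ≤ |n|) {κ : Measure (Fin d → T)}
    (hκ : Conservative (fun x : Fin d → T => n • x) κ)
    (hat : ∀ m : Fin d → ℤ, m ≠ 0 → ∀ c : T, IsOfFinAddOrder c → κ {x | ∑ i, m i • x i = c} = 0)
    {K : Subfield ℝ} {L : Submodule ℚ ℝ}
    (hL : MeasurableSet (L : Set ℝ)) (hL1 : (1 : ℝ) ∈ L) (hLK : ∀ x ∈ L, x ∈ K → ∃ a : ℚ, x = a)
    {f : MvPolynomial (Fin d) ℝ} (hf : NotRat K f) :
    ∀ᵐ x ∂κ, ∀ X : Fin d → ℝ, (∀ i, ((X i : ℝ) : T) = x i) → MvPolynomial.eval X f ∉ L := by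
  have hD := torus_driven' hn hκ hat
  have key : ∀ j : Fin d → ℤ, ∀ᵐ x ∂κ, MvPolynomial.eval (fun i => rep (x i) + j i) f ∉ L :=
    fun j => driven_real (driven_shift hD j) hL hL1 hLK hf
  filter_upwards [ae_all_iff.2 key] with x hx X hX
  have hj : ∀ i, ∃ j : ℤ, X i = rep (x i) + j := by
    intro i
    have h1 : ((X i - rep (x i) : ℝ) : T) = 0 := by
      rw [AddCircle.coe_sub, coe_rep, hX, sub_self]
    rw [AddCircle.coe_eq_zero_iff] at h1
    obtain ⟨j, hj⟩ := h1
    refine ⟨j, ?_⟩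
    rw [zsmul_eq_mul, mul_one] at hj
    linarith
  choose j hj using hj
  have e : X = fun i => rep (x i) + j i := funext hj
  rw [e]
  exact hx j

/-- the constant coefficient of a translate -/
lemma notRat_add {d : ℕ} {K : Subfield ℝ} {f : MvPolynomial (Fin d) ℝ}
    (hf : ∀ α : Fin d →₀ ℕ, α ≠ 0 → MvPolynomial.coeff α f ∈ K)
    (hi : ∃ α : Fin d →₀ ℕ, α ≠ 0 ∧ Irrational (MvPolynomial.coeff α f)) (t : ℝ) :
    NotRat K (f + MvPolynomial.C t) := by
  classical
  have h : ∀ α : Fin d →₀ ℕ, α ≠ 0 →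
      MvPolynomial.coeff α (f + MvPolynomial.C t) = MvPolynomial.coeff α f := by
    intro α hα
    rw [MvPolynomial.coeff_add, MvPolynomial.coeff_C, if_neg (fun h => hα h.symm), add_zero]
  refine ⟨fun α hα => by rw [h α hα]; exact hf α hα, Or.inl ?_⟩
  obtain ⟨α, hα, hαi⟩ := hi
  exact ⟨α, hα, by rw [h α hα]; exact hαi⟩

end Pool.Agent.Zk24.SL
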