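import Pool.Agent.Zk24.SL.PolD

/-!
The polynomials with values in a rational subspace at a driven vector are those with all coefficients
in the subspace.
-/

set_option autoImplicit false

open MeasureTheory Filter Topology Set
open scoped ENNReal

namespace Pool.Agent.Zk24.SL

universe u

/-- induction on the degree -/
theorem driven_L_aux {Ω : Type u} [MeasurableSpace Ω] {d : ℕ} {P : Measure Ω} {S : Ω → Ω}
    {X : Ω → Fin d → ℝ} (h : Driven P S X) {L : Submodule ℚ ℝ}
    (hL : MeasurableSet (L : Set ℝ)) (n : ℕ) :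
    ∀ F : MvPolynomial (Fin d) ℝ, F.totalDegree ≤ n →
      (∃ α : Fin d →₀ ℕ, MvPolynomial.coeff α F ∉ L) →
      ∀ᵐ ω ∂P, ev (RingHom.id ℝ) (X ω) F ∉ L := by
  have hX : Measurable X := h.2.1
  induction n with
  | zero =>
    rintro F hF ⟨α, hα⟩
    have e := MvPolynomial.totalDegree_eq_zero_iff_eq_C.1 (Nat.le_zero.1 hF)
    have h0 : MvPolynomial.coeff 0 F ∉ L := by
      classical
      intro h0
      apply hα
      rw [e, MvPolynomial.coeff_C]
      split_ifs
      · exact h0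
      · exact L.zero_mem
    refine Eventually.of_forall fun ω hmem => ?_
    rw [e, ev_C] at hmem
    exact h0 hmem
  | succ n ih =>
    rintro F hF ⟨α, hα⟩
    obtain ⟨φ, hφ1, hφ2⟩ := Submodule.exists_le_ker_of_notMem hα
    have hφL : ∀ c ∈ L, φ c = 0 := fun c hc => hφ2 hc
    set ψ : ℝ →+ ℚ := φ.toAddMonoidHom with hψ
    have hψv : ∀ c : ℝ, ψ c = φ c := fun c => rfl
    have hψr : ∀ (r : ℚ) (c : ℝ), ψ (r * c) = r * ψ c := by
      intro r c
      rw [hψv, hψv]
      have e : (r : ℝ) * c = r • c := by rw [Rat.smul_def]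
      rw [e, map_smul, smul_eq_mul]
    set G := cf ψ F with hG
    have hG0 : G ≠ 0 := by
      intro h0
      have h1 : MvPolynomial.coeff α G = 0 := by rw [h0]; simp
      rw [hG, coeff_cf] at h1
      exact hφ1 h1
    have hGd : G.totalDegree ≤ n + 1 := by
      refine Finset.sup_le fun β hβ => ?_
      have h1 : MvPolynomial.coeff β F ≠ 0 := by
        intro h0
        apply MvPolynomial.mem_support_iff.1 hβ
        rw [hG, coeff_cf, h0, map_zero]
      exact (MvPolynomial.le_totalDegree (MvPolynomial.mem_support_iff.2 h1)).trans hF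
    have hD := driven_alg h n G hGd hG0
    set E : Set Ω := {ω | ev (RingHom.id ℝ) (X ω) F ∈ L} with hE
    have hEm : MeasurableSet E := (meas_ev hX (RingHom.id ℝ) F) hL
    have hall : ∀ᵐ ω ∂P, ∀ (R : ℚ) (v : Fin d → ℚ),
        (∃ α : Fin d →₀ ℕ, MvPolynomial.coeff α
          (tr R v F - MvPolynomial.C ((R : ℝ) ^ (n + 1)) * F) ∉ L) →
        ev (RingHom.id ℝ) (X ω) (tr R v F - MvPolynomial.C ((R : ℝ) ^ (n + 1)) * F) ∉ L := by
      rw [ae_all_iff]
      intro R
      rw [ae_all_iff]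
      intro v
      by_cases h0 : ∃ α : Fin d →₀ ℕ, MvPolynomial.coeff α
          (tr R v F - MvPolynomial.C ((R : ℝ) ^ (n + 1)) * F) ∉ L
      · filter_upwards [ih _ (deg_tr R v F hF) h0] with ω hω _
        exact hω
      · exact Eventually.of_forall fun ω hω => absurd hω h0
    have hz : P E = 0 := by
      refine driven_gen h hEm (meas_ev hX (Rat.castHom ℝ) G) hD
        (n := n + 1) (Nat.succ_ne_zero n) ?_
      filter_upwards [hall] with ω hω ω' R v hR hv h1 h2
      have hXω' : X ω' = fun i => (R : ℝ) * X ω i + v i := funext hv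
      have h4 : ev (RingHom.id ℝ) (X ω') F ∈ L := h2
      have h5 : ev (RingHom.id ℝ) (X ω) F ∈ L := h1
      have h3 : ∀ α : Fin d →₀ ℕ, MvPolynomial.coeff α
          (tr R v F - MvPolynomial.C ((R : ℝ) ^ (n + 1)) * F) ∈ L := by
        by_contra hne
        push Not at hne
        refine hω R v hne ?_
        rw [map_sub, ev_tr, ← hXω', map_mul, ev_C]
        have h6 := L.sub_mem h4 (L.smul_mem (R ^ (n + 1)) h5)
        rw [Rat.smul_def] at h6
        convert h6 using 1
        push_cast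
        rfl
      have h7 : tr R v G - MvPolynomial.C (R ^ (n + 1)) * G =
          cf ψ (tr R v F - MvPolynomial.C ((R : ℝ) ^ (n + 1)) * F) := by
        have e : ((R : ℝ) ^ (n + 1)) = (((R ^ (n + 1) : ℚ)) : ℝ) := by push_cast; rfl
        rw [cf_sub, cf_tr ψ hψr, e, cf_C_mul ψ hψr]
      have h8 : cf ψ (tr R v F - MvPolynomial.C ((R : ℝ) ^ (n + 1)) * F) = 0 := by
        ext β
        rw [coeff_cf, hψv, hφL _ (h3 β), MvPolynomial.coeff_zero]
      rw [h8] at h7
      have h9 := congrArg (ev (Rat.castHom ℝ) (X ω)) (sub_eq_zero.1 h7)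
      rw [ev_tr, ← hXω', map_mul, ev_C] at h9
      rw [h9]
      simp
    exact measure_eq_zero_iff_ae_notMem.1 hz

/-- **Polynomial values of driven vectors in rational subspaces.** -/
theorem driven_L {Ω : Type u} [MeasurableSpace Ω] {d : ℕ} {P : Measure Ω} {S : Ω → Ω}
    {X : Ω → Fin d → ℝ} (h : Driven P S X) {L : Submodule ℚ ℝ}
    (hL : MeasurableSet (L : Set ℝ)) {f : MvPolynomial (Fin d) ℝ}
    (hf : ∃ α : Fin d →₀ ℕ, MvPolynomial.coeff α f ∉ L) :
    ∀ᵐ ω ∂P, MvPolynomial.eval (X ω) f ∉ L := by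
  filter_upwards [driven_L_aux h hL f.totalDegree f le_rfl hf] with ω hω
  exact hω

/-- all lifts -/
theorem torus_L {d : ℕ} {n : ℤ} (hn : 2 ≤ |n|) {κ : Measure (Fin d → T)}
    (hκ : Conservative (fun x : Fin d → T => n • x) κ)
    (hat : ∀ m : Fin d → ℤ, m ≠ 0 → ∀ c : T, IsOfFinAddOrder c → κ {x | ∑ i, m i • x i = c} = 0)
    {L : Submodule ℚ ℝ} (hL : MeasurableSet (L : Set ℝ)) {f : MvPolynomial (Fin d) ℝ}
    (hf : ∃ α : Fin d →₀ ℕ, MvPolynomial.coeff α f ∉ L) :
    ∀ᵐ x ∂κ, ∀ X : Fin d → ℝ, (∀ i, ((X i : ℝ) : T) = x i) → MvPolynomial.eval X f ∉ L := by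
  have hD := torus_driven' hn hκ hat
  have key : ∀ j : Fin d → ℤ, ∀ᵐ x ∂κ, MvPolynomial.eval (fun i => rep (x i) + j i) f ∉ L :=
    fun j => driven_L (driven_shift hD j) hL hf
  filter_upwards [ae_all_iff.2 key] with x hx X hX
  have hj : ∀ i, ∃ j : ℤ, X i = rep (x i) + j := by
    intro i
    have h1 : ((X i - rep (x i) : ℝ) : T) = 0 := by
      rw [AddCircle.coe_sub, coe_rep, hX, sub_self]
    rw [AddCircle.coe_eq_zero_iff] at h1
    obtain ⟨j, hj⟩ := h1
    refine ⟨j, ?_⟩
    rw [zsmul_eq_mul, mul_one] at hj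
    linarith
  choose j hj using hj
  have e : X = fun i => rep (x i) + j i := funext hj
  rw [e]
  exact hx j

end Pool.Agent.Zk24.SL
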