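import Pool.Agent.Zk24.SL.Gen

/-!
Sums of dependent points with singular invariant laws have singular laws.
-/

set_option autoImplicit false

open MeasureTheory Filter Topology Set
open scoped ENNReal

namespace Pool.Agent.Zk24.SL

/-- sets of dimension zero are null -/
lemma vol_of_dimH {A : Set TC} (hA : MeasurableSet A) (h : dimH A = 0) :
    (volume : Measure TC) A = 0 := by
  have h1 := AddCircle.measurePreserving_mk (1 : ℝ) 0
  rw [← h1.measure_preimage hA.nullMeasurableSet]
  refine le_antisymm ((Measure.restrict_le_self _).trans ?_) zero_le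
  have h2 : dimH ((fun X : ℝ => (X : TC)) ⁻¹' A) < ((1 : NNReal) : ℝ≥0∞) := by
    refine (Pool.Agent.Zk32.dimH_lift A).trans_lt ?_
    rw [h]
    exact_mod_cast one_pos
  have h3 := hausdorffMeasure_of_dimH_lt h2
  rw [NNReal.coe_one, hausdorffMeasure_real] at h3
  exact h3.le

/-- **Sums.** -/
theorem sum_sing_dom {p : ℕ} (hp : 2 ≤ p) {μ : Measure TC} [IsProbabilityMeasure μ]
    (hμp : MeasurePreserving (fun x : TC => p • x) μ μ)
    (hE : Pool.Agent.W764.FB.EssInj p μ) {Λ : Measure (TC × TC)}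
    (h1 : Λ.map Prod.fst ≪ μ) (h2 : Λ.map Prod.snd ≪ μ) :
    Λ.map (fun z : TC × TC => z.1 + z.2) ⟂ₘ (volume : Measure TC) := by
  obtain ⟨H, ⟨C, hCc, hCd, hHC⟩, hH1⟩ := Pool.Agent.Zk32.exists_groupD hp hμp hE
  have hHm : MeasurableSet (H : Set TC) := by
    rw [hHC]
    exact MeasurableSet.iUnion fun k => (hCc k).measurableSet
  have hv : (volume : Measure TC) (H : Set TC) = 0 := by
    rw [hHC]
    exact measure_iUnion_null fun k => vol_of_dimH (hCc k).measurableSet (hCd k)
  refine ⟨(H : Set TC)ᶜ, hHm.compl, ?_, by rwa [compl_compl]⟩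
  have hm : Measurable fun z : TC × TC => z.1 + z.2 := measurable_fst.add measurable_snd
  rw [Measure.map_apply hm hHm.compl]
  have g1 : Λ (Prod.fst ⁻¹' (H : Set TC)ᶜ) = 0 := by
    rw [← Measure.map_apply measurable_fst hHm.compl]
    exact h1 hH1
  have g2 : Λ (Prod.snd ⁻¹' (H : Set TC)ᶜ) = 0 := by
    rw [← Measure.map_apply measurable_snd hHm.compl]
    exact h2 hH1
  refine measure_mono_null ?_ (measure_union_null g1 g2)
  intro z hz
  by_contra hcon
  simp only [mem_union, mem_preimage, mem_compl_iff, not_or, not_not] at hcon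
  exact hz (H.add_mem hcon.1 hcon.2)

/-- sums of two dependent points with singular invariant laws, `p` and `q` coprime -/
theorem sum_sing {p q : ℕ} (hp : 2 ≤ p) (hq : 2 ≤ q) (hpq : Nat.Coprime p q)
    {κ₁ κ₂ : Measure TC} [IsProbabilityMeasure κ₁] [IsProbabilityMeasure κ₂]
    (h1p : MeasurePreserving (fun x : TC => p • x) κ₁ κ₁)
    (h1q : MeasurePreserving (fun x : TC => q • x) κ₁ κ₁)
    (h1s : κ₁ ⟂ₘ (volume : Measure TC))
    (h2p : MeasurePreserving (fun x : TC => p • x) κ₂ κ₂)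
    (h2q : MeasurePreserving (fun x : TC => q • x) κ₂ κ₂)
    (h2s : κ₂ ⟂ₘ (volume : Measure TC)) {Λ : Measure (TC × TC)}
    (h1 : Λ.map Prod.fst ≪ κ₁) (h2 : Λ.map Prod.snd ≪ κ₂) :
    Λ.map (fun z : TC × TC => z.1 + z.2) ⟂ₘ (volume : Measure TC) := by
  obtain ⟨μ, hμ, hμp, hμq, hac, hE⟩ := exists_dom (N := {κ₁, κ₂}) hp hq
    ((countable_singleton _).insert _) (by
      rintro ν (rfl | hν)
      · exact ⟨inferInstance, h1p, h1q⟩
      · rw [mem_singleton_iff] at hν
        subst hν
        exact ⟨inferInstance, h2p, h2q⟩) (Or.inl ⟨hpq, by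
      rintro ν (rfl | hν)
      · exact h1s
      · rw [mem_singleton_iff] at hν
        subst hν
        exact h2s⟩)
  exact sum_sing_dom hp hμp hE (h1.trans (hac _ (mem_insert _ _)))
    (h2.trans (hac _ (mem_insert_of_mem _ rfl)))

end Pool.Agent.Zk24.SL
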