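import Pool.Agent.Zk24.SL.DimDet0
import Pool.Agent.Zk24.SL.UnivAll
import Pool.Agent.Zk32.Tw2
import Pool.Agent.Zk63.SL.ZdDet

/-!
One rational subspace which carries all the invariant measures of entropy zero.
-/

set_option autoImplicit false

open MeasureTheory Filter Topology Set Metric
open scoped ENNReal NNReal

namespace Pool.Agent.Zk24.SL

open Pool.Agent.Zk32 (Folner ave Det Tor cir coe_cir cir_meas sum_gen coef_gen Thick Solid
  nsmul_measX)
open Pool.Agent.Zk63.SL (det0_meas det0_ae)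

/-- the measure is thin: the first multiplication is injective on a Borel set of full measure -/
def Inj (p : ℕ) (ν : Measure TC) : Prop :=
  ∃ B : Set TC, MeasurableSet B ∧ ν Bᶜ = 0 ∧ InjOn (fun x : TC => p • x) B

/-- the rational subspace of a Folner sequence with convergence almost everywhere -/
theorem carrier0 {p q : ℕ} (hp : 2 ≤ p) {F : ℕ → Finset (ℕ × ℕ)} (hF : Folner F)
    (hconv : ∀ ν : Measure TC, IsProbabilityMeasure ν →
      MeasurePreserving (fun x : TC => p • x) ν ν → MeasurePreserving (fun x : TC => q • x) ν ν →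
      ∀ g : C(UnitAddCircle, ℝ), ∀ᵐ x ∂ν, ∃ c : ℝ,
        Tendsto (fun k => ave p q (F k) g x) atTop (𝓝 c)) :
    ∃ H : AddSubgroup TC, (H : Set TC) = Det0 p q F ∧ MeasurableSet (lin H : Set ℝ) ∧
      ∀ ν : Measure TC, IsProbabilityMeasure ν → MeasurePreserving (fun x : TC => p • x) ν ν →
        MeasurePreserving (fun x : TC => q • x) ν ν → Inj p ν →
        ∀ᵐ x ∂ν, ∀ X : ℝ, (X : TC) = x → X ∈ lin H := by
  obtain ⟨H, hH⟩ := det0_group (q := q) hp hF
  have hHm : MeasurableSet (H : Set TC) := by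
    rw [hH]
    exact det0_meas hF.1
  refine ⟨H, hH, lin_meas hHm, fun ν hν hνp hνq hinj => ?_⟩
  obtain ⟨B, hB, hB0, hBi⟩ := hinj
  have hE := essInj_of hp hB hB0 hBi
  have h1 := det0_ae hF.1 hνp hνq (sc_of_essInj hp hνp hE) (hconv ν hν hνp hνq)
  rw [← hH] at h1
  filter_upwards [h1] with x hx X hX
  refine ⟨1, one_pos, ?_⟩
  rw [Nat.cast_one, one_mul, hX]
  exact hx

/-- null sets -/
lemma null_lin {p q : ℕ} {F : ℕ → Finset (ℕ × ℕ)} (hne : ∀ k, (F k).Nonempty)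
    {H : AddSubgroup TC} (hH : (H : Set TC) ⊆ Det p q F) {ω : Measure TC}
    (h0 : ∀ n : ℕ, (ω.map fun x => (n + 1) • x) (Det p q F) = 0) : ω (cir (lin H)) = 0 := by
  have h1 : cir (lin H) ⊆ ⋃ n : ℕ, {w | (n + 1) • w ∈ Det p q F} := by
    rintro w ⟨T, rfl, n, hn, hx⟩
    obtain ⟨m, rfl⟩ := Nat.exists_eq_succ_of_ne_zero hn.ne'
    refine mem_iUnion.2 ⟨m, ?_⟩
    show (m + 1) • (T : TC) ∈ Det p q F
    have e : (m + 1) • (T : TC) = (((((m + 1 : ℕ) : ℝ) * T : ℝ)) : TC) := by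
      rw [← AddCircle.coe_nsmul, nsmul_eq_mul]
    rw [e]
    exact hH hx
  refine measure_mono_null h1 (measure_iUnion_null fun n => ?_)
  have h2 := h0 n
  rwa [Measure.map_apply (nsmul_measX _) (Pool.Agent.Zk32.det_meas hne)] at h2

/-- **The universal subspace for all multiplicatively independent integers.** -/
theorem exists_all0 {p q : ℕ} (hp : 2 ≤ p) (hq : 2 ≤ q)
    (hirr : Irrational (Real.log p / Real.log q)) {K : Set ℝ}
    (hK : K.Countable) {ω : ℕ → Measure TC} (hω : ∀ l, IsProbabilityMeasure (ω l))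
    (hth : ∀ l, Thick p q (ω l)) :
    ∃ L : Submodule ℚ ℝ, MeasurableSet (L : Set ℝ) ∧ dimH (L : Set ℝ) = 0 ∧ (1 : ℝ) ∈ L ∧
      (∀ ω : Measure TC, IsProbabilityMeasure ω → Solid p q ω → ω (cir L) = 0) ∧
      (∀ x ∈ L, x ∈ K → ∃ a : ℚ, x = a) ∧ (∀ l, ω l (cir L) = 0) ∧
      ∀ ν : Measure TC, IsProbabilityMeasure ν → MeasurePreserving (fun x : TC => p • x) ν ν →
        MeasurePreserving (fun x : TC => q • x) ν ν → Inj p ν →
        ∀ᵐ x ∂ν, ∀ X : ℝ, (X : TC) = x → X ∈ L := by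
  -- the strips
  set I : Set ℝ := {x | x ∈ K ∧ Irrational x} ∪ {√2} with hI
  have hIc : I.Countable := (hK.mono fun x hx => hx.1).union (countable_singleton _)
  obtain ⟨f, hf⟩ := hIc.exists_eq_range ⟨√2, Or.inr rfl⟩
  have hfi : ∀ k, Irrational (f k) := by
    intro k
    have h1 : f k ∈ I := hf ▸ mem_range_self k
    rcases h1 with h1 | h1
    · exact h1.2
    · rw [mem_singleton_iff.1 h1]
      exact irrational_sqrt_two
  set θ : ℕ → TC := fun l => ((((Nat.unpair l).2 + 1 : ℕ) : ℝ) * f (Nat.unpair l).1 : ℝ) with hθd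
  have hθ : ∀ l, θ l ∉ Tor := by
    rintro l ⟨n, hn, h⟩
    have h1 : IsOfFinAddOrder (θ l) := isOfFinAddOrder_iff_nsmul_eq_zero.2 ⟨n, hn, h⟩
    obtain ⟨a, ha⟩ := rat_of_torsion h1
    have h2 : Irrational ((((Nat.unpair l).2 + 1 : ℕ) : ℝ) * f (Nat.unpair l).1) :=
      (hfi _).natCast_mul (Nat.succ_ne_zero _)
    exact h2 ⟨a, ha.symm⟩
  obtain ⟨F₁, hF₁, hT₁, hS₁⟩ := Pool.Agent.Zk32.exists_strips hp hq hirr hθ
  obtain ⟨H₁, hH₁, hm₁, hc₁⟩ := carrier0 (q := q) hp hF₁ (fun ν hν hνp hνq g =>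
    Pool.Agent.Zk85.Tu.ae_conv hνp hνq hF₁ (C := 54) (by norm_num)
      (fun f hf hf0 hfi l hl => Pool.Agent.Zk32.maximal hνp hνq hF₁.1 (by norm_num) hT₁
        hf hf0 hfi hl) g)
  -- the sequence for the thick laws
  set η : ℕ → Measure TC := fun m =>
    (ω (Nat.unpair m).1).map fun x => ((Nat.unpair m).2 + 1) • x with hη
  have hηp : ∀ m, IsProbabilityMeasure (η m) := fun m => by
    have := hω (Nat.unpair m).1
    exact Measure.isProbabilityMeasure_map (nsmul_measX _).aemeasurable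
  have hηt : ∀ m, Thick p q (η m) := fun m => by
    have := hω (Nat.unpair m).1
    exact (hth _).map hp (Nat.succ_ne_zero _)
  obtain ⟨F₂, hF₂, hT₂, h02⟩ := Pool.Agent.Zk32.exists_thickF hp (by omega) hηp hηt
  obtain ⟨H₂, hH₂, hm₂, hc₂⟩ := carrier0 (q := q) hp hF₂ (fun ν hν hνp hνq g =>
    Pool.Agent.Zk85.Tu.ae_convB hνp hνq hF₂ (C := 8 * 2) (by norm_num)
      (fun f hf hf0 hf1 l hl hl1 => Pool.Agent.Zk63.Tu.maximalB hνp hνq hF₂.1 (by norm_num) hT₂
        hf hf0 hf1 hl hl1) g)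
  -- the boxes
  obtain ⟨H₃, hH₃, hm₃, hc₃⟩ := carrier0 (q := q) hp box_folner (fun ν hν hνp hνq g =>
    Pool.Agent.Zk85.Tu.ae_conv hνp hνq box_folner (C := 4) (by norm_num)
      (fun f hf hf0 hfi l hl => Pool.Agent.Zk32.maximal hνp hνq box_folner.1 (by norm_num) box_temp
        hf hf0 hfi hl) g)
  have hd₃ : dimH (lin H₃ : Set ℝ) = 0 :=
    Pool.Agent.Zk32.dimH_lin (C := fun _ => (H₃ : Set TC))
      (fun _ => by rw [hH₃]; exact dim_det0 hp hq box_folner) (iUnion_const _).symm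
  have hs₁ : (H₁ : Set TC) ⊆ Det p q F₁ := by rw [hH₁]; exact det0_sub hp hF₁
  have hs₂ : (H₂ : Set TC) ⊆ Det p q F₂ := by rw [hH₂]; exact det0_sub hp hF₂
  refine ⟨lin H₁ ⊓ lin H₂ ⊓ lin H₃, ?_, ?_, ⟨⟨lin_one _, lin_one _⟩, lin_one _⟩, ?_, ?_, ?_, ?_⟩
  · rw [Submodule.coe_inf, Submodule.coe_inf]
    exact (hm₁.inter hm₂).inter hm₃
  · refine le_antisymm ((dimH_mono ?_).trans hd₃.le) zero_le
    rw [Submodule.coe_inf]
    exact inter_subset_right
  · intro ω hω hs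
    refine measure_mono_null (t := cir (lin H₁)) ?_ (null_lin hF₁.1 hs₁ fun n => ?_)
    · rintro w ⟨T, hT, hTL⟩
      exact ⟨T, hT, hTL.1.1⟩
    · have := Measure.isProbabilityMeasure_map (μ := ω)
        (nsmul_measX (n + 1)).aemeasurable
      exact (hs.map hp (Nat.succ_ne_zero n)).det_null hp (by omega) hF₁
  · rintro x hx hxK
    obtain ⟨⟨⟨n, hn, hX⟩, -⟩, -⟩ := hx
    by_contra hne'
    have hi : Irrational x := fun ⟨a, ha⟩ => hne' ⟨a, ha.symm⟩
    have hxI : x ∈ range f := hf ▸ (Or.inl ⟨hxK, hi⟩ : x ∈ I)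
    obtain ⟨k, rfl⟩ := hxI
    have h1 : θ (Nat.pair k (n - 1)) ∈ Det p q F₁ := by
      refine hs₁ ?_
      rw [hθd]
      simp only [Nat.unpair_pair]
      rw [Nat.sub_add_cancel hn]
      exact hX
    exact Pool.Agent.Zk32.det_notMem hF₁.1 hS₁ _ h1
  · intro l
    refine measure_mono_null (t := cir (lin H₂)) ?_ (null_lin hF₂.1 hs₂ fun n => ?_)
    · rintro w ⟨T, hT, hTL⟩
      exact ⟨T, hT, hTL.1.2⟩
    · have h2 := h02 (Nat.pair l n)
      simp only [hη, Nat.unpair_pair] at h2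
      exact h2
  · intro ν hν hνp hνq hinj
    filter_upwards [hc₁ ν hν hνp hνq hinj, hc₂ ν hν hνp hνq hinj, hc₃ ν hν hνp hνq hinj]
      with x h1 h2 h3 X hX
    exact ⟨⟨h1 X hX, h2 X hX⟩, h3 X hX⟩

end Pool.Agent.Zk24.SL
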