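import Pool.Agent.Zk24.SL.DimDet
import Pool.Agent.Zk24.SL.BoxF
import Pool.Agent.Zk32.Tl6

/-!
The universal subspace can be taken of dimension zero.
-/

set_option autoImplicit false

open MeasureTheory Filter Topology Set Metric
open scoped ENNReal NNReal

namespace Pool.Agent.Zk24.SL

open Pool.Agent.Zk32 (Folner ave Det Tor Temp)

lemma lin_meas {H : AddSubgroup TC} (hHm : MeasurableSet (H : Set TC)) :
    MeasurableSet (lin H : Set ℝ) := by
  have e : (lin H : Set ℝ) = ⋃ k : ℕ, {X : ℝ | ((((k + 1 : ℕ) : ℝ) * X : ℝ) : TC) ∈ (H : Set TC)} := by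
    ext X
    constructor
    · rintro ⟨n, hn, hX⟩
      refine mem_iUnion.2 ⟨n - 1, ?_⟩
      show (((((n - 1 + 1 : ℕ) : ℝ)) * X : ℝ) : TC) ∈ (H : Set TC)
      rw [Nat.sub_add_cancel hn]
      exact hX
    · intro hX
      obtain ⟨k, hX⟩ := mem_iUnion.1 hX
      exact ⟨k + 1, Nat.succ_pos _, hX⟩
  rw [e]
  refine MeasurableSet.iUnion fun k => ?_
  have h1 : Continuous fun Y : ℝ => (Y : TC) := AddCircle.continuous_mk' 1
  exact (h1.comp (continuous_const_mul (((k + 1 : ℕ) : ℝ)))).measurable hHm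

/-- **A universal subspace contains a universal subspace of dimension zero.** -/
theorem univ_dim {p q : ℕ} (hp : 2 ≤ p) (hq : 2 ≤ q) (hpq : Nat.Coprime p q)
    {L₁ : Submodule ℚ ℝ} (hm : MeasurableSet (L₁ : Set ℝ)) (h1 : (1 : ℝ) ∈ L₁)
    (hν : ∀ ν : Measure TC, IsProbabilityMeasure ν → MeasurePreserving (fun x : TC => p • x) ν ν →
      MeasurePreserving (fun x : TC => q • x) ν ν → ν ⟂ₘ (volume : Measure TC) →
      ∀ᵐ x ∂ν, ∀ X : ℝ, (X : TC) = x → X ∈ L₁) :
    ∃ L : Submodule ℚ ℝ, L ≤ L₁ ∧ MeasurableSet (L : Set ℝ) ∧ dimH (L : Set ℝ) = 0 ∧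
      (1 : ℝ) ∈ L ∧
      ∀ ν : Measure TC, IsProbabilityMeasure ν → MeasurePreserving (fun x : TC => p • x) ν ν →
        MeasurePreserving (fun x : TC => q • x) ν ν → ν ⟂ₘ (volume : Measure TC) →
        ∀ᵐ x ∂ν, ∀ X : ℝ, (X : TC) = x → X ∈ L := by
  have hF := box_folner
  have hne : ∀ k, (bx k).Nonempty := hF.1
  obtain ⟨H, hH⟩ := det_group hp hq hpq hF
  have hHm : MeasurableSet (H : Set TC) := by
    rw [hH]
    exact Pool.Agent.Zk32.det_meas hne
  have hHd : dimH (lin H : Set ℝ) = 0 :=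
    Pool.Agent.Zk32.dimH_lin (C := fun _ => (H : Set TC))
      (fun _ => by rw [hH]; exact dim_det hp hq hpq hF) (iUnion_const _).symm
  refine ⟨L₁ ⊓ lin H, inf_le_left, ?_, ?_, ⟨h1, lin_one H⟩, ?_⟩
  · rw [Submodule.coe_inf]
    exact hm.inter (lin_meas hHm)
  · refine le_antisymm ((dimH_mono ?_).trans hHd.le) zero_le
    rw [Submodule.coe_inf]
    exact inter_subset_right
  · intro ν hνm hνp hνq hs
    have h2 := Pool.Agent.Zk32.det_ae hne hνp hνq hs fun g =>
      Pool.Agent.Zk85.Tu.ae_conv hνp hνq hF (C := 4) (by norm_num)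
        (fun f hf hf0 hfi l hl => Pool.Agent.Zk32.maximal hνp hνq hne (by norm_num) box_temp
          hf hf0 hfi hl) g
    rw [← hH] at h2
    filter_upwards [h2, hν ν hνm hνp hνq hs] with x hx hx1 X hX
    refine ⟨hx1 X hX, 1, one_pos, ?_⟩
    rw [Nat.cast_one, one_mul, hX]
    exact hx

end Pool.Agent.Zk24.SL
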