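import Pool.Agent.Zk24.SL.Avoid

/-!
Affine functions with an irrational coefficient along orbits of the rational homotheties; a null
set criterion for conservative systems.
-/

set_option autoImplicit false

open MeasureTheory Filter Topology Set
open scoped ENNReal

namespace Pool.Agent.Zk24.SL

/-- a linear functional over the rationals which does not vanish at the coefficients -/
lemma exists_psi {d : ℕ} {l : (Fin d → ℝ) × ℝ}
    (hl : ¬ ((∀ i, ∃ a : ℚ, l.1 i = a) ∧ ∃ b : ℚ, l.2 = b)) :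
    ∃ (a : Fin d → ℚ) (b : ℚ), (a, b) ≠ 0 ∧ ∀ (v : Fin d → ℚ) (c w : ℚ),
      ∑ i, l.1 i * v i + c * l.2 = w → ∑ i, a i * v i + c * b = 0 := by
  have hex : ∀ x : ℝ, (¬ ∃ a : ℚ, x = a) → ∃ ψ : ℝ →ₗ[ℚ] ℚ, ψ x ≠ 0 ∧ ψ 1 = 0 := by
    intro x hx
    have hx' : x ∉ Submodule.span ℚ {(1 : ℝ)} := by
      intro h
      obtain ⟨a, ha⟩ := Submodule.mem_span_singleton.1 h
      refine hx ⟨a, ?_⟩
      rw [← ha, Rat.smul_def, mul_one]
    obtain ⟨ψ, h1, h2⟩ := Submodule.exists_dual_map_eq_bot_of_notMem hx' inferInstance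
    refine ⟨ψ, h1, ?_⟩
    have h3 : ψ 1 ∈ (Submodule.span ℚ {(1 : ℝ)}).map ψ :=
      Submodule.mem_map_of_mem (Submodule.mem_span_singleton_self _)
    rw [h2] at h3
    exact (Submodule.mem_bot ℚ).1 h3
  obtain ⟨ψ, hψ, hψ1⟩ : ∃ ψ : ℝ →ₗ[ℚ] ℚ, ((∃ i, ψ (l.1 i) ≠ 0) ∨ ψ l.2 ≠ 0) ∧ ψ 1 = 0 := by
    rw [not_and_or] at hl
    rcases hl with hl | hl
    · push Not at hl
      obtain ⟨i, hi⟩ := hl
      obtain ⟨ψ, h1, h2⟩ := hex (l.1 i) (by push Not; exact hi)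
      exact ⟨ψ, Or.inl ⟨i, h1⟩, h2⟩
    · obtain ⟨ψ, h1, h2⟩ := hex l.2 hl
      exact ⟨ψ, Or.inr h1, h2⟩
  refine ⟨fun i => ψ (l.1 i), ψ l.2, ?_, fun v c w h => ?_⟩
  · intro h0
    rw [Prod.mk_eq_zero] at h0
    rcases hψ with ⟨i, hi⟩ | h
    · exact hi (congrFun h0.1 i)
    · exact h h0.2
  · have h1 := congrArg ψ h
    have h2 : ψ (w : ℝ) = 0 := by
      have : (w : ℝ) = w • (1 : ℝ) := by rw [Rat.smul_def, mul_one]
      rw [this, map_smul, hψ1, smul_zero]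
    have h3 : ∀ (x : ℝ) (s : ℚ), ψ (x * s) = ψ x * s := by
      intro x s
      have : x * (s : ℝ) = s • x := by rw [Rat.smul_def, mul_comm]
      rw [this, map_smul, smul_eq_mul, mul_comm]
    rw [h2, map_add, map_sum, mul_comm (c : ℝ), h3] at h1
    simp_rw [h3] at h1
    rw [mul_comm c]
    exact h1

/-- the relation between two points of an orbit of the rational homotheties -/
theorem rel {d : ℕ} {l : (Fin d → ℝ) × ℝ} {A : Set T} {Θ : Set ℝ}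
    (hav : ∀ a b : ℤ, a ≠ 0 → b ≠ 0 → ∀ θ ∈ Θ, ∀ x ∈ A, ∀ y ∈ A, b • y ≠ a • x + (θ : T))
    (hΘ : ∀ (v : Fin d → ℚ) (c : ℚ), Irrational (∑ i, l.1 i * v i + c * l.2) →
      (∑ i, l.1 i * v i + c * l.2) ∈ Θ)
    {a : Fin d → ℚ} {b : ℚ} (hψ : ∀ (v : Fin d → ℚ) (c w : ℚ),
      ∑ i, l.1 i * v i + c * l.2 = w → ∑ i, a i * v i + c * b = 0)
    {x y : Fin d → ℝ} {R : ℚ} (hR : R ≠ 0) {v : Fin d → ℚ} (hy : ∀ i, y i = R * x i + v i)
    (hxA : ((∑ i, l.1 i * x i + l.2 : ℝ) : T) ∈ A)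
    (hyA : ((∑ i, l.1 i * y i + l.2 : ℝ) : T) ∈ A) :
    ∑ i, (a i : ℝ) * y i + b = R * (∑ i, (a i : ℝ) * x i + b) := by
  have hRR : (R : ℝ) * (R.den : ℝ) = R.num := by exact_mod_cast Rat.mul_den_eq_num R
  have hRq : R * (R.den : ℚ) = R.num := Rat.mul_den_eq_num R
  set θ : ℝ := ∑ i, l.1 i * (((R.den : ℚ) * v i : ℚ) : ℝ) + (((R.den : ℚ) - R.num : ℚ) : ℝ) * l.2
    with hθ
  have hrel : (R.den : ℤ) • ((∑ i, l.1 i * y i + l.2 : ℝ) : T) =
      R.num • ((∑ i, l.1 i * x i + l.2 : ℝ) : T) + (θ : T) := by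
    rw [← AddCircle.coe_zsmul, ← AddCircle.coe_zsmul, ← AddCircle.coe_add, zsmul_eq_mul,
      zsmul_eq_mul]
    congr 1
    have h1 : ∑ i, l.1 i * y i = (R : ℝ) * ∑ i, l.1 i * x i + ∑ i, l.1 i * v i := by
      rw [Finset.mul_sum, ← Finset.sum_add_distrib]
      refine Finset.sum_congr rfl fun i _ => ?_
      rw [hy]
      ring
    have h2 : ∑ i, l.1 i * (((R.den : ℚ) * v i : ℚ) : ℝ) = (R.den : ℝ) * ∑ i, l.1 i * v i := by
      rw [Finset.mul_sum]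
      refine Finset.sum_congr rfl fun i _ => ?_
      push_cast
      ring
    rw [hθ, h1, h2]
    push_cast
    linear_combination (∑ i, l.1 i * x i) * hRR
  have hnirr : ¬ Irrational θ := by
    intro hirr
    exact hav R.num (R.den : ℤ) (Rat.num_ne_zero.2 hR) (by exact_mod_cast R.den_ne_zero) θ
      (hΘ _ _ hirr) _ hxA _ hyA hrel
  rw [Irrational, not_not] at hnirr
  obtain ⟨w, hw⟩ := hnirr
  have h1 := hψ _ _ w hw.symm
  have h2 : (R.den : ℚ) * (∑ i, a i * v i + (1 - R) * b) = 0 := by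
    rw [← h1]
    have h3 : ∑ i, a i * ((R.den : ℚ) * v i) = (R.den : ℚ) * ∑ i, a i * v i := by
      rw [Finset.mul_sum]
      refine Finset.sum_congr rfl fun i _ => ?_
      ring
    rw [h3]
    linear_combination (-b) * hRq
  have h3 : ∑ i, a i * v i + (1 - R) * b = 0 :=
    (mul_eq_zero.1 h2).resolve_left (by exact_mod_cast R.den_ne_zero)
  have h4 : ∑ i, (a i : ℝ) * v i + (1 - (R : ℝ)) * b = 0 := by exact_mod_cast h3
  have h5 : ∑ i, (a i : ℝ) * y i = (R : ℝ) * ∑ i, (a i : ℝ) * x i + ∑ i, (a i : ℝ) * v i := by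
    rw [Finset.mul_sum, ← Finset.sum_add_distrib]
    refine Finset.sum_congr rfl fun i _ => ?_
    rw [hy]
    ring
  rw [h5]
  linear_combination h4

/-- conservative systems -/
theorem cons_null {Ω : Type*} [MeasurableSpace Ω] {P : Measure Ω} {S : Ω → Ω}
    (hS : Conservative S P) {E : Set Ω} (hE : MeasurableSet E) {Y : Ω → ℝ} (hY : Measurable Y)
    (hY0 : ∀ᵐ ω ∂P, Y ω ≠ 0) {R : ℕ → Ω → ℝ} (hR : ∀ k, Measurable (R k))
    (hlog : ∀ᵐ ω ∂P, Tendsto (fun k => |Real.log (R k ω)|) atTop atTop)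
    (hrel : ∀ᵐ ω ∂P, ∀ k, ω ∈ E → S^[k] ω ∈ E → Y (S^[k] ω) = R k ω * Y ω) : P E = 0 := by
  set EM : ℕ → ℕ → Set Ω := fun M K => E ∩ ({ω | Y ω ≠ 0 ∧ |Real.log (Y ω)| ≤ M} ∩
    {ω | ∀ k, K ≤ k → 2 * (M : ℝ) < |Real.log (R k ω)|}) with hEM
  have hm1 : ∀ M : ℕ, MeasurableSet {ω | Y ω ≠ 0 ∧ |Real.log (Y ω)| ≤ M} := fun M =>
    (hY (measurableSet_singleton 0).compl).inter
      (measurableSet_le (Real.measurable_log.comp hY).abs measurable_const)
  have hm2 : ∀ M K : ℕ, MeasurableSet {ω | ∀ k, K ≤ k → 2 * (M : ℝ) < |Real.log (R k ω)|} := by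
    intro M K
    have e : {ω | ∀ k, K ≤ k → 2 * (M : ℝ) < |Real.log (R k ω)|} =
        ⋂ k, ⋂ (_ : K ≤ k), {ω | 2 * (M : ℝ) < |Real.log (R k ω)|} := by
      ext ω; simp
    rw [e]
    exact MeasurableSet.iInter fun k => MeasurableSet.iInter fun _ =>
      measurableSet_lt measurable_const (Real.measurable_log.comp (hR k)).abs
  have hnull : ∀ M K, P (EM M K) = 0 := by
    intro M K
    by_contra hne
    have hm : MeasurableSet (EM M K) := hE.inter ((hm1 M).inter (hm2 M K))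
    obtain ⟨k, hk, hk0⟩ := hS.exists_gt_measure_inter_ne_zero hm.nullMeasurableSet hne K
    refine hk0 ?_
    have hempty : ∀ᵐ ω ∂P, ω ∉ EM M K ∩ S^[k] ⁻¹' EM M K := by
      filter_upwards [hrel] with ω hω hmem
      obtain ⟨⟨hE1, ⟨hy0, hyM⟩, hlo⟩, ⟨hE2, ⟨hz0, hzM⟩, -⟩⟩ := hmem
      have h1 := hω k hE1 hE2
      have hR0 : R k ω ≠ 0 := by
        intro h0
        rw [h0, zero_mul] at h1
        exact hz0 h1
      have h2 : Real.log (Y (S^[k] ω)) = Real.log (R k ω) + Real.log (Y ω) := by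
        rw [h1, Real.log_mul hR0 hy0]
      have h3 := hlo k hk.le
      have h4 : |Real.log (R k ω)| ≤ |Real.log (Y (S^[k] ω))| + |Real.log (Y ω)| := by
        have h5 : Real.log (R k ω) = Real.log (Y (S^[k] ω)) - Real.log (Y ω) := by
          rw [h2]; ring
        rw [h5]
        exact abs_sub _ _
      linarith
    exact measure_eq_zero_iff_ae_notMem.2 hempty
  have hcover : ∀ᵐ ω ∂P, ω ∉ E := by
    have hall : ∀ᵐ ω ∂P, ∀ M K, ω ∉ EM M K := ae_all_iff.2 fun M => ae_all_iff.2 fun K =>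
      measure_eq_zero_iff_ae_notMem.1 (hnull M K)
    filter_upwards [hall, hY0, hlog] with ω h1 h2 h3 hωE
    obtain ⟨M, hM⟩ := exists_nat_ge |Real.log (Y ω)|
    obtain ⟨K, hK⟩ := eventually_atTop.1 (h3.eventually (eventually_gt_atTop (2 * (M : ℝ))))
    exact h1 M K ⟨hωE, ⟨h2, hM⟩, fun k hk => hK k hk⟩
  exact measure_eq_zero_iff_ae_notMem.2 hcover

end Pool.Agent.Zk24.SL
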